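import Pool.Agent.H67.AE.Hull

/-! The complement of a reachable set together with all movable elements is closed. -/

set_option autoImplicit false

open Finset Classical

namespace Pool.Agent.H67.AE

variable {n : ℕ}

noncomputable def mov (π : Equiv.Perm (Fin n)) (Z : Finset (Fin n)) : Finset (Fin n) :=
  univ.filter (fun u => u ∉ Z ∨ ∃ (Z1 T : Finset (Fin n)) (φ : Fin n → Fin n),
    Z ⊆ Z1 ∧ IsIso π Z1 T φ ∧ φ u ≠ u)

theorem reach_cover {π : Equiv.Perm (Fin n)} {Z : Finset (Fin n)} (hR : Reach π Z) :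
    ∀ u, u ∉ Z → ∃ (Z1 T : Finset (Fin n)) (φ : Fin n → Fin n),
      Z ⊆ Z1 ∧ u ∉ Z1 ∧ u ∈ T ∧ IsIso π Z1 T φ := by
  induction hR with
  | base => exact fun u hu => absurd (Finset.mem_univ u) hu
  | step Z Z' hR hC ih =>
    intro u hu
    by_cases h : u ∈ Z
    · obtain ⟨T, φ, _, hT, hφ⟩ := hC.2 u h
      exact ⟨Z', T, φ, Finset.Subset.refl _, hu, hT, hφ⟩
    · obtain ⟨Z1, T, φ, h1, h2, h3, h4⟩ := ih u h
      exact ⟨Z1, T, φ, hC.1.subset.trans h1, h2, h3, h4⟩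

theorem mem_mov {π : Equiv.Perm (Fin n)} {Z : Finset (Fin n)} {u : Fin n} :
    u ∈ mov π Z ↔ (u ∉ Z ∨ ∃ (Z1 T : Finset (Fin n)) (φ : Fin n → Fin n),
      Z ⊆ Z1 ∧ IsIso π Z1 T φ ∧ φ u ≠ u) := by
  unfold mov
  rw [Finset.mem_filter]
  exact ⟨fun h => h.2, fun h => ⟨Finset.mem_univ u, h⟩⟩

/-- everything between `a` and `φ a` is movable -/
theorem btw_mov {π : Equiv.Perm (Fin n)} {Z Z1 T : Finset (Fin n)} {φ : Fin n → Fin n}
    (h : IsIso π Z1 T φ) (hZ : Z ⊆ Z1) {a : Fin n} (ha : a ∈ Z1) {v : Fin n} :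
    (Btw a v (φ a) ∨ Btw (π a) (π v) (π (φ a))) → v ∈ mov π Z := by
  intro hb
  rw [mem_mov]
  by_cases hv : v ∈ Z
  · refine Or.inr ⟨Z1, T, φ, hZ, h, ?_⟩
    have hv1 := hZ hv
    rcases hb with hb | hb
    · rcases hb with ⟨h1, h2⟩ | ⟨h1, h2⟩
      · exact ((h2.trans (h.pos a ha v hv1 h1))).ne'
      · exact ((h.pos v hv1 a ha h2).trans h1).ne
    · rcases hb with ⟨h1, h2⟩ | ⟨h1, h2⟩
      · intro h3
        have h4 := h.val a ha v hv1 h1
        rw [h3] at h4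
        exact lt_asymm h2 h4
      · intro h3
        have h4 := h.val v hv1 a ha h2
        rw [h3] at h4
        exact lt_asymm h1 h4
  · exact Or.inl hv

theorem btw_symm {a b c : Fin n} (h : Btw a b c) : Btw c b a := by
  rcases h with ⟨h1, h2⟩ | ⟨h1, h2⟩
  · exact Or.inr ⟨h1, h2⟩
  · exact Or.inl ⟨h1, h2⟩

theorem mov_closed {π : Equiv.Perm (Fin n)} {Z : Finset (Fin n)} (hR : Reach π Z) :
    Closed π (mov π Z) := by
  intro u hu
  by_cases hZ : u ∈ Z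
  · obtain ⟨Z1, T, φ, h1, h2, h3⟩ := (mem_mov.1 hu).resolve_left (fun h => h hZ)
    refine ⟨φ u, ?_, h3, fun v hv => btw_mov h2 h1 (h1 hZ) (Or.inl hv),
      fun v hv => btw_mov h2 h1 (h1 hZ) (Or.inr hv)⟩
    rw [mem_mov]
    by_cases h4 : φ u ∈ Z
    · exact Or.inr ⟨Z1, T, φ, h1, h2, moved_again h2 (h1 hZ) (h1 h4) h3⟩
    · exact Or.inl h4
  · obtain ⟨Z1, T, φ, h1, h2, h3, h4⟩ := reach_cover hR u hZ
    obtain ⟨a, ha, hau⟩ := h4.surj u h3
    have hne : a ≠ u := fun h => h2 (h ▸ ha)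
    refine ⟨a, ?_, hne, fun v hv => btw_mov h4 h1 ha (Or.inl ?_),
      fun v hv => btw_mov h4 h1 ha (Or.inr ?_)⟩
    · rw [mem_mov]
      exact Or.inr ⟨Z1, T, φ, h1, h4, by rw [hau]; exact hne.symm⟩
    · rw [hau]; exact btw_symm hv
    · rw [hau]; exact btw_symm hv

theorem small {π : Equiv.Perm (Fin n)} {Z A : Finset (Fin n)} {m1 vmax : ℕ}
    (hA : ∀ (Z1 T : Finset (Fin n)) (φ : Fin n → Fin n), Z ⊆ Z1 → IsIso π Z1 T φ →
      ∀ z ∈ Z, φ z ≠ z → z ∈ A)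
    (hR : Reach π Z) (hT : T4 π m1 vmax) (hc : (univ \ Z).card + A.card ≤ vmax) :
    (univ \ Z).card ≤ m1 := by
  have h1 : mov π Z ⊆ (univ \ Z) ∪ A := by
    intro u hu
    rw [Finset.mem_union, Finset.mem_sdiff]
    by_cases hZ : u ∈ Z
    · obtain ⟨Z1, T, φ, h1, h2, h3⟩ := (mem_mov.1 hu).resolve_left (fun h => h hZ)
      exact Or.inr (hA Z1 T φ h1 h2 u hZ h3)
    · exact Or.inl ⟨Finset.mem_univ u, hZ⟩
  have h2 : (mov π Z).card ≤ vmax :=
    (Finset.card_le_card h1).trans ((Finset.card_union_le _ _).trans hc)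
  have h3 := hT _ (mov_closed hR) h2
  refine (Finset.card_le_card fun u hu => ?_).trans h3
  exact mem_mov.2 (Or.inl (Finset.mem_sdiff.1 hu).2)

end Pool.Agent.H67.AE
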