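import Pool.Agent.H67.AE.Defs

/-! Three generations of windows. -/

set_option autoImplicit false

open Finset Classical

namespace Pool.Agent.H67.AE

variable {n : ℕ}

theorem win_near_pos (π : Equiv.Perm (Fin n)) (l : ℕ) (Y : Finset (Fin n)) (z y : Fin n)
    (i : Fin 4) (hi : i = 0 ∨ i = 1) (h : y ∈ win (dir π i) l Y z) : Near l z y := by
  unfold win at h
  rw [mem_filter] at h
  obtain ⟨-, h1, h2⟩ := h
  unfold Near
  rcases hi with rfl | rfl
  · simp only [dir, Equiv.Perm.coe_one, id_eq] at h1 h2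
    omega
  · simp only [dir, Fin.revPerm_apply, Fin.val_rev] at h1 h2
    have := z.2
    have := y.2
    omega

theorem win_near_val (π : Equiv.Perm (Fin n)) (l : ℕ) (Y : Finset (Fin n)) (z y : Fin n)
    (i : Fin 4) (hi : i = 2 ∨ i = 3) (h : y ∈ win (dir π i) l Y z) : Near l (π z) (π y) := by
  unfold win at h
  rw [mem_filter] at h
  obtain ⟨-, h1, h2⟩ := h
  unfold Near
  rcases hi with rfl | rfl
  · simp only [dir] at h1 h2
    omega
  · simp only [dir, Equiv.Perm.coe_mul, Function.comp_apply, Fin.revPerm_apply,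
      Fin.val_rev] at h1 h2
    have := (π z).2
    have := (π y).2
    omega

theorem near_symm {l : ℕ} {u v : Fin n} (h : Near l u v) : Near l v u := ⟨h.2, h.1⟩

theorem card_near (l : ℕ) (z0 : Fin n) :
    (univ.filter (fun z : Fin n => Near l z z0)).card ≤ 2 * l + 1 := by
  have h : (univ.filter (fun z : Fin n => Near l z z0)).card ≤
      (Finset.Icc ((z0 : ℕ) - l) ((z0 : ℕ) + l)).card := by
    apply Finset.card_le_card_of_injOn (fun z : Fin n => (z : ℕ))
    · intro z hz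
      have hz' : Near l z z0 := by simpa using hz
      unfold Near at hz'
      simp only [Finset.coe_Icc, Set.mem_Icc]
      omega
    · intro a _ b _ hab
      exact Fin.ext hab
  refine h.trans ?_
  rw [Nat.card_Icc]
  omega

/-- half of the window is outside `A` -/
theorem half_window (δ : Equiv.Perm (Fin n)) (b l w : ℕ) (Y A : Finset (Fin n)) (z : Fin n)
    (hz : z ∈ Y) (hn : ((δ z : Fin n) : ℕ) + l ≤ n) (hh : z ∉ heavy l δ Y A)
    (hw : b * w ≤ l) (hc : l < b * (win δ l Y z).card) :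
    (w + 1) / 2 ≤ (win δ l Y z \ A).card := by
  have h1 : 2 * (win δ l A z).card < (win δ l Y z).card := by
    by_contra hcon
    apply hh
    unfold heavy
    rw [mem_filter]
    exact ⟨hz, hn, by omega⟩
  have h2 : w < (win δ l Y z).card := by
    by_contra hcon
    have : b * (win δ l Y z).card ≤ b * w := Nat.mul_le_mul_left b (by omega)
    omega
  have h3 : (win δ l Y z).card ≤ (win δ l Y z \ A).card + (win δ l A z).card := by
    have : win δ l Y z ⊆ (win δ l Y z \ A) ∪ win δ l A z := by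
      intro y hy
      by_cases hyA : y ∈ A
      · rw [mem_union]
        right
        unfold win at hy ⊢
        rw [mem_filter] at hy ⊢
        exact ⟨hyA, hy.2⟩
      · rw [mem_union]
        left
        rw [mem_sdiff]
        exact ⟨hy, hyA⟩
    exact (card_le_card this).trans (card_union_le _ _)
  omega

/-- `S1 = win \ nxt A0` around `z0`, `S2` = union of the value windows of `S1` minus `A0`,
then the position windows of the elements of `S2` that are not near `z0`. -/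
theorem expand (π : Equiv.Perm (Fin n)) (b l w K1 K2 : ℕ) (hl : 1 ≤ l) (hw : b * w ≤ l)
    (Y M A0 : Finset (Fin n)) (hM : M ⊆ Y)
    (hpos : ∀ z ∈ M, z ∉ A0 → ∃ i : Fin 4, (i = 0 ∨ i = 1) ∧ ((dir π i z : Fin n) : ℕ) + l ≤ n ∧
      win (dir π i) l Y z ⊆ M ∧ l < b * (win (dir π i) l Y z).card)
    (hval : ∀ z ∈ M, z ∉ A0 → ∃ i : Fin 4, (i = 2 ∨ i = 3) ∧ ((dir π i z : Fin n) : ℕ) + l ≤ n ∧
      win (dir π i) l Y z ⊆ M ∧ l < b * (win (dir π i) l Y z).card)
    (hO1 : O1 π l K1) (hO2 : O2 π l K2)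
    (z0 : Fin n) (hz0 : z0 ∈ M) (hz : z0 ∉ nxt π l Y (nxt π l Y A0)) :
    w * (w * w - 4 * K1 * (2 * l + 1)) ≤ 4 * K1 * K2 * M.card := by
  -- facts on nxt
  have hsub : ∀ A : Finset (Fin n), A ⊆ nxt π l Y A := fun A => subset_union_left
  have hheavy : ∀ (A : Finset (Fin n)) (z : Fin n) (i : Fin 4), z ∉ nxt π l Y A →
      z ∉ heavy l (dir π i) Y A := by
    intro A z i hzA hzh
    apply hzA
    unfold nxt
    rw [mem_union, mem_biUnion]
    exact Or.inr ⟨i, mem_univ _, hzh⟩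
  set A1 := nxt π l Y A0 with hA1
  have hz1 : z0 ∉ A1 := fun h => hz (hsub A1 h)
  have hz00 : z0 ∉ A0 := fun h => hz1 (hsub A0 h)
  -- choice functions
  have hpos2 : ∀ z : Fin n, ∃ i : Fin 4, z ∈ M → z ∉ A0 → (i = 0 ∨ i = 1) ∧
      ((dir π i z : Fin n) : ℕ) + l ≤ n ∧
      win (dir π i) l Y z ⊆ M ∧ l < b * (win (dir π i) l Y z).card := by
    intro z
    by_cases h : z ∈ M ∧ z ∉ A0
    · obtain ⟨i, hi⟩ := hpos z h.1 h.2
      exact ⟨i, fun _ _ => hi⟩
    · exact ⟨0, fun h1 h2 => absurd ⟨h1, h2⟩ h⟩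
  have hval2 : ∀ z : Fin n, ∃ i : Fin 4, z ∈ M → z ∉ A0 → (i = 2 ∨ i = 3) ∧
      ((dir π i z : Fin n) : ℕ) + l ≤ n ∧
      win (dir π i) l Y z ⊆ M ∧ l < b * (win (dir π i) l Y z).card := by
    intro z
    by_cases h : z ∈ M ∧ z ∉ A0
    · obtain ⟨i, hi⟩ := hval z h.1 h.2
      exact ⟨i, fun _ _ => hi⟩
    · exact ⟨0, fun h1 h2 => absurd ⟨h1, h2⟩ h⟩
  choose cp hcp using hpos2
  choose cv hcv using hval2
  set m := (w + 1) / 2 with hm
  -- first generation
  set S1 := win (dir π (cp z0)) l Y z0 \ A1 with hS1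
  obtain ⟨hi0, hn0, hw0, hc0⟩ := hcp z0 hz0 hz00
  have hS1c : m ≤ S1.card :=
    half_window (dir π (cp z0)) b l w Y A1 z0 (hM hz0) hn0 (hheavy A1 z0 _ hz) hw hc0
  have hS1M : ∀ z ∈ S1, z ∈ M := fun z hz' => hw0 (mem_sdiff.mp hz').1
  have hS1A : ∀ z ∈ S1, z ∉ A1 := fun z hz' => (mem_sdiff.mp hz').2
  have hS1A0 : ∀ z ∈ S1, z ∉ A0 := fun z hz' h => hS1A z hz' (hsub A0 h)
  have hS1near : ∀ z ∈ S1, Near l z z0 := fun z hz' =>
    near_symm (win_near_pos π l Y z0 z (cp z0) hi0 (mem_sdiff.mp hz').1)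
  -- second generation
  set F : Fin n → Finset (Fin n) := fun z => win (dir π (cv z)) l Y z \ A0 with hF
  set S2 := S1.biUnion F with hS2
  have hFc : ∀ z ∈ S1, m ≤ (F z).card := by
    intro z hz'
    obtain ⟨_, h2, _, h4⟩ := hcv z (hS1M z hz') (hS1A0 z hz')
    exact half_window (dir π (cv z)) b l w Y A0 z (hM (hS1M z hz')) h2
      (hheavy A0 z _ (hS1A z hz')) hw h4
  have hFM : ∀ z ∈ S1, F z ⊆ M := by
    intro z hz' y hy
    exact (hcv z (hS1M z hz') (hS1A0 z hz')).2.2.1 (mem_sdiff.mp hy).1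
  have hFnear : ∀ z ∈ S1, ∀ y ∈ F z, Near l (π z) (π y) := by
    intro z hz' y hy
    exact win_near_val π l Y z y (cv z) (hcv z (hS1M z hz') (hS1A0 z hz')).1 (mem_sdiff.mp hy).1
  have hcount1 : S1.card * m ≤ S2.card * K1 := by
    apply Finset.card_mul_le_card_mul (fun z y => y ∈ F z)
    · intro z hz'
      refine (hFc z hz').trans (card_le_card ?_)
      intro y hy
      rw [Finset.mem_bipartiteAbove]
      exact ⟨mem_biUnion.mpr ⟨z, hz', hy⟩, hy⟩
    · intro y _
      refine le_trans (card_le_card ?_) (hO1 z0 (π y))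
      intro z hz'
      rw [Finset.mem_bipartiteBelow] at hz'
      rw [mem_filter]
      exact ⟨mem_univ _, hS1near z hz'.1, hFnear z hz'.1 y hz'.2⟩
  -- third generation
  set S3 := S2.filter (fun z => ¬ Near l z z0) with hS3
  have hS2M : ∀ y ∈ S2, y ∈ M ∧ y ∉ A0 := by
    intro y hy
    obtain ⟨z, hz', hyz⟩ := mem_biUnion.mp hy
    exact ⟨hFM z hz' hyz, (mem_sdiff.mp hyz).2⟩
  have hcount2 : S3.card * w ≤ M.card * K2 := by
    apply Finset.card_mul_le_card_mul (fun z y => y ∈ win (dir π (cp z)) l Y z)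
    · intro z hz'
      have hzS2 := (mem_filter.mp hz').1
      obtain ⟨_, _, h3, h4⟩ := hcp z (hS2M z hzS2).1 (hS2M z hzS2).2
      have hwc : w ≤ (win (dir π (cp z)) l Y z).card := by
        by_contra hcon
        have : b * (win (dir π (cp z)) l Y z).card ≤ b * w := Nat.mul_le_mul_left b (by omega)
        omega
      refine hwc.trans (card_le_card ?_)
      intro y hy
      rw [Finset.mem_bipartiteAbove]
      exact ⟨h3 hy, hy⟩
    · intro y _
      refine le_trans (card_le_card ?_) (hO2 z0 y)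
      intro z hz'
      rw [Finset.mem_bipartiteBelow] at hz'
      obtain ⟨hz3, hyz⟩ := hz'
      obtain ⟨hz2, hnn⟩ := mem_filter.mp hz3
      rw [mem_filter]
      refine ⟨mem_univ _, hnn, ?_, ?_⟩
      · exact win_near_pos π l Y z y (cp z) (hcp z (hS2M z hz2).1 (hS2M z hz2).2).1 hyz
      · obtain ⟨u, hu, hzu⟩ := mem_biUnion.mp hz2
        exact ⟨u, hS1near u hu, hFnear u hu z hzu⟩
  have hS2c : S2.card ≤ S3.card + (2 * l + 1) := by
    have h1 : S2 ⊆ S3 ∪ univ.filter (fun z : Fin n => Near l z z0) := by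
      intro y hy
      by_cases hn : Near l y z0
      · rw [mem_union]
        exact Or.inr (mem_filter.mpr ⟨mem_univ _, hn⟩)
      · rw [mem_union]
        exact Or.inl (mem_filter.mpr ⟨hy, hn⟩)
    exact (card_le_card h1).trans ((card_union_le _ _).trans (Nat.add_le_add_left (card_near l z0) _))
  -- combine
  have hmw : w ≤ 2 * m := by omega
  have e1 : w * w ≤ 4 * K1 * S2.card := by
    have : m * m ≤ S2.card * K1 := (Nat.mul_le_mul_right m hS1c).trans hcount1
    nlinarith [Nat.mul_le_mul hmw hmw]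
  have e2 : w * w - 4 * K1 * (2 * l + 1) ≤ 4 * K1 * S3.card := by
    have : 4 * K1 * S2.card ≤ 4 * K1 * S3.card + 4 * K1 * (2 * l + 1) := by
      calc 4 * K1 * S2.card ≤ 4 * K1 * (S3.card + (2 * l + 1)) := Nat.mul_le_mul_left _ hS2c
        _ = _ := by ring
    omega
  calc w * (w * w - 4 * K1 * (2 * l + 1)) ≤ w * (4 * K1 * S3.card) := Nat.mul_le_mul_left _ e2
    _ = 4 * K1 * (S3.card * w) := by ring
    _ ≤ 4 * K1 * (M.card * K2) := Nat.mul_le_mul_left _ hcount2
    _ = 4 * K1 * K2 * M.card := by ring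

end Pool.Agent.H67.AE
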