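import Pool.Agent.H67.AE.Hull

/-! The complement of a covering subset has few intervals. -/

set_option autoImplicit false

open Finset Classical

namespace Pool.Agent.H67.AE

variable {n : ℕ}

theorem card_le_of_rel {α β : Type} (s : Finset α) (t : Finset β) (r : α → β → Prop)
    (h1 : ∀ a ∈ s, ∃ b ∈ t, r a b)
    (h2 : ∀ a ∈ s, ∀ a' ∈ s, ∀ b ∈ t, r a b → r a' b → a = a') : s.card ≤ t.card := by
  rcases s.eq_empty_or_nonempty with rfl | ⟨a0, ha0⟩
  · simp
  obtain ⟨b0, hb0, _⟩ := h1 a0 ha0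
  have h3 : ∀ a : α, ∃ b : β, a ∈ s → b ∈ t ∧ r a b := by
    intro a
    by_cases ha : a ∈ s
    · obtain ⟨b, hb, hr⟩ := h1 a ha
      exact ⟨b, fun _ => ⟨hb, hr⟩⟩
    · exact ⟨b0, fun h => absurd h ha⟩
  choose f hf using h3
  apply Finset.card_le_card_of_injOn f
  · intro a ha
    exact (hf a ha).1
  · intro a ha a' ha' hab
    have hb := hf a ha
    have hb' := hf a' ha'
    rw [← hab] at hb'
    exact h2 a ha a' ha' (f a) hb.1 hb.2 hb'.2

/-- Let `U` be the complement of `Z'`. For a start `s` of `U` that lies in `Z` take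
`φ : Z' → T` with `s ∈ T`, `s = φ y`. If `δ y < δ s` the predecessor of `s` is in `Z'` and moved,
if `δ s < δ y` the first element of `Z'` after `s` is moved (by `hull`). -/
theorem jump_starts {π : Equiv.Perm (Fin n)} (δ : Equiv.Perm (Fin n)) (hδ : δ = 1 ∨ δ = π)
    {Z Z' A : Finset (Fin n)} (hc : Cov π Z' Z)
    (hA : ∀ (T : Finset (Fin n)) (φ : Fin n → Fin n), IsIso π Z' T φ →
      ∀ z ∈ Z', φ z ≠ z → z ∈ A) :
    (starts δ (univ \ Z')).card ≤ (univ \ Z).card + 2 * A.card := by
  -- forward and backward versions of `hull`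
  have hfwd : ∀ (T : Finset (Fin n)) (φ : Fin n → Fin n), IsIso π Z' T φ → ∀ z ∈ Z', ∀ v ∈ Z',
      δ z ≤ δ v → δ v < δ (φ z) → φ v ≠ v := by
    intro T φ hφ z hz v hv h1 h2
    rcases hδ with rfl | rfl
    · exact hull hφ 0 hz hv (lt_of_le_of_lt h1 h2) h1 h2
    · exact hull hφ 2 hz hv (lt_of_le_of_lt h1 h2) h1 h2
  have hbwd : ∀ (T : Finset (Fin n)) (φ : Fin n → Fin n), IsIso π Z' T φ → ∀ z ∈ Z', ∀ v ∈ Z',
      δ v ≤ δ z → δ (φ z) < δ v → φ v ≠ v := by
    intro T φ hφ z hz v hv h1 h2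
    rcases hδ with rfl | rfl
    · refine hull hφ 1 hz hv ?_ ?_ ?_
      · exact Fin.rev_lt_rev.2 (lt_of_lt_of_le h2 h1)
      · exact Fin.rev_le_rev.2 h1
      · exact Fin.rev_lt_rev.2 h2
    · refine hull hφ 3 hz hv ?_ ?_ ?_
      · exact Fin.rev_lt_rev.2 (lt_of_lt_of_le h2 h1)
      · exact Fin.rev_le_rev.2 h1
      · exact Fin.rev_lt_rev.2 h2
  set U := univ \ Z' with hU
  have hmemU : ∀ x, x ∈ U ↔ x ∉ Z' := by
    intro x
    simp [hU]
  set S := starts δ U with hS
  have hmemS : ∀ s, s ∈ S ↔ s ∈ U ∧ ∀ r ∈ U, ((δ r : Fin n) : ℕ) + 1 ≠ ((δ s : Fin n) : ℕ) := by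
    intro s
    rw [hS]
    unfold starts
    rw [mem_filter]
  set S2 := S.filter (fun s => ∃ p ∈ A, ((δ p : Fin n) : ℕ) + 1 = ((δ s : Fin n) : ℕ)) with hS2
  set S3 := S.filter (fun s => ∃ q ∈ A, q ∈ Z' ∧ δ s < δ q ∧
    ∀ r, δ s < δ r → δ r < δ q → r ∉ Z') with hS3
  have hcover : S ⊆ (univ \ Z) ∪ (S2 ∪ S3) := by
    intro s hs
    by_cases hsZ : s ∈ Z
    · obtain ⟨T, φ, hTZ, hsT, hφ⟩ := hc.2 s hsZ
      obtain ⟨y, hy, hys⟩ := hφ.surj s hsT
      have hsU := ((hmemS s).1 hs).1
      have hst := ((hmemS s).1 hs).2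
      have hsZ' : s ∉ Z' := (hmemU s).1 hsU
      have hne : y ≠ s := fun h => hsZ' (h ▸ hy)
      rw [mem_union, mem_union]
      right
      rcases lt_trichotomy (δ y) (δ s) with hlt | heq | hgt
      · left
        have hpos : 1 ≤ ((δ s : Fin n) : ℕ) := by
          have : ((δ y : Fin n) : ℕ) < ((δ s : Fin n) : ℕ) := hlt
          omega
        have hlt' : ((δ s : Fin n) : ℕ) - 1 < n := by
          have := (δ s).2
          omega
        set p : Fin n := δ.symm ⟨((δ s : Fin n) : ℕ) - 1, hlt'⟩ with hp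
        have hδp : ((δ p : Fin n) : ℕ) + 1 = ((δ s : Fin n) : ℕ) := by
          rw [hp, Equiv.apply_symm_apply]
          simp only
          omega
        have hpZ' : p ∈ Z' := by
          by_contra hcon
          exact hst p ((hmemU p).2 hcon) hδp
        have h1 : δ y ≤ δ p := by
          rw [Fin.le_def]
          have : ((δ y : Fin n) : ℕ) < ((δ s : Fin n) : ℕ) := hlt
          omega
        have h2 : δ p < δ (φ y) := by
          rw [hys, Fin.lt_def]
          omega
        have h3 := hfwd T φ hφ y hy p hpZ' h1 h2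
        rw [hS2, mem_filter]
        exact ⟨hs, p, hA T φ hφ p hpZ' h3, hδp⟩
      · exact absurd (δ.injective heq) hne
      · right
        have hne' : (Z'.filter (fun q => δ s < δ q)).Nonempty := ⟨y, mem_filter.2 ⟨hy, hgt⟩⟩
        obtain ⟨q, hq, hqmin⟩ := exists_min_image (Z'.filter (fun q => δ s < δ q))
          (fun q => δ q) hne'
        rw [mem_filter] at hq
        have h1 : δ q ≤ δ y := hqmin y (mem_filter.2 ⟨hy, hgt⟩)
        have h2 : δ (φ y) < δ q := by rw [hys]; exact hq.2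
        have h3 := hbwd T φ hφ y hy q hq.1 h1 h2
        rw [hS3, mem_filter]
        refine ⟨hs, q, hA T φ hφ q hq.1 h3, hq.1, hq.2, ?_⟩
        intro r hr1 hr2 hrZ
        have := hqmin r (mem_filter.2 ⟨hrZ, hr1⟩)
        exact absurd hr2 (not_lt.2 this)
    · rw [mem_union]
      left
      simp [hsZ]
  have hc2 : S2.card ≤ A.card := by
    apply card_le_of_rel S2 A (fun s p => ((δ p : Fin n) : ℕ) + 1 = ((δ s : Fin n) : ℕ))
    · intro s hs
      rw [hS2, mem_filter] at hs
      exact hs.2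
    · intro s _ s' _ p _ h1 h2
      apply δ.injective
      apply Fin.ext
      omega
  have hc3 : S3.card ≤ A.card := by
    apply card_le_of_rel S3 A (fun s q => q ∈ Z' ∧ δ s < δ q ∧
      ∀ r, δ s < δ r → δ r < δ q → r ∉ Z')
    · intro s hs
      rw [hS3, mem_filter] at hs
      exact hs.2
    · -- if `s < s'` then the predecessor of `s'` is in `U`
      have hkey : ∀ s ∈ S3, ∀ s' ∈ S3, ∀ q : Fin n,
          (∀ r, δ s < δ r → δ r < δ q → r ∉ Z') → δ s' < δ q → ¬ δ s < δ s' := by
        intro s hs s' hs' q hq hs'q hlt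
        have hsS := (mem_filter.1 hs).1
        have hs'S := (mem_filter.1 hs').1
        have hlt0 : ((δ s : Fin n) : ℕ) < ((δ s' : Fin n) : ℕ) := hlt
        have hlt' : ((δ s' : Fin n) : ℕ) - 1 < n := by
          have := (δ s').2
          omega
        set p : Fin n := δ.symm ⟨((δ s' : Fin n) : ℕ) - 1, hlt'⟩ with hp
        have hδp : ((δ p : Fin n) : ℕ) + 1 = ((δ s' : Fin n) : ℕ) := by
          rw [hp, Equiv.apply_symm_apply]
          simp only
          omega
        have hpU : p ∈ U := by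
          rcases Nat.lt_or_ge ((δ s : Fin n) : ℕ) ((δ p : Fin n) : ℕ) with h | h
          · rw [hmemU]
            apply hq p h
            have h5 : ((δ s' : Fin n) : ℕ) < ((δ q : Fin n) : ℕ) := hs'q
            rw [Fin.lt_def]
            omega
          · have h6 : p = s := by
              apply δ.injective
              apply Fin.ext
              omega
            rw [h6]
            exact ((hmemS s).1 hsS).1
        exact ((hmemS s').1 hs'S).2 p hpU hδp
      intro s hs s' hs' q _ h1 h2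
      rcases lt_trichotomy (δ s) (δ s') with hlt | heq | hgt
      · exact absurd hlt (hkey s hs s' hs' q h1.2.2 h2.2.1)
      · exact δ.injective heq
      · exact absurd hgt (hkey s' hs' s hs q h2.2.2 h1.2.1)
  have h4 := card_le_card hcover
  have h5 := card_union_le (univ \ Z) (S2 ∪ S3)
  have h6 := card_union_le S2 S3
  omega

end Pool.Agent.H67.AE
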