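import Pool.Agent.H67.AE.Cover
import Pool.Agent.H67.AE.Expand
import Pool.Agent.H67.AE.ClosedSet
import Pool.Agent.H67.AE.Jump

/-! The deterministic part: reachable sets are nearly full or small. -/

set_option autoImplicit false

open Finset Classical

namespace Pool.Agent.H67.AE

variable {n : ℕ}

/-- the mobility lemma -/
theorem mobility (π : Equiv.Perm (Fin n)) (b l L w K1 K2 : ℕ) (hl : 1 ≤ l) (hw : b * w ≤ l)
    (hT1 : T1 π L) (hO1 : O1 π l K1) (hO2 : O2 π l K2)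
    (hnum : 4 * K1 * K2 * L < w * (w * w - 4 * K1 * (2 * l + 1)))
    (Y Z T : Finset (Fin n)) (φ : Fin n → Fin n) (hYZ : Y ⊆ Z) (hφ : IsIso π Z T φ)
    (z : Fin n) (hz : z ∈ Y) (hm : φ z ≠ z) : z ∈ At2 π b l (L * b) Y := by
  by_contra hcon
  have hM : moved Y φ ⊆ Y := filter_subset _ _
  have hmem : ∀ y, y ∈ moved Y φ ↔ y ∈ Y ∧ φ y ≠ y := by
    intro y
    unfold moved
    rw [mem_filter]
  have hcard : (moved Y φ).card ≤ L := by
    refine le_trans (card_le_card ?_) (hT1 Z T φ hφ)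
    intro y hy
    rw [hmem] at hy
    unfold moved
    rw [mem_filter]
    exact ⟨hYZ hy.1, hy.2⟩
  have key := expand π b l w K1 K2 hl hw Y (moved Y φ) (At0 π b l (L * b) Y) hM
    (fun y hy hyA => (local_claim π b l L hl hT1 Y Z T φ hYZ hφ y ((hmem y).1 hy).1
      ((hmem y).1 hy).2 hyA).1)
    (fun y hy hyA => (local_claim π b l L hl hT1 Y Z T φ hYZ hφ y ((hmem y).1 hy).1
      ((hmem y).1 hy).2 hyA).2)
    hO1 hO2 z ((hmem z).2 ⟨hz, hm⟩) hcon
  have : 4 * K1 * K2 * (moved Y φ).card ≤ 4 * K1 * K2 * L := Nat.mul_le_mul_left _ hcard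
  omega

theorem chain (π : Equiv.Perm (Fin n)) (b l L w K1 K2 X m1 v0 vmax ρ m0 B : ℕ)
    (hl : 1 ≤ l) (hb : 1 ≤ b) (hw : b * w ≤ l) (hT1 : T1 π L) (hO1 : O1 π l K1) (hO2 : O2 π l K2)
    (hF1 : (F2 π l (L * b)).card ≤ X) (hF2 : (F2 π (L * b) l).card ≤ X)
    (hnum : 4 * K1 * K2 * L < w * (w * w - 4 * K1 * (2 * l + 1)))
    (hB : 81 * (4 * n + 2 * (b * X)) ≤ b * B)
    (hT4 : T4 π m1 vmax) (hT6 : T6 π ρ m0)
    (hv : v0 + B ≤ vmax) (hρ : m1 + 2 * B ≤ ρ) (hm : m0 ≤ v0)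
    {Z : Finset (Fin n)} (hR : Reach π Z) : (univ \ Z).card ≤ m1 ∨ Z.card ≤ m0 := by
  induction hR with
  | base => left; simp
  | step Z Z' hRZ hcov ih =>
    have hsub : Z' ⊆ Z := hcov.1.1
    rcases ih with ih | ih
    · have hAt : (At2 π b l (L * b) Z').card ≤ B := by
        have h1 := card_At2 π b l (L * b) X hl Z' hF1 hF2
        exact Nat.le_of_mul_le_mul_left (h1.trans hB) (by omega)
      have hjump : ∀ δ : Equiv.Perm (Fin n), δ = 1 ∨ δ = π →
          (starts δ (univ \ Z')).card ≤ ρ := by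
        intro δ hδ
        have h1 := jump_starts δ hδ (A := At2 π b l (L * b) Z') hcov
          (fun T φ hφ z hz hmz => mobility π b l L w K1 K2 hl hw hT1 hO1 hO2 hnum Z' Z' T φ
            (Subset.refl _) hφ z hz hmz)
        omega
      rcases hT6 (univ \ Z') (hjump 1 (Or.inl rfl)) (hjump π (Or.inr rfl)) with h6 | h6
      · left
        refine small (A := At2 π b l (L * b) Z') (vmax := vmax) ?_ (Reach.step Z Z' hRZ hcov)
          hT4 (by omega)
        intro Z1 T φ hZ1 hφ z hz hmz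
        exact mobility π b l L w K1 K2 hl hw hT1 hO1 hO2 hnum Z' Z1 T φ hZ1 hφ z hz hmz
      · right
        have h7 : univ \ (univ \ Z') = Z' := by
          ext x
          simp
        rw [h7] at h6
        exact h6
    · right
      exact (card_le_card hsub).trans ih

end Pool.Agent.H67.AE
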