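import Pool.Agent.H67.AE.Defs

/-! A closed set has few starts. -/

set_option autoImplicit false

open Finset Classical

namespace Pool.Agent.H67.AE

variable {n : ℕ}

/-- starts of a set of naturals -/
private noncomputable def ClosedCount_S (A : Finset ℕ) : Finset ℕ :=
  A.filter (fun a => ∀ r ∈ A, r + 1 ≠ a)

/-- elements of the runs with exactly two elements -/
private noncomputable def ClosedCount_P (A : Finset ℕ) : Finset ℕ :=
  A.filter (fun a => (a ∈ ClosedCount_S A ∧ a + 2 ∉ A) ∨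
    ∃ s ∈ ClosedCount_S A, s + 1 = a ∧ a + 1 ∉ A)

private theorem ClosedCount_nat (A : Finset ℕ)
    (hA : ∀ a ∈ A, a + 1 ∈ A ∨ ∃ b ∈ A, b + 1 = a) :
    6 * (ClosedCount_S A).card ≤ 2 * A.card + (ClosedCount_P A).card := by
  set S := ClosedCount_S A with hS
  have hSA : ∀ s ∈ S, s ∈ A := fun s hs => (mem_filter.1 hs).1
  have hSs : ∀ s ∈ S, ∀ r ∈ A, r + 1 ≠ s := fun s hs => (mem_filter.1 hs).2
  have hS1 : ∀ s ∈ S, s + 1 ∈ A := by
    intro s hs
    rcases hA s (hSA s hs) with h | ⟨b, hb, h⟩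
    · exact h
    · exact absurd h (hSs s hs b hb)
  have c1 : (S.image (· + 1)).card = S.card := card_image_of_injective _ (fun a b h => by
    simpa using h)
  have c2 : ((S.filter (fun s => s + 2 ∈ A)).image (· + 2)).card =
      (S.filter (fun s => s + 2 ∈ A)).card := card_image_of_injective _ (fun a b h => by
    simpa using h)
  have c3 : ((S.filter (fun s => s + 2 ∉ A)).image (· + 1)).card =
      (S.filter (fun s => s + 2 ∉ A)).card := card_image_of_injective _ (fun a b h => by
    simpa using h)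
  have c4 : (S.filter (fun s => s + 2 ∈ A)).card + (S.filter (fun s => s + 2 ∉ A)).card =
      S.card := card_filter_add_card_filter_not _
  have h1 : (S ∪ S.image (· + 1) ∪ (S.filter (fun s => s + 2 ∈ A)).image (· + 2)).card ≤
      A.card := by
    apply card_le_card
    intro x hx
    rw [mem_union, mem_union, mem_image, mem_image] at hx
    rcases hx with (hx | ⟨y, hy, rfl⟩) | ⟨y, hy, rfl⟩
    · exact hSA x hx
    · exact hS1 y hy
    · exact (mem_filter.1 hy).2
  have d1 : Disjoint S (S.image (· + 1)) := by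
    rw [disjoint_left]
    intro x hx hx'
    obtain ⟨y, hy, rfl⟩ := mem_image.1 hx'
    exact hSs _ hx y (hSA y hy) rfl
  have d2 : Disjoint (S ∪ S.image (· + 1))
      ((S.filter (fun s => s + 2 ∈ A)).image (· + 2)) := by
    rw [disjoint_left]
    intro x hx hx'
    obtain ⟨y, hy, rfl⟩ := mem_image.1 hx'
    have hyS := (mem_filter.1 hy).1
    rw [mem_union, mem_image] at hx
    rcases hx with hx | ⟨z, hz, hzy⟩
    · exact hSs _ hx (y + 1) (hS1 y hyS) rfl
    · have : y + 1 = z := by simp at hzy; omega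
      exact hSs _ hz y (hSA y hyS) this
  rw [card_union_of_disjoint d2, card_union_of_disjoint d1, c1, c2] at h1
  have h2 : (S.filter (fun s => s + 2 ∉ A) ∪ (S.filter (fun s => s + 2 ∉ A)).image (· + 1)).card ≤
      (ClosedCount_P A).card := by
    apply card_le_card
    intro x hx
    rw [mem_union, mem_image] at hx
    rcases hx with hx | ⟨y, hy, rfl⟩
    · obtain ⟨h3, h4⟩ := mem_filter.1 hx
      exact mem_filter.2 ⟨hSA x h3, Or.inl ⟨h3, h4⟩⟩
    · obtain ⟨h3, h4⟩ := mem_filter.1 hy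
      exact mem_filter.2 ⟨hS1 y h3, Or.inr ⟨y, h3, rfl, h4⟩⟩
  have d3 : Disjoint (S.filter (fun s => s + 2 ∉ A))
      ((S.filter (fun s => s + 2 ∉ A)).image (· + 1)) :=
    disjoint_of_subset_left (filter_subset _ _)
      (disjoint_of_subset_right (image_subset_image (filter_subset _ _)) d1)
  rw [card_union_of_disjoint d3, c3] at h2
  omega

private theorem ClosedCount_adj (A : Finset ℕ) (a b : ℕ) (ha : a ∈ ClosedCount_P A)
    (hb : b ∈ A) (hab : b ≠ a) (h : ∀ c, (a < c ∧ c < b) ∨ (b < c ∧ c < a) → c ∈ A) :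
    a ≤ b + 1 ∧ b ≤ a + 1 := by
  obtain ⟨haA, h1 | ⟨s, hs, hsa, h2⟩⟩ := mem_filter.1 ha
  · obtain ⟨hs, h2⟩ := h1
    have hss := (mem_filter.1 hs).2
    by_contra hcon
    rcases lt_or_gt_of_ne hab with h3 | h3
    · rcases Nat.lt_or_ge (b + 1) a with h4 | h4
      · exact hss (a - 1) (h (a - 1) (Or.inr ⟨by omega, by omega⟩)) (by omega)
      · exact hss b hb (by omega)
    · rcases Nat.lt_or_ge (a + 2) b with h4 | h4
      · exact h2 (h (a + 2) (Or.inl ⟨by omega, h4⟩))
      · have : b = a + 2 := by omega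
        rw [this] at hb
        exact h2 hb
  · have hss := (mem_filter.1 hs).2
    have hsA := (mem_filter.1 hs).1
    by_contra hcon
    rcases lt_or_gt_of_ne hab with h3 | h3
    · rcases Nat.lt_or_ge (b + 1) s with h4 | h4
      · exact hss (s - 1) (h (s - 1) (Or.inr ⟨by omega, by omega⟩)) (by omega)
      · exact hss b hb (by omega)
    · rcases Nat.lt_or_ge (a + 1) b with h4 | h4
      · exact h2 (h (a + 1) (Or.inl ⟨by omega, h4⟩))
      · omega

private noncomputable def ClosedCount_A (δ : Equiv.Perm (Fin n)) (V : Finset (Fin n)) :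
    Finset ℕ := V.image (fun v => ((δ v : Fin n) : ℕ))

private theorem ClosedCount_inj (δ : Equiv.Perm (Fin n)) :
    Function.Injective (fun v : Fin n => ((δ v : Fin n) : ℕ)) :=
  fun _ _ h => δ.injective (Fin.ext h)

private noncomputable def ClosedCount_Q (δ : Equiv.Perm (Fin n)) (V : Finset (Fin n)) :
    Finset (Fin n) := V.filter (fun v => ((δ v : Fin n) : ℕ) ∈ ClosedCount_P (ClosedCount_A δ V))

private theorem ClosedCount_dir (δ : Equiv.Perm (Fin n)) (V : Finset (Fin n))
    (h : ∀ u ∈ V, ∃ u' ∈ V, u' ≠ u ∧ ∀ v, Btw (δ u) (δ v) (δ u') → v ∈ V) :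
    6 * (starts δ V).card ≤ 2 * V.card + (ClosedCount_Q δ V).card := by
  have hA : ∀ a ∈ ClosedCount_A δ V, a + 1 ∈ ClosedCount_A δ V ∨
      ∃ b ∈ ClosedCount_A δ V, b + 1 = a := by
    intro a ha
    obtain ⟨u, hu, rfl⟩ := mem_image.1 ha
    obtain ⟨u', hu', hne, hb⟩ := h u hu
    have hne' : ((δ u' : Fin n) : ℕ) ≠ ((δ u : Fin n) : ℕ) := fun e => hne (ClosedCount_inj δ e)
    have hmem : ∀ c : ℕ, (((δ u : Fin n) : ℕ) < c ∧ c < ((δ u' : Fin n) : ℕ)) ∨
        (((δ u' : Fin n) : ℕ) < c ∧ c < ((δ u : Fin n) : ℕ)) → c ∈ ClosedCount_A δ V := by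
      intro c hc
      have hcn : c < n := by
        rcases hc with hc | hc
        · exact lt_trans hc.2 (δ u').isLt
        · exact lt_trans hc.2 (δ u).isLt
      refine mem_image.2 ⟨δ.symm ⟨c, hcn⟩, hb _ ?_, by simp⟩
      rw [Equiv.apply_symm_apply]
      rcases hc with hc | hc
      · exact Or.inl ⟨hc.1, hc.2⟩
      · exact Or.inr ⟨hc.1, hc.2⟩
    have hu'A : ((δ u' : Fin n) : ℕ) ∈ ClosedCount_A δ V := mem_image.2 ⟨u', hu', rfl⟩
    rcases lt_or_gt_of_ne hne' with h3 | h3
    · right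
      rcases Nat.lt_or_ge (((δ u' : Fin n) : ℕ) + 1) ((δ u : Fin n) : ℕ) with h4 | h4
      · exact ⟨((δ u : Fin n) : ℕ) - 1, hmem _ (Or.inr ⟨by omega, by omega⟩), by omega⟩
      · exact ⟨_, hu'A, by omega⟩
    · left
      rcases Nat.lt_or_ge (((δ u : Fin n) : ℕ) + 1) ((δ u' : Fin n) : ℕ) with h4 | h4
      · exact hmem _ (Or.inl ⟨by omega, by omega⟩)
      · have : ((δ u : Fin n) : ℕ) + 1 = ((δ u' : Fin n) : ℕ) := by omega
        rw [this]
        exact hu'A
  have key := ClosedCount_nat (ClosedCount_A δ V) hA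
  have e1 : (ClosedCount_A δ V).card = V.card := card_image_of_injective _ (ClosedCount_inj δ)
  have e2 : (ClosedCount_S (ClosedCount_A δ V)) =
      (starts δ V).image (fun v => ((δ v : Fin n) : ℕ)) := by
    ext a
    simp only [ClosedCount_S, ClosedCount_A, starts, mem_filter, mem_image]
    constructor
    · rintro ⟨⟨v, hv, rfl⟩, h2⟩
      exact ⟨v, ⟨hv, fun r hr => h2 _ ⟨r, hr, rfl⟩⟩, rfl⟩
    · rintro ⟨v, ⟨hv, h2⟩, rfl⟩
      refine ⟨⟨v, hv, rfl⟩, ?_⟩
      rintro r ⟨w, hw, rfl⟩
      exact h2 w hw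
  have e3 : (ClosedCount_P (ClosedCount_A δ V)).card = (ClosedCount_Q δ V).card := by
    have : ClosedCount_P (ClosedCount_A δ V) =
        (ClosedCount_Q δ V).image (fun v => ((δ v : Fin n) : ℕ)) := by
      ext a
      simp only [ClosedCount_Q, mem_image, mem_filter]
      constructor
      · intro ha
        obtain ⟨v, hv, rfl⟩ := mem_image.1 (mem_filter.1 ha).1
        exact ⟨v, ⟨hv, ha⟩, rfl⟩
      · rintro ⟨v, ⟨_, h2⟩, rfl⟩
        exact h2
    rw [this, card_image_of_injective _ (ClosedCount_inj δ)]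
  rw [e1, e2, e3, card_image_of_injective _ (ClosedCount_inj δ)] at key
  exact key

private theorem ClosedCount_near (δ : Equiv.Perm (Fin n)) (V : Finset (Fin n)) (u u' : Fin n)
    (hu : u ∈ ClosedCount_Q δ V) (hu' : u' ∈ V) (hne : u' ≠ u)
    (hb : ∀ v, Btw (δ u) (δ v) (δ u') → v ∈ V) : Near 1 (δ u) (δ u') := by
  have h1 := (mem_filter.1 hu).2
  have := ClosedCount_adj (ClosedCount_A δ V) ((δ u : Fin n) : ℕ) ((δ u' : Fin n) : ℕ) h1
    (mem_image.2 ⟨u', hu', rfl⟩) (fun e => hne (ClosedCount_inj δ e)) (by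
      intro c hc
      have hcn : c < n := by
        rcases hc with hc | hc
        · exact lt_trans hc.2 (δ u').isLt
        · exact lt_trans hc.2 (δ u).isLt
      refine mem_image.2 ⟨δ.symm ⟨c, hcn⟩, hb _ ?_, by simp⟩
      rw [Equiv.apply_symm_apply]
      rcases hc with hc | hc
      · exact Or.inl ⟨hc.1, hc.2⟩
      · exact Or.inr ⟨hc.1, hc.2⟩)
  exact this

/-- Every interval of a closed set (in position and in value) has at least two elements, and an
element that lies in an interval with exactly two elements in both directions is in `F2 π 1 1`.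
With `R2`, `R3` the numbers of intervals with exactly two resp. at least three elements and `P2`
the set of elements in intervals with exactly two elements:
`2 R2 + 3 R3 ≤ v`, `2 R2 ≤ #P2`, so `6 R ≤ 2 v + #P2`; the same for values; and
`#P2 + #Q2 ≤ v + #(P2 ∩ Q2)`. -/
theorem closed_starts (π : Equiv.Perm (Fin n)) (V : Finset (Fin n)) (hV : Closed π V) :
    6 * ((starts 1 V).card + (starts π V).card) ≤ 5 * V.card + (F2 π 1 1).card := by
  have h1 := ClosedCount_dir (1 : Equiv.Perm (Fin n)) V (by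
    intro u hu
    obtain ⟨u', hu', hne, hp, _⟩ := hV u hu
    exact ⟨u', hu', hne, hp⟩)
  have h2 := ClosedCount_dir π V (by
    intro u hu
    obtain ⟨u', hu', hne, _, hv⟩ := hV u hu
    exact ⟨u', hu', hne, hv⟩)
  have h3 : (ClosedCount_Q (1 : Equiv.Perm (Fin n)) V ∪ ClosedCount_Q π V).card ≤ V.card :=
    card_le_card (union_subset (filter_subset _ _) (filter_subset _ _))
  have h4 : (ClosedCount_Q (1 : Equiv.Perm (Fin n)) V ∩ ClosedCount_Q π V).card ≤
      (F2 π 1 1).card := by
    apply card_le_card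
    intro u hu
    rw [mem_inter] at hu
    have huV : u ∈ V := (mem_filter.1 hu.1).1
    obtain ⟨u', hu', hne, hp, hv⟩ := hV u huV
    refine mem_filter.2 ⟨mem_univ _, u', hne, ?_, ?_⟩
    · exact ClosedCount_near (1 : Equiv.Perm (Fin n)) V u u' hu.1 hu' hne hp
    · exact ClosedCount_near π V u u' hu.2 hu' hne hv
  have h5 := card_union_add_card_inter (ClosedCount_Q (1 : Equiv.Perm (Fin n)) V)
    (ClosedCount_Q π V)
  omega

end Pool.Agent.H67.AE
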