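import Pool.Agent.H67.AE.Defs

/-! Counting permutations. -/

set_option autoImplicit false

open Finset Classical

namespace Pool.Agent.H67.AE

variable {n : ℕ}

private theorem card_fixing (W : Finset (Fin n)) :
    (univ.filter (fun π : Equiv.Perm (Fin n) => ∀ w ∈ W, π w = w)).card =
      (n - W.card).factorial := by
  have h1 := Fintype.card_congr (Equiv.Perm.subtypeEquivSubtypePerm (fun x : Fin n => x ∉ W))
  rw [Fintype.card_perm, Fintype.card_subtype_compl, Fintype.card_fin, Fintype.card_coe] at h1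
  rw [h1, Fintype.card_subtype]
  congr 1
  ext π
  simp only [mem_filter, mem_univ, true_and, not_not]

theorem card_fix (W : Finset (Fin n)) (f : Fin n → Fin n) :
    (univ.filter (fun π : Equiv.Perm (Fin n) => ∀ w ∈ W, π w = f w)).card ≤
      (n - W.card).factorial := by
  rcases (univ.filter (fun π : Equiv.Perm (Fin n) => ∀ w ∈ W, π w = f w)).eq_empty_or_nonempty with
    h | ⟨π0, h0⟩
  · rw [h, card_empty]
    exact Nat.zero_le _
  · rw [mem_filter] at h0
    rw [← card_fixing W]
    refine card_le_card_of_injOn (fun π => π0⁻¹ * π) ?_ ?_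
    · intro π hπ
      rw [mem_coe, mem_filter] at hπ ⊢
      refine ⟨mem_univ _, fun w hw => ?_⟩
      rw [Equiv.Perm.mul_apply, hπ.2 w hw, ← h0.2 w hw]
      exact π0.symm_apply_apply w
    · intro π _ π' _ h
      exact mul_left_cancel h

theorem card_family (W : Finset (Fin n)) (F : Finset (Fin n → Fin n)) :
    (univ.filter (fun π : Equiv.Perm (Fin n) => ∃ f ∈ F, ∀ w ∈ W, π w = f w)).card ≤
      F.card * (n - W.card).factorial := by
  have h1 : univ.filter (fun π : Equiv.Perm (Fin n) => ∃ f ∈ F, ∀ w ∈ W, π w = f w) ⊆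
      F.biUnion (fun f => univ.filter (fun π : Equiv.Perm (Fin n) => ∀ w ∈ W, π w = f w)) := by
    intro π hπ
    rw [mem_filter] at hπ
    obtain ⟨f, hf, h⟩ := hπ.2
    rw [mem_biUnion]
    exact ⟨f, hf, mem_filter.2 ⟨mem_univ _, h⟩⟩
  exact (card_le_card h1).trans (card_biUnion_le_card_mul _ _ _ fun f _ => card_fix W f)

theorem card_image (V Q : Finset (Fin n)) :
    (univ.filter (fun π : Equiv.Perm (Fin n) => V.image π = Q)).card ≤
      V.card.factorial * (n - V.card).factorial := by
  rcases (univ.filter (fun π : Equiv.Perm (Fin n) => V.image π = Q)).eq_empty_or_nonempty with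
    h | ⟨π0, h0⟩
  · rw [h, card_empty]
    exact Nat.zero_le _
  · rw [mem_filter] at h0
    set F : Finset (Fin n → Fin n) := univ.image
      (fun σ : Equiv.Perm {x // x ∈ V} => fun x => π0 (Equiv.Perm.ofSubtype σ x)) with hF
    have hFc : F.card ≤ V.card.factorial := by
      refine card_image_le.trans ?_
      rw [card_univ, Fintype.card_perm, Fintype.card_coe]
    refine (card_le_card ?_).trans ((card_family V F).trans (Nat.mul_le_mul_right _ hFc))
    intro π hπ
    rw [mem_filter] at hπ ⊢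
    refine ⟨mem_univ _, ?_⟩
    have hV : ∀ x, x ∈ V ↔ (π0⁻¹ * π) x ∈ V := by
      intro x
      have h1 : π x ∈ V.image π ↔ x ∈ V := by
        rw [mem_image]
        exact ⟨fun ⟨y, hy, h⟩ => π.injective h ▸ hy, fun h => ⟨x, h, rfl⟩⟩
      have h2 : π0 ((π0⁻¹ * π) x) ∈ V.image π0 ↔ (π0⁻¹ * π) x ∈ V := by
        rw [mem_image]
        exact ⟨fun ⟨y, hy, h⟩ => π0.injective h ▸ hy, fun h => ⟨_, h, rfl⟩⟩
      have h3 : π0 ((π0⁻¹ * π) x) = π x := π0.apply_symm_apply (π x)
      rw [← h1, ← h2, hπ.2, h0.2, h3]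
    refine ⟨fun x => π0 (Equiv.Perm.ofSubtype
      ((π0⁻¹ * π).subtypePerm (p := fun x => x ∈ V) (fun x => (hV x).symm)) x), ?_, fun w hw => ?_⟩
    · rw [hF, mem_image]
      exact ⟨_, mem_univ _, rfl⟩
    · show π w = π0 (Equiv.Perm.ofSubtype _ w)
      rw [Equiv.Perm.ofSubtype_apply_of_mem _ hw]
      exact (π0.apply_symm_apply (π w)).symm

theorem fact_ratio (m : ℕ) (hm : 2 * m ≤ n) :
    (n - m).factorial * n ^ m ≤ 2 ^ m * n.factorial := by
  have h1 : n ^ m ≤ 2 ^ m * n.descFactorial m := by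
    refine le_trans ?_ (Nat.mul_le_mul_left _ (Nat.pow_sub_le_descFactorial n m))
    rw [← mul_pow]
    refine Nat.pow_le_pow_left ?_ m
    omega
  have h2 := Nat.factorial_mul_descFactorial (n := n) (k := m) (by omega)
  calc (n - m).factorial * n ^ m ≤ (n - m).factorial * (2 ^ m * n.descFactorial m) :=
        Nat.mul_le_mul_left _ h1
    _ = 2 ^ m * ((n - m).factorial * n.descFactorial m) := by ring
    _ = 2 ^ m * n.factorial := by rw [h2]

private theorem rank_inj (Q : Finset (Fin n)) (x y : Fin n) (hx : x ∈ Q) (hy : y ∈ Q)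
    (h : (Q.filter (fun z => z < x)).card = (Q.filter (fun z => z < y)).card) : x = y := by
  have key : ∀ x y : Fin n, x ∈ Q → x < y →
      (Q.filter (fun z => z < x)).card < (Q.filter (fun z => z < y)).card := by
    intro x y hx hxy
    refine card_lt_card ⟨fun z hz => ?_, fun hsub => ?_⟩
    · rw [mem_filter] at hz ⊢
      exact ⟨hz.1, hz.2.trans hxy⟩
    · have h1 := hsub (mem_filter.2 ⟨hx, hxy⟩)
      exact lt_irrefl _ (mem_filter.1 h1).2
  rcases lt_trichotomy x y with h1 | h1 | h1
  · have := key x y hx h1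
    omega
  · exact h1
  · have := key y x hy h1
    omega

/-- for disjoint `A`, `B` of size `h` the permutations with the same pattern on `A` and `B` are at
most `n! / h!` -/
theorem card_same_pattern (A B : Finset (Fin n)) (φ : Fin n → Fin n) (hd : Disjoint A B)
    (hmap : ∀ a ∈ A, φ a ∈ B) (hsurj : ∀ b ∈ B, ∃ a ∈ A, φ a = b)
    (hcard : A.card = B.card) :
    (univ.filter (fun π : Equiv.Perm (Fin n) =>
      ∀ a ∈ A, ∀ b ∈ A, π a < π b → π (φ a) < π (φ b))).card * A.card.factorial ≤
      n.factorial := by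
  set P := univ.filter (fun π : Equiv.Perm (Fin n) =>
      ∀ a ∈ A, ∀ b ∈ A, π a < π b → π (φ a) < π (φ b)) with hP
  have hiff : ∀ π ∈ P, ∀ a ∈ A, ∀ b ∈ A, (π a < π b ↔ π (φ a) < π (φ b)) := by
    intro π hπ a ha b hb
    rw [hP, mem_filter] at hπ
    refine ⟨hπ.2 a ha b hb, fun h => ?_⟩
    rcases lt_trichotomy (π a) (π b) with h1 | h1 | h1
    · exact h1
    · rw [π.injective h1] at h
      exact absurd h (lt_irrefl _)
    · exact absurd (h.trans (hπ.2 b hb a ha h1)) (lt_irrefl _)
  have h1 : (P ×ˢ (univ : Finset (Equiv.Perm {x // x ∈ A}))).card ≤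
      (univ : Finset (Equiv.Perm (Fin n))).card := by
    refine card_le_card_of_injOn (fun p => p.1 * Equiv.Perm.ofSubtype p.2)
      (fun _ _ => mem_univ _) ?_
    rintro ⟨π, τ⟩ hp ⟨π', τ'⟩ hp' h
    rw [mem_coe, mem_product] at hp hp'
    simp only at h hp hp'
    have hout : ∀ x, x ∉ A → π x = π' x := by
      intro x hx
      have h2 := congrArg (fun σ : Equiv.Perm (Fin n) => σ x) h
      simpa [Equiv.Perm.ofSubtype_apply_of_not_mem _ hx] using h2
    have himg : ∀ (ρ : Equiv.Perm (Fin n)) (τ : Equiv.Perm {x // x ∈ A}),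
        A.image ρ = A.image (ρ * Equiv.Perm.ofSubtype τ) := by
      intro ρ τ
      ext y
      rw [mem_image, mem_image]
      constructor
      · rintro ⟨a, ha, rfl⟩
        refine ⟨((τ⁻¹ ⟨a, ha⟩ : {x // x ∈ A}) : Fin n), (τ⁻¹ ⟨a, ha⟩).2, ?_⟩
        rw [Equiv.Perm.mul_apply, Equiv.Perm.ofSubtype_apply_coe]
        exact congrArg (fun z : {x // x ∈ A} => ρ (z : Fin n)) (τ.apply_symm_apply ⟨a, ha⟩)
      · rintro ⟨a, ha, rfl⟩
        refine ⟨((τ ⟨a, ha⟩ : {x // x ∈ A}) : Fin n), (τ ⟨a, ha⟩).2, ?_⟩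
        rw [Equiv.Perm.mul_apply, Equiv.Perm.ofSubtype_apply_of_mem _ ha]
    have hQ : A.image π = A.image π' := by
      rw [himg π τ, himg π' τ', h]
    have hrank : ∀ (ρ : Equiv.Perm (Fin n)) (a : Fin n),
        ((A.image ρ).filter (fun z => z < ρ a)).card = (A.filter (fun b => ρ b < ρ a)).card := by
      intro ρ a
      rw [filter_image, card_image_of_injective _ ρ.injective]
    have hin : ∀ a ∈ A, π a = π' a := by
      intro a ha
      refine rank_inj (A.image π) _ _ (mem_image_of_mem _ ha)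
        (by rw [hQ]; exact mem_image_of_mem _ ha) ?_
      rw [hrank π a]
      rw [hQ, hrank π' a]
      congr 1
      refine filter_congr fun b hb => ?_
      have hB : ∀ c ∈ A, φ c ∉ A := fun c hc hc' =>
        (disjoint_left.1 hd hc') (hmap c hc)
      rw [hiff π hp.1 b hb a ha, hiff π' hp'.1 b hb a ha, hout _ (hB b hb), hout _ (hB a ha)]
    have hππ : π = π' := by
      ext x
      by_cases hx : x ∈ A
      · rw [hin x hx]
      · rw [hout x hx]
    have hττ : τ = τ' := by
      rw [hππ] at h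
      exact Equiv.Perm.ofSubtype_injective (mul_left_cancel h)
    rw [hππ, hττ]
  rw [card_product, card_univ, card_univ, Fintype.card_perm, Fintype.card_perm, Fintype.card_coe,
    Fintype.card_fin] at h1
  exact h1

end Pool.Agent.H67.AE
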