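import Pool.Agent.H67.AE.Defs

/-! One dimensional covering lemma and the size of the exceptional sets. -/

set_option autoImplicit false

open Finset Classical

namespace Pool.Agent.H67.AE

variable {n : ℕ}

private theorem cover_aux (δ : Equiv.Perm (Fin n)) (B : Finset (Fin n)) (w1 w2 : Fin n → ℕ) (c : ℕ)
    (hB : ∀ z ∈ B, c ≤ w1 z)
    (h : ∀ z ∈ B, ∃ k : ℕ, 1 ≤ k ∧ ((δ z : Fin n) : ℕ) + k ≤ n ∧
      ∑ v ∈ win δ k univ z, w1 v ≤ ∑ v ∈ win δ k univ z, w2 v) :
    ∀ m p : ℕ, n - p ≤ m →
      c * (B.filter (fun v => p ≤ ((δ v : Fin n) : ℕ))).card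
        ≤ ∑ v ∈ univ.filter (fun v => p ≤ ((δ v : Fin n) : ℕ)), w2 v := by
  intro m
  induction m with
  | zero =>
    intro p hp
    have h0 : B.filter (fun v => p ≤ ((δ v : Fin n) : ℕ)) = ∅ := by
      apply Finset.filter_eq_empty_iff.2
      intro v _ hv
      have := (δ v).isLt
      omega
    rw [h0]
    simp
  | succ m ih =>
    intro p hp
    by_cases hpn : n ≤ p
    · have h0 : B.filter (fun v => p ≤ ((δ v : Fin n) : ℕ)) = ∅ := by
        apply Finset.filter_eq_empty_iff.2
        intro v _ hv
        have := (δ v).isLt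
        omega
      rw [h0]
      simp
    · have hpn' : p < n := not_le.1 hpn
      obtain ⟨z, hz⟩ : ∃ z, δ z = ⟨p, hpn'⟩ := ⟨δ.symm ⟨p, hpn'⟩, by simp⟩
      have hzp : ((δ z : Fin n) : ℕ) = p := by rw [hz]
      by_cases hzB : z ∈ B
      · obtain ⟨k, hk1, hk2, hk3⟩ := h z hzB
        have ihk := ih (p + k) (by omega)
        have hsplitB : (B.filter (fun v => p ≤ ((δ v : Fin n) : ℕ))).card
            ≤ (win δ k B z).card + (B.filter (fun v => p + k ≤ ((δ v : Fin n) : ℕ))).card := by
          rw [← Finset.card_union_of_disjoint]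
          · apply Finset.card_le_card
            intro v hv
            simp only [win, mem_union, mem_filter] at hv ⊢
            rcases Nat.lt_or_ge ((δ v : Fin n) : ℕ) (p + k) with h1 | h1
            · left
              exact ⟨hv.1, by omega, by omega⟩
            · right
              exact ⟨hv.1, h1⟩
          · rw [Finset.disjoint_left]
            intro v hv hv'
            simp only [win, mem_filter] at hv hv'
            omega
        have hsplitW : ∑ v ∈ univ.filter (fun v => p ≤ ((δ v : Fin n) : ℕ)), w2 v
            = ∑ v ∈ win δ k univ z, w2 v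
              + ∑ v ∈ univ.filter (fun v => p + k ≤ ((δ v : Fin n) : ℕ)), w2 v := by
          rw [← Finset.sum_union]
          · apply Finset.sum_congr _ (fun _ _ => rfl)
            ext v
            simp only [win, mem_union, mem_filter, mem_univ, true_and]
            omega
          · rw [Finset.disjoint_left]
            intro v hv hv'
            simp only [win, mem_filter] at hv hv'
            omega
        have h1 : c * (win δ k B z).card ≤ ∑ v ∈ win δ k univ z, w1 v := by
          calc c * (win δ k B z).card = ∑ _v ∈ win δ k B z, c := by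
                rw [Finset.sum_const, smul_eq_mul, mul_comm]
            _ ≤ ∑ v ∈ win δ k B z, w1 v := by
                apply Finset.sum_le_sum
                intro v hv
                apply hB
                simp only [win, mem_filter] at hv
                exact hv.1
            _ ≤ ∑ v ∈ win δ k univ z, w1 v := by
                apply Finset.sum_le_sum_of_subset
                intro v hv
                simp only [win, mem_filter, mem_univ, true_and] at hv ⊢
                exact hv.2
        rw [hsplitW]
        calc c * (B.filter (fun v => p ≤ ((δ v : Fin n) : ℕ))).card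
            ≤ c * ((win δ k B z).card + (B.filter (fun v => p + k ≤ ((δ v : Fin n) : ℕ))).card) :=
              Nat.mul_le_mul_left _ hsplitB
          _ = c * (win δ k B z).card
              + c * (B.filter (fun v => p + k ≤ ((δ v : Fin n) : ℕ))).card := by ring
          _ ≤ _ := Nat.add_le_add (h1.trans hk3) ihk
      · have ih1 := ih (p + 1) (by omega)
        have hB' : B.filter (fun v => p ≤ ((δ v : Fin n) : ℕ))
            = B.filter (fun v => p + 1 ≤ ((δ v : Fin n) : ℕ)) := by
          apply Finset.filter_congr
          intro v hv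
          constructor
          · intro h1
            rcases Nat.lt_or_ge p ((δ v : Fin n) : ℕ) with h2 | h2
            · exact h2
            · exfalso
              apply hzB
              have : δ v = δ z := Fin.ext (by omega)
              have : v = z := δ.injective this
              rwa [← this]
          · intro h1
            omega
        rw [hB']
        refine ih1.trans ?_
        apply Finset.sum_le_sum_of_subset
        intro v hv
        simp only [mem_filter, mem_univ, true_and] at hv ⊢
        omega

/-- Covering lemma. Proof: transport by `δ`, then downward induction on `p`: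
`c * #{z ∈ B : p ≤ δ z} ≤ ∑ v with p ≤ δ v, w2 v`. If `p` is the image of a `z ∈ B` use the window
`[p, p + k)` and the induction hypothesis at `p + k`; otherwise use `p + 1`. -/
theorem cover (δ : Equiv.Perm (Fin n)) (B : Finset (Fin n)) (w1 w2 : Fin n → ℕ) (c : ℕ)
    (hB : ∀ z ∈ B, c ≤ w1 z)
    (h : ∀ z ∈ B, ∃ k : ℕ, 1 ≤ k ∧ ((δ z : Fin n) : ℕ) + k ≤ n ∧
      ∑ v ∈ win δ k univ z, w1 v ≤ ∑ v ∈ win δ k univ z, w2 v) :
    c * B.card ≤ ∑ v, w2 v := by
  have := cover_aux δ B w1 w2 c hB h n 0 (by omega)
  simpa using this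

private theorem card_win (k : ℕ) (δ : Equiv.Perm (Fin n)) (z : Fin n)
    (hk : ((δ z : Fin n) : ℕ) + k ≤ n) : k ≤ (win δ k univ z).card := by
  have h := Finset.card_le_card_of_injOn (s := (univ : Finset (Fin k))) (t := win δ k univ z)
    (fun i => δ.symm ⟨((δ z : Fin n) : ℕ) + i, by have := i.isLt; omega⟩)
    (by
      intro i _
      simp only [win, coe_filter, mem_univ, true_and, Set.mem_ofPred_eq, Equiv.apply_symm_apply]
      have := i.isLt
      omega)
    (by
      intro i _ j _ hij
      have h1 := δ.symm.injective hij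
      have h2 := congrArg Fin.val h1
      simp only at h2
      exact Fin.ext (by omega))
  simpa using h

private theorem sum_win (k : ℕ) (δ : Equiv.Perm (Fin n)) (z : Fin n) (Y : Finset (Fin n)) (b : ℕ) :
    ∑ v ∈ win δ k univ z, (if v ∈ Y then b else 0) = b * (win δ k Y z).card := by
  rw [← Finset.sum_filter, Finset.sum_const, smul_eq_mul, mul_comm]
  congr 2
  ext v
  simp only [win, mem_filter, mem_univ, true_and]
  tauto

/-- use `cover` with `w1 = b` on `Y` and `0` outside, `w2 = 1`, `c = b` -/
theorem card_Sp (b : ℕ) (δ : Equiv.Perm (Fin n)) (Y : Finset (Fin n)) :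
    b * (Sp b δ Y).card ≤ n := by
  have h := cover δ (Sp b δ Y) (fun v => if v ∈ Y then b else 0) (fun _ => 1) b
    (by
      intro z hz
      have hz' : z ∈ Y := (mem_filter.1 hz).1
      simp [hz'])
    (by
      intro z hz
      obtain ⟨k, hk1, hk2, hk3⟩ := (mem_filter.1 hz).2
      refine ⟨k, hk1, hk2, ?_⟩
      rw [sum_win, Finset.sum_const, smul_eq_mul, mul_one]
      exact hk3.trans (card_win k δ z hk2))
  simpa using h

/-- use `cover` with `w1 = 1` on `Y`, `w2 = 2` on `A`, `c = 1`, `k = l` -/
theorem card_heavy (l : ℕ) (hl : 1 ≤ l) (δ : Equiv.Perm (Fin n)) (Y A : Finset (Fin n)) :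
    (heavy l δ Y A).card ≤ 2 * A.card := by
  have h := cover δ (heavy l δ Y A) (fun v => if v ∈ Y then 1 else 0)
    (fun v => if v ∈ A then 2 else 0) 1
    (by
      intro z hz
      have hz' : z ∈ Y := (mem_filter.1 hz).1
      simp [hz'])
    (by
      intro z hz
      obtain ⟨h1, h2⟩ := (mem_filter.1 hz).2
      refine ⟨l, hl, h1, ?_⟩
      rw [sum_win, sum_win, one_mul]
      exact h2)
  rw [one_mul] at h
  refine h.trans ?_
  rw [← Finset.sum_filter, Finset.sum_const, smul_eq_mul, mul_comm]
  simp

theorem card_nxt (π : Equiv.Perm (Fin n)) (l : ℕ) (hl : 1 ≤ l) (Y A : Finset (Fin n)) :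
    (nxt π l Y A).card ≤ 9 * A.card := by
  unfold nxt
  refine (Finset.card_union_le _ _).trans ?_
  have h1 : (univ.biUnion (fun i : Fin 4 => heavy l (dir π i) Y A)).card
      ≤ ∑ i : Fin 4, (heavy l (dir π i) Y A).card := Finset.card_biUnion_le
  have h2 : ∑ i : Fin 4, (heavy l (dir π i) Y A).card ≤ ∑ _i : Fin 4, 2 * A.card :=
    Finset.sum_le_sum (fun i _ => card_heavy l hl (dir π i) Y A)
  simp only [Finset.sum_const, Finset.card_univ, Fintype.card_fin, smul_eq_mul] at h2
  omega

theorem card_At2 (π : Equiv.Perm (Fin n)) (b l t X : ℕ) (hl : 1 ≤ l) (Y : Finset (Fin n))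
    (h1 : (F2 π l t).card ≤ X) (h2 : (F2 π t l).card ≤ X) :
    b * (At2 π b l t Y).card ≤ 81 * (4 * n + 2 * (b * X)) := by
  have h3 : (At2 π b l t Y).card ≤ 81 * (At0 π b l t Y).card := by
    unfold At2
    have e1 := card_nxt π l hl Y (nxt π l Y (At0 π b l t Y))
    have e2 := card_nxt π l hl Y (At0 π b l t Y)
    omega
  have h4 : b * (At0 π b l t Y).card ≤ 4 * n + 2 * (b * X) := by
    have e0 : (At0 π b l t Y).card ≤ (∑ i : Fin 4, (Sp b (dir π i) Y).card) + X + X := by
      unfold At0
      refine (Finset.card_union_le _ _).trans ?_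
      refine Nat.add_le_add ((Finset.card_union_le _ _).trans (Nat.add_le_add ?_ ?_)) ?_
      · exact Finset.card_biUnion_le
      · exact (Finset.card_le_card Finset.inter_subset_left).trans h1
      · exact (Finset.card_le_card Finset.inter_subset_left).trans h2
    have e1 : b * (∑ i : Fin 4, (Sp b (dir π i) Y).card) ≤ 4 * n := by
      rw [Finset.mul_sum]
      have : ∑ i : Fin 4, b * (Sp b (dir π i) Y).card ≤ ∑ _i : Fin 4, n :=
        Finset.sum_le_sum (fun i _ => card_Sp b (dir π i) Y)
      simpa using this
    calc b * (At0 π b l t Y).card ≤ b * ((∑ i : Fin 4, (Sp b (dir π i) Y).card) + X + X) :=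
          Nat.mul_le_mul_left _ e0
      _ = b * (∑ i : Fin 4, (Sp b (dir π i) Y).card) + 2 * (b * X) := by ring
      _ ≤ _ := Nat.add_le_add_right e1 _
  calc b * (At2 π b l t Y).card ≤ b * (81 * (At0 π b l t Y).card) := Nat.mul_le_mul_left _ h3
    _ = 81 * (b * (At0 π b l t Y).card) := by ring
    _ ≤ _ := Nat.mul_le_mul_left _ h4

end Pool.Agent.H67.AE
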