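import Mathlib

/-!
MP_314710_co, almost all permutations: basic definitions.
Positions are elements of `Fin n`, `π : Equiv.Perm (Fin n)` gives the values.
-/

set_option autoImplicit false

open Finset Classical

namespace Pool.Agent.H67.AE

variable {n : ℕ}

/-- `φ` restricted to `S` is the isomorphism (for the order of positions and for the order of
values) from `S` onto `T`. -/
structure IsIso (π : Equiv.Perm (Fin n)) (S T : Finset (Fin n)) (φ : Fin n → Fin n) : Prop where
  maps : ∀ a ∈ S, φ a ∈ T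
  surj : ∀ b ∈ T, ∃ a ∈ S, φ a = b
  pos : ∀ a ∈ S, ∀ b ∈ S, a < b → φ a < φ b
  val : ∀ a ∈ S, ∀ b ∈ S, π a < π b → π (φ a) < π (φ b)

/-- the elements of `S` moved by `φ` -/
noncomputable def moved (S : Finset (Fin n)) (φ : Fin n → Fin n) : Finset (Fin n) :=
  S.filter (fun a => φ a ≠ a)

/-- distance at most `l` -/
def Near (l : ℕ) (u v : Fin n) : Prop := (u : ℕ) ≤ (v : ℕ) + l ∧ (v : ℕ) ≤ (u : ℕ) + l

/-- the part of `Y` in the window of length `l` that starts at `z`, in direction `δ` -/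
noncomputable def win (δ : Equiv.Perm (Fin n)) (l : ℕ) (Y : Finset (Fin n)) (z : Fin n) :
    Finset (Fin n) :=
  Y.filter (fun v => ((δ z : Fin n) : ℕ) ≤ ((δ v : Fin n) : ℕ) ∧
    ((δ v : Fin n) : ℕ) < ((δ z : Fin n) : ℕ) + l)

/-- the four directions: positions upwards, positions downwards, values upwards, values downwards -/
def dir (π : Equiv.Perm (Fin n)) : Fin 4 → Equiv.Perm (Fin n)
  | 0 => 1
  | 1 => Fin.revPerm
  | 2 => π
  | 3 => Fin.revPerm * π

/-- `z` starts a window in direction `δ` in which `Y` has density at most `1/b` -/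
noncomputable def Sp (b : ℕ) (δ : Equiv.Perm (Fin n)) (Y : Finset (Fin n)) : Finset (Fin n) :=
  Y.filter (fun z => ∃ k : ℕ, 1 ≤ k ∧ ((δ z : Fin n) : ℕ) + k ≤ n ∧ b * (win δ k Y z).card ≤ k)

/-- elements with another element within distance `s` in position and within `t` in value -/
noncomputable def F2 (π : Equiv.Perm (Fin n)) (s t : ℕ) : Finset (Fin n) :=
  univ.filter (fun u => ∃ v, v ≠ u ∧ Near s u v ∧ Near t (π u) (π v))

/-- exceptional elements of `Y` -/
noncomputable def At0 (π : Equiv.Perm (Fin n)) (b l t : ℕ) (Y : Finset (Fin n)) :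
    Finset (Fin n) :=
  (univ.biUnion (fun i : Fin 4 => Sp b (dir π i) Y)) ∪ (F2 π l t ∩ Y) ∪ (F2 π t l ∩ Y)

/-- elements of `Y` whose window of length `l` in direction `δ` is at least half in `A` -/
noncomputable def heavy (l : ℕ) (δ : Equiv.Perm (Fin n)) (Y A : Finset (Fin n)) :
    Finset (Fin n) :=
  Y.filter (fun z => ((δ z : Fin n) : ℕ) + l ≤ n ∧ (win δ l Y z).card ≤ 2 * (win δ l A z).card)

/-- one generation -/
noncomputable def nxt (π : Equiv.Perm (Fin n)) (l : ℕ) (Y A : Finset (Fin n)) :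
    Finset (Fin n) :=
  A ∪ univ.biUnion (fun i : Fin 4 => heavy l (dir π i) Y A)

/-- the exceptional set after two generations -/
noncomputable def At2 (π : Equiv.Perm (Fin n)) (b l t : ℕ) (Y : Finset (Fin n)) :
    Finset (Fin n) :=
  nxt π l Y (nxt π l Y (At0 π b l t Y))

/-- every isomorphism between subsets moves at most `L` elements -/
def T1 (π : Equiv.Perm (Fin n)) (L : ℕ) : Prop :=
  ∀ (S T : Finset (Fin n)) (φ : Fin n → Fin n), IsIso π S T φ → (moved S φ).card ≤ L

/-- at most `K` elements in a box of radius `l` -/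
def O1 (π : Equiv.Perm (Fin n)) (l K : ℕ) : Prop :=
  ∀ z0 v : Fin n, (univ.filter (fun z => Near l z z0 ∧ Near l (π z) v)).card ≤ K

/-- second box condition -/
def O2 (π : Equiv.Perm (Fin n)) (l K : ℕ) : Prop :=
  ∀ z0 y : Fin n, (univ.filter (fun z => ¬ Near l z z0 ∧ Near l z y ∧
    ∃ u, Near l u z0 ∧ Near l (π u) (π z))).card ≤ K

/-- `y` lies strictly between `x` and `z` -/
def Btw (x y z : Fin n) : Prop := (x < y ∧ y < z) ∨ (z < y ∧ y < x)

/-- every `u ∈ V` has a partner in `V`, with everything between them in `V`, for the order of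
positions and for the order of values -/
def Closed (π : Equiv.Perm (Fin n)) (V : Finset (Fin n)) : Prop :=
  ∀ u ∈ V, ∃ u' ∈ V, u' ≠ u ∧ (∀ v, Btw u v u' → v ∈ V) ∧
    (∀ v, Btw (π u) (π v) (π u') → v ∈ V)

/-- first elements of the intervals of `U` in direction `δ` -/
noncomputable def starts (δ : Equiv.Perm (Fin n)) (U : Finset (Fin n)) : Finset (Fin n) :=
  U.filter (fun s => ∀ r ∈ U, ((δ r : Fin n) : ℕ) + 1 ≠ ((δ s : Fin n) : ℕ))

/-- there is no closed set of medium size -/
def T4 (π : Equiv.Perm (Fin n)) (m1 vmax : ℕ) : Prop :=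
  ∀ V : Finset (Fin n), Closed π V → V.card ≤ vmax → V.card ≤ m1

/-- a set that has few intervals in position and in value is very small or very large -/
def T6 (π : Equiv.Perm (Fin n)) (ρ m0 : ℕ) : Prop :=
  ∀ U : Finset (Fin n), (starts 1 U).card ≤ ρ → (starts π U).card ≤ ρ →
    U.card ≤ m0 ∨ (univ \ U).card ≤ m0

/-- `Z'` is a proper subset of `Z` and the copies of `Z'` in `Z` cover `Z` -/
def Cov (π : Equiv.Perm (Fin n)) (Z' Z : Finset (Fin n)) : Prop :=
  Z' ⊂ Z ∧ ∀ x ∈ Z, ∃ (T : Finset (Fin n)) (φ : Fin n → Fin n), T ⊆ Z ∧ x ∈ T ∧ IsIso π Z' T φ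

/-- sets reachable from `univ` by covering steps -/
inductive Reach (π : Equiv.Perm (Fin n)) : Finset (Fin n) → Prop
  | base : Reach π univ
  | step (Z Z' : Finset (Fin n)) : Reach π Z → Cov π Z' Z → Reach π Z'

end Pool.Agent.H67.AE
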