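import Mathlib

/-! Abstract Moebius recursion and the main bound. -/

set_option autoImplicit false

open Finset Classical

namespace Pool.Agent.H67.AE

variable {α P : Type} [Fintype α]

/-- the copies of `f Z'` in `Z` cover `Z` -/
def ACov (f : Finset α → P) (Z' Z : Finset α) : Prop :=
  Z' ⊂ Z ∧ ∀ x ∈ Z, ∃ S, S ⊆ Z ∧ x ∈ S ∧ f S = f Z'

private noncomputable def cc (f : Finset α → P) (Z : Finset α) (τ : P) : ℤ :=
  ∑ S ∈ Z.powerset.filter (fun S => τ ∈ S.powerset.image f), (-1 : ℤ) ^ S.card

omit [Fintype α] in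
private theorem cc_top (f : Finset α → P) (hf : ∀ S T, f S = f T → S.card = T.card)
    (Z : Finset α) : cc f Z (f Z) = (-1 : ℤ) ^ Z.card := by
  unfold cc
  have : Z.powerset.filter (fun S => f Z ∈ S.powerset.image f) = {Z} := by
    ext S
    simp only [mem_filter, mem_powerset, mem_image, mem_singleton]
    constructor
    · rintro ⟨h1, T, hT, h2⟩
      have h3 := hf _ _ h2
      have h4 := Finset.card_le_card hT
      exact Finset.eq_of_subset_of_card_le h1 (by omega)
    · rintro rfl
      exact ⟨Finset.Subset.refl _, S, Finset.Subset.refl _, rfl⟩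
  rw [this, Finset.sum_singleton]

omit [Fintype α] in
private theorem cc_zero (f : Finset α → P) (Z : Finset α) (τ : P) (x : α) (hx : x ∈ Z)
    (h : ∀ S, S ⊆ Z → x ∈ S → f S ≠ τ) : cc f Z τ = 0 := by
  unfold cc
  refine Finset.sum_involution (fun S _ => if x ∈ S then S.erase x else insert x S) ?_ ?_ ?_ ?_
  · intro S hS
    by_cases hxS : x ∈ S
    · simp only [hxS, if_true]
      have h1 : S.card = (S.erase x).card + 1 := (Finset.card_erase_add_one hxS).symm
      rw [h1, pow_succ]
      ring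
    · simp only [hxS, if_false]
      rw [Finset.card_insert_of_notMem hxS, pow_succ]
      ring
  · intro S hS _
    by_cases hxS : x ∈ S
    · simp only [hxS, if_true]
      intro h1
      have := Finset.notMem_erase x S
      rw [h1] at this
      exact this hxS
    · simp only [hxS, if_false]
      intro h1
      have := Finset.mem_insert_self x S
      rw [h1] at this
      exact hxS this
  · intro S hS
    simp only [mem_filter, mem_powerset, mem_image] at hS ⊢
    obtain ⟨h1, T, hT, h2⟩ := hS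
    have hxT : x ∉ T := fun hxT => h T (hT.trans h1) hxT h2
    by_cases hxS : x ∈ S
    · simp only [hxS, if_true]
      refine ⟨(Finset.erase_subset _ _).trans h1, T, ?_, h2⟩
      exact Finset.subset_erase.2 ⟨hT, hxT⟩
    · simp only [hxS, if_false]
      refine ⟨Finset.insert_subset hx h1, T, hT.trans (Finset.subset_insert _ _), h2⟩
  · intro S hS
    by_cases hxS : x ∈ S
    · simp only [hxS, if_true, Finset.notMem_erase, if_false, Finset.insert_erase hxS]
    · simp only [hxS, if_false, Finset.mem_insert_self, if_true, Finset.erase_insert hxS]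

omit [Fintype α] in
private theorem cc_bound (f : Finset α → P) (hf : ∀ S T, f S = f T → S.card = T.card)
    (Z Z' : Finset α) :
    |cc f Z (f Z')| ≤ ((Z.powerset.filter (fun S => Z'.card ≤ S.card)).card : ℤ) := by
  unfold cc
  refine (Finset.abs_sum_le_sum_abs _ _).trans ?_
  simp only [abs_pow, abs_neg, abs_one, one_pow, Finset.sum_const, nsmul_eq_mul, mul_one]
  norm_cast
  apply Finset.card_le_card
  intro S hS
  simp only [mem_filter, mem_powerset, mem_image] at hS ⊢
  obtain ⟨h1, T, hT, h2⟩ := hS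
  refine ⟨h1, ?_⟩
  rw [← hf _ _ h2]
  exact Finset.card_le_card hT

omit [Fintype α] in
private theorem inversion (f : Finset α → P) (g e : P → ℤ)
    (hg : ∀ Z : Finset α, ∑ τ ∈ Z.powerset.image f, g τ = e (f Z)) (Z : Finset α) :
    ∑ S ∈ Z.powerset, (-1 : ℤ) ^ S.card * e (f S)
      = ∑ τ ∈ Z.powerset.image f, g τ * cc f Z τ := by
  have h1 : ∀ S ∈ Z.powerset, (-1 : ℤ) ^ S.card * e (f S)
      = ∑ τ ∈ Z.powerset.image f, if τ ∈ S.powerset.image f then g τ * (-1 : ℤ) ^ S.card else 0 := by
    intro S hS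
    rw [← hg S, ← Finset.sum_filter, Finset.mul_sum]
    have h2 : (Z.powerset.image f).filter (fun τ => τ ∈ S.powerset.image f) = S.powerset.image f := by
      ext τ
      simp only [mem_filter]
      constructor
      · exact fun h => h.2
      · intro h
        refine ⟨?_, h⟩
        exact Finset.image_subset_image (Finset.powerset_mono.2 (Finset.mem_powerset.1 hS)) h
    rw [h2]
    exact Finset.sum_congr rfl (fun τ _ => mul_comm _ _)
  rw [Finset.sum_congr rfl h1, Finset.sum_comm]
  apply Finset.sum_congr rfl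
  intro τ _
  unfold cc
  rw [Finset.mul_sum, Finset.sum_filter]

private theorem sum_image_le_aux {ι κ : Type} (A : Finset ι) (f : ι → κ) (F : κ → ℤ)
    (hF : ∀ τ, 0 ≤ F τ) : ∑ τ ∈ A.image f, F τ ≤ ∑ a ∈ A, F (f a) := by
  rw [← Finset.sum_fiberwise_of_maps_to (s := A) (t := A.image f) (g := f)
    (fun a ha => Finset.mem_image_of_mem f ha)]
  apply Finset.sum_le_sum
  intro τ hτ
  obtain ⟨a, ha, rfl⟩ := Finset.mem_image.1 hτ
  have : F (f a) ≤ ∑ b ∈ A.filter (fun b => f b = f a), F (f b) :=
    Finset.single_le_sum (f := fun b => F (f b)) (fun b _ => hF _)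
      (Finset.mem_filter.2 ⟨ha, rfl⟩)
  exact this

omit [Fintype α] in
/-- Proof: `∑_{S ⊆ Z} (-1)^(#Z-#S) e (f S) = ∑_τ g τ c(τ, Z)` where
`c(τ, Z) = ∑_{S ⊆ Z, τ ∈ f '' powerset S} (-1)^(#Z-#S)`, `c(f Z, Z) = 1`, `c(τ, Z) = 0` if some
`x ∈ Z` lies in no `S ⊆ Z` with `f S = τ`, and `|c(τ, Z)| ≤ #{S ⊆ Z : #Z' ≤ #S}` if `τ = f Z'`. -/
private theorem mobius_rec_aux (f : Finset α → P) (hf : ∀ S T, f S = f T → S.card = T.card)
    (g e : P → ℤ)
    (hg : ∀ Z : Finset α, ∑ τ ∈ Z.powerset.image f, g τ = e (f Z)) (Z : Finset α) :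
    |g (f Z)| ≤ ∑ S ∈ Z.powerset, |e (f S)| +
      ∑ Z' ∈ Z.powerset.filter (fun Z' => ACov f Z' Z),
        |g (f Z')| * ((Z.powerset.filter (fun S => Z'.card ≤ S.card)).card : ℤ) := by
  have hinv := inversion f g e hg Z
  have hmem : f Z ∈ Z.powerset.image f :=
    Finset.mem_image_of_mem f (Finset.mem_powerset.2 (Finset.Subset.refl _))
  rw [← Finset.add_sum_erase _ _ hmem, cc_top f hf] at hinv
  have h1 : g (f Z) * (-1 : ℤ) ^ Z.card = ∑ S ∈ Z.powerset, (-1 : ℤ) ^ S.card * e (f S)
      - ∑ τ ∈ (Z.powerset.image f).erase (f Z), g τ * cc f Z τ := by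
    rw [hinv]
    ring
  have h2 : |g (f Z)| = |g (f Z) * (-1 : ℤ) ^ Z.card| := by
    rw [abs_mul, abs_pow, abs_neg, abs_one, one_pow, mul_one]
  rw [h2, h1]
  refine (abs_sub _ _).trans (add_le_add ?_ ?_)
  · refine (Finset.abs_sum_le_sum_abs _ _).trans (le_of_eq ?_)
    apply Finset.sum_congr rfl
    intro S _
    rw [abs_mul, abs_pow, abs_neg, abs_one, one_pow, one_mul]
  · refine (Finset.abs_sum_le_sum_abs _ _).trans ?_
    have h3 : ∑ τ ∈ (Z.powerset.image f).erase (f Z), |g τ * cc f Z τ|
        ≤ ∑ τ ∈ (Z.powerset.filter (fun Z' => ACov f Z' Z)).image f, |g τ * cc f Z τ| := by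
      rw [← Finset.sum_filter_add_sum_filter_not ((Z.powerset.image f).erase (f Z))
        (fun τ => τ ∈ (Z.powerset.filter (fun Z' => ACov f Z' Z)).image f)]
      have h4 : ∑ τ ∈ ((Z.powerset.image f).erase (f Z)).filter
          (fun τ => τ ∉ (Z.powerset.filter (fun Z' => ACov f Z' Z)).image f), |g τ * cc f Z τ| = 0 := by
        apply Finset.sum_eq_zero
        intro τ hτ
        simp only [mem_filter, mem_erase, mem_image, mem_powerset, not_exists, not_and] at hτ
        obtain ⟨⟨h5, Z', hZ', h6⟩, h7⟩ := hτ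
        have h8 : Z' ≠ Z := by
          rintro rfl
          exact h5 h6.symm
        have h9 : ¬ ACov f Z' Z := fun hc => h7 Z' ⟨hZ', hc⟩ h6
        have h10 : ∃ x ∈ Z, ∀ S, S ⊆ Z → x ∈ S → f S ≠ τ := by
          by_contra hcon
          push Not at hcon
          apply h9
          refine ⟨lt_of_le_of_ne hZ' h8, fun x hx => ?_⟩
          obtain ⟨S, hS1, hS2, hS3⟩ := hcon x hx
          exact ⟨S, hS1, hS2, hS3.trans h6.symm⟩
        obtain ⟨x, hx, hxx⟩ := h10
        rw [cc_zero f Z τ x hx hxx, mul_zero, abs_zero]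
      rw [h4, add_zero]
      apply Finset.sum_le_sum_of_subset_of_nonneg
      · intro τ hτ
        exact (Finset.mem_filter.1 hτ).2
      · intro τ _ _
        exact abs_nonneg _
    refine h3.trans ((sum_image_le_aux _ f (fun τ => |g τ * cc f Z τ|)
      (fun τ => abs_nonneg _)).trans ?_)
    apply Finset.sum_le_sum
    intro Z' _
    rw [abs_mul]
    exact mul_le_mul_of_nonneg_left (cc_bound f hf Z Z') (abs_nonneg _)

/-- Proof: `∑_{S ⊆ Z} (-1)^(#Z-#S) e (f S) = ∑_τ g τ c(τ, Z)` where
`c(τ, Z) = ∑_{S ⊆ Z, τ ∈ f '' powerset S} (-1)^(#Z-#S)`, `c(f Z, Z) = 1`, `c(τ, Z) = 0` if some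
`x ∈ Z` lies in no `S ⊆ Z` with `f S = τ`, and `|c(τ, Z)| ≤ #{S ⊆ Z : #Z' ≤ #S}` if `τ = f Z'`. -/
theorem mobius_rec (f : Finset α → P) (hf : ∀ S T, f S = f T → S.card = T.card) (g e : P → ℤ)
    (hg : ∀ Z : Finset α, ∑ τ ∈ Z.powerset.image f, g τ = e (f Z)) (Z : Finset α) :
    |g (f Z)| ≤ ∑ S ∈ Z.powerset, |e (f S)| +
      ∑ Z' ∈ Z.powerset.filter (fun Z' => ACov f Z' Z),
        |g (f Z')| * ((Z.powerset.filter (fun S => Z'.card ≤ S.card)).card : ℤ) :=
  mobius_rec_aux f hf g e hg Z

omit [Fintype α] in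
private theorem triv_aux (f : Finset α → P) (g e : P → ℤ)
    (hg : ∀ Z : Finset α, ∑ τ ∈ Z.powerset.image f, g τ = e (f Z))
    (he : ∀ τ, |e τ| ≤ 1) (Z : Finset α) :
    |g (f Z)| ≤ 1 + ∑ Z' ∈ Z.ssubsets, |g (f Z')| := by
  have hmem : f Z ∈ Z.powerset.image f :=
    Finset.mem_image_of_mem f (Finset.mem_powerset.2 (Finset.Subset.refl _))
  have h0 := hg Z
  rw [← Finset.add_sum_erase _ _ hmem] at h0
  have h1 : g (f Z) = e (f Z) - ∑ τ ∈ (Z.powerset.image f).erase (f Z), g τ := by linarith
  rw [h1]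
  refine (abs_sub _ _).trans (add_le_add (he _) ((Finset.abs_sum_le_sum_abs _ _).trans ?_))
  have h2 : ∑ τ ∈ (Z.powerset.image f).erase (f Z), |g τ| ≤ ∑ τ ∈ Z.ssubsets.image f, |g τ| := by
    apply Finset.sum_le_sum_of_subset_of_nonneg
    · intro τ hτ
      simp only [mem_erase, mem_image, mem_powerset, mem_ssubsets] at hτ ⊢
      obtain ⟨h3, Z', h4, h5⟩ := hτ
      refine ⟨Z', lt_of_le_of_ne h4 ?_, h5⟩
      rintro rfl
      exact h3 h5.symm
    · intro τ _ _
      exact abs_nonneg _
  exact h2.trans (sum_image_le_aux _ f (fun τ => |g τ|) (fun τ => abs_nonneg _))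

private theorem geom (m : ℕ) : 1 + ∑ j ∈ range m, (4 : ℤ) ^ j * (m.factorial : ℤ)
    ≤ 4 ^ m * (m.factorial : ℤ) := by
  have h1 : ∀ m : ℕ, 3 * ∑ j ∈ range m, (4 : ℤ) ^ j = 4 ^ m - 1 := by
    intro m
    induction m with
    | zero => simp
    | succ m ih => rw [Finset.sum_range_succ, mul_add, ih]; ring
  rw [← Finset.sum_mul]
  have h2 := h1 m
  have h3 : (1 : ℤ) ≤ (m.factorial : ℤ) := by exact_mod_cast m.factorial_pos
  have h4 : (0 : ℤ) ≤ ∑ j ∈ range m, (4 : ℤ) ^ j := Finset.sum_nonneg (fun j _ => by positivity)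
  nlinarith

omit [Fintype α] in
private theorem triv_bound_aux (f : Finset α → P) (g e : P → ℤ)
    (hg : ∀ Z : Finset α, ∑ τ ∈ Z.powerset.image f, g τ = e (f Z))
    (he : ∀ τ, |e τ| ≤ 1) (Z : Finset α) :
    |g (f Z)| ≤ (4 : ℤ) ^ Z.card * (Z.card.factorial : ℤ) := by
  induction Z using Finset.strongInduction with
  | H Z ih =>
    refine (triv_aux f g e hg he Z).trans ?_
    refine le_trans ?_ (geom Z.card)
    apply add_le_add (le_refl _)
    have h1 : ∑ Z' ∈ Z.ssubsets, |g (f Z')|
        ≤ ∑ Z' ∈ Z.ssubsets, (4 : ℤ) ^ Z'.card * (Z'.card.factorial : ℤ) :=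
      Finset.sum_le_sum (fun Z' hZ' => ih Z' (Finset.mem_ssubsets.1 hZ'))
    refine h1.trans ?_
    rw [← Finset.sum_fiberwise_of_maps_to (s := Z.ssubsets) (t := range Z.card)
      (g := Finset.card) (fun S hS => Finset.mem_range.2
        (Finset.card_lt_card (Finset.mem_ssubsets.1 hS)))]
    apply Finset.sum_le_sum
    intro j hj
    have hj' : j < Z.card := Finset.mem_range.1 hj
    have h2 : ∑ Z' ∈ Z.ssubsets.filter (fun Z' => Z'.card = j),
        (4 : ℤ) ^ Z'.card * (Z'.card.factorial : ℤ)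
        = ((Z.ssubsets.filter (fun Z' => Z'.card = j)).card : ℤ) * (4 ^ j * (j.factorial : ℤ)) := by
      rw [← nsmul_eq_mul, ← Finset.sum_const]
      apply Finset.sum_congr rfl
      intro S hS
      rw [(Finset.mem_filter.1 hS).2]
    rw [h2]
    have h3 : (Z.ssubsets.filter (fun Z' => Z'.card = j)).card ≤ Z.card.choose j := by
      rw [← Finset.card_powersetCard]
      apply Finset.card_le_card
      intro S hS
      simp only [mem_filter, mem_ssubsets] at hS
      exact Finset.mem_powersetCard.2 ⟨hS.1.1, hS.2⟩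
    have h4 : Z.card.choose j * j.factorial ≤ Z.card.factorial := by
      have h5 := Nat.choose_mul_factorial_mul_factorial hj'.le
      calc Z.card.choose j * j.factorial
          ≤ Z.card.choose j * j.factorial * (Z.card - j).factorial :=
            Nat.le_mul_of_pos_right _ (Nat.factorial_pos _)
        _ = Z.card.factorial := h5
    have h6 : (Z.ssubsets.filter (fun Z' => Z'.card = j)).card * j.factorial ≤ Z.card.factorial :=
      (Nat.mul_le_mul_right _ h3).trans h4
    have h7 : (((Z.ssubsets.filter (fun Z' => Z'.card = j)).card : ℤ) * (j.factorial : ℤ))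
        ≤ (Z.card.factorial : ℤ) := by exact_mod_cast h6
    calc ((Z.ssubsets.filter (fun Z' => Z'.card = j)).card : ℤ) * (4 ^ j * (j.factorial : ℤ))
        = 4 ^ j * (((Z.ssubsets.filter (fun Z' => Z'.card = j)).card : ℤ) * (j.factorial : ℤ)) := by
          ring
      _ ≤ 4 ^ j * (Z.card.factorial : ℤ) := mul_le_mul_of_nonneg_left h7 (by positivity)

theorem triv_bound (f : Finset α → P) (hf : ∀ S T, f S = f T → S.card = T.card) (g e : P → ℤ)
    (hg : ∀ Z : Finset α, ∑ τ ∈ Z.powerset.image f, g τ = e (f Z))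
    (he : ∀ τ, |e τ| ≤ 1) (Z : Finset α) :
    |g (f Z)| ≤ (4 : ℤ) ^ Z.card * (Z.card.factorial : ℤ) :=
  triv_bound_aux f g e hg he Z

private theorem card_small (Z : Finset α) (m : ℕ) :
    (Z.powerset.filter (fun S => S.card ≤ m)).card ≤ (Fintype.card α + 1) ^ m := by
  have h1 : Z.powerset.filter (fun S => S.card ≤ m)
      ⊆ (range (m + 1)).biUnion (fun i => Z.powersetCard i) := by
    intro S hS
    simp only [mem_filter, mem_powerset] at hS
    exact Finset.mem_biUnion.2 ⟨S.card, Finset.mem_range.2 (by omega),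
      Finset.mem_powersetCard.2 ⟨hS.1, rfl⟩⟩
  have hZ : Z.card ≤ Fintype.card α := Finset.card_le_univ Z
  calc (Z.powerset.filter (fun S => S.card ≤ m)).card
      ≤ ((range (m + 1)).biUnion (fun i => Z.powersetCard i)).card := Finset.card_le_card h1
    _ ≤ ∑ i ∈ range (m + 1), (Z.powersetCard i).card := Finset.card_biUnion_le
    _ = ∑ i ∈ range (m + 1), Z.card.choose i := by
        apply Finset.sum_congr rfl
        intro i _
        exact Finset.card_powersetCard i Z
    _ ≤ ∑ i ∈ range (m + 1), (Fintype.card α) ^ i * 1 ^ (m - i) * m.choose i := by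
        apply Finset.sum_le_sum
        intro i hi
        have hi' : i ≤ m := Nat.lt_succ_iff.1 (Finset.mem_range.1 hi)
        have e1 : Z.card.choose i ≤ Z.card ^ i := Nat.choose_le_pow _ _
        have e2 : Z.card ^ i ≤ (Fintype.card α) ^ i := Nat.pow_le_pow_left hZ i
        have e3 : 1 ≤ m.choose i := Nat.choose_pos hi'
        calc Z.card.choose i ≤ (Fintype.card α) ^ i := e1.trans e2
          _ = (Fintype.card α) ^ i * 1 ^ (m - i) * 1 := by simp
          _ ≤ (Fintype.card α) ^ i * 1 ^ (m - i) * m.choose i := Nat.mul_le_mul_left _ e3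
    _ = (Fintype.card α + 1) ^ m := by
        rw [add_pow]
        simp

private theorem card_large1 (Z : Finset α) (m1 : ℕ) :
    (Z.powerset.filter (fun S => (univ \ S).card ≤ m1)).card ≤ (Fintype.card α + 1) ^ m1 := by
  refine le_trans ?_ (card_small Z m1)
  apply Finset.card_le_card_of_injOn (fun S => Z \ S)
  · intro S hS
    simp only [coe_filter, mem_powerset, Set.mem_ofPred_eq] at hS ⊢
    refine ⟨Finset.sdiff_subset, le_trans (Finset.card_le_card ?_) hS.2⟩
    exact Finset.sdiff_subset_sdiff (Finset.subset_univ _) (Finset.Subset.refl _)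
  · intro S hS T hT hST
    simp only [coe_filter, mem_powerset, Set.mem_ofPred_eq] at hS hT hST
    rw [← Finset.sdiff_sdiff_eq_self hS.1, ← Finset.sdiff_sdiff_eq_self hT.1, hST]

private theorem card_large2 (Z Z' : Finset α) (hZ' : Z' ⊆ Z) (m1 : ℕ)
    (h : (univ \ Z').card ≤ m1) :
    (Z.powerset.filter (fun S => Z'.card ≤ S.card)).card ≤ (Fintype.card α + 1) ^ m1 := by
  refine le_trans ?_ (card_small Z m1)
  apply Finset.card_le_card_of_injOn (fun S => Z \ S)
  · intro S hS
    simp only [coe_filter, mem_powerset, Set.mem_ofPred_eq] at hS ⊢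
    refine ⟨Finset.sdiff_subset, ?_⟩
    have h1 : (Z \ S).card = Z.card - S.card := Finset.card_sdiff_of_subset hS.1
    have h2 : (Z \ Z').card = Z.card - Z'.card := Finset.card_sdiff_of_subset hZ'
    have h3 : (Z \ Z').card ≤ (univ \ Z').card :=
      Finset.card_le_card (Finset.sdiff_subset_sdiff (Finset.subset_univ _) (Finset.Subset.refl _))
    have h4 := hS.2
    omega
  · intro S hS T hT hST
    simp only [coe_filter, mem_powerset, Set.mem_ofPred_eq] at hS hT hST
    rw [← Finset.sdiff_sdiff_eq_self hS.1, ← Finset.sdiff_sdiff_eq_self hT.1, hST]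

theorem main_bound (f : Finset α → P) (hf : ∀ S T, f S = f T → S.card = T.card) (g e : P → ℤ)
    (hg : ∀ Z : Finset α, ∑ τ ∈ Z.powerset.image f, g τ = e (f Z))
    (he : ∀ τ, |e τ| ≤ 1) (Rch : Finset α → Prop) (hbase : Rch univ)
    (hstep : ∀ Z Z', Rch Z → ACov f Z' Z → Rch Z') (m0 m1 : ℕ)
    (hdich : ∀ Z, Rch Z → (univ \ Z).card ≤ m1 ∨ Z.card ≤ m0) :
    |g (f univ)| ≤ (2 : ℤ) ^ (Fintype.card α) *
      (1 + ((Fintype.card α : ℤ) + 1) ^ m0 * (4 : ℤ) ^ m0 * (m0.factorial : ℤ)) *
      (1 + ((Fintype.card α : ℤ) + 1) ^ (2 * m1)) ^ (m1 + 1) := by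
  set N := Fintype.card α with hN
  set A : ℤ := (2 : ℤ) ^ N *
      (1 + ((N : ℤ) + 1) ^ m0 * (4 : ℤ) ^ m0 * (m0.factorial : ℤ)) with hA
  set D : ℤ := ((N : ℤ) + 1) ^ (2 * m1) with hD
  have hA0 : 0 ≤ A := by positivity
  have hD0 : 0 ≤ D := by positivity
  have key : ∀ Z : Finset α, Rch Z → (univ \ Z).card ≤ m1 →
      |g (f Z)| ≤ A * (1 + D) ^ (m1 + 1 - (univ \ Z).card) := by
    intro Z
    induction Z using Finset.strongInduction with
    | H Z ih =>
      intro hR hr
      refine (mobius_rec f hf g e hg Z).trans ?_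
      have h1 : ∑ S ∈ Z.powerset, |e (f S)| ≤ (2 : ℤ) ^ N := by
        calc ∑ S ∈ Z.powerset, |e (f S)| ≤ ∑ _S ∈ Z.powerset, (1 : ℤ) :=
              Finset.sum_le_sum (fun S _ => he _)
          _ = (2 : ℤ) ^ Z.card := by simp
          _ ≤ (2 : ℤ) ^ N := pow_le_pow_right₀ (by norm_num) (Finset.card_le_univ Z)
      set r := (univ \ Z).card with hrdef
      have hsplit := Finset.sum_filter_add_sum_filter_not (Z.powerset.filter (fun Z' => ACov f Z' Z))
        (fun Z' => Z'.card ≤ m0) (fun Z' =>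
        |g (f Z')| * ((Z.powerset.filter (fun S => Z'.card ≤ S.card)).card : ℤ))
      rw [← hsplit]
      have h2 : ∑ Z' ∈ (Z.powerset.filter (fun Z' => ACov f Z' Z)).filter
          (fun Z' => Z'.card ≤ m0),
          |g (f Z')| * ((Z.powerset.filter (fun S => Z'.card ≤ S.card)).card : ℤ)
          ≤ (2 : ℤ) ^ N * (((N : ℤ) + 1) ^ m0 * (4 : ℤ) ^ m0 * (m0.factorial : ℤ)) := by
        have h3 : ∀ Z' ∈ (Z.powerset.filter (fun Z' => ACov f Z' Z)).filter
            (fun Z' => Z'.card ≤ m0),
            |g (f Z')| * ((Z.powerset.filter (fun S => Z'.card ≤ S.card)).card : ℤ)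
            ≤ ((4 : ℤ) ^ m0 * (m0.factorial : ℤ)) * 2 ^ N := by
          intro Z' hZ'
          have hc : Z'.card ≤ m0 := (Finset.mem_filter.1 hZ').2
          apply mul_le_mul
          · refine (triv_bound f hf g e hg he Z').trans ?_
            apply mul_le_mul
            · exact pow_le_pow_right₀ (by norm_num) hc
            · exact_mod_cast Nat.factorial_le hc
            · positivity
            · positivity
          · have : (Z.powerset.filter (fun S => Z'.card ≤ S.card)).card ≤ 2 ^ N := by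
              calc _ ≤ Z.powerset.card := Finset.card_filter_le _ _
                _ = 2 ^ Z.card := Finset.card_powerset Z
                _ ≤ 2 ^ N := Nat.pow_le_pow_right (by norm_num) (Finset.card_le_univ Z)
            exact_mod_cast this
          · positivity
          · positivity
        refine (Finset.sum_le_sum h3).trans ?_
        rw [Finset.sum_const, nsmul_eq_mul]
        have h4 : ((Z.powerset.filter (fun Z' => ACov f Z' Z)).filter
            (fun Z' => Z'.card ≤ m0)).card ≤ (N + 1) ^ m0 := by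
          refine le_trans (Finset.card_le_card ?_) (card_small Z m0)
          intro S hS
          simp only [mem_filter] at hS ⊢
          exact ⟨hS.1.1, hS.2⟩
        have h5 : (((Z.powerset.filter (fun Z' => ACov f Z' Z)).filter
            (fun Z' => Z'.card ≤ m0)).card : ℤ) ≤ ((N : ℤ) + 1) ^ m0 := by exact_mod_cast h4
        calc _ ≤ ((N : ℤ) + 1) ^ m0 * (((4 : ℤ) ^ m0 * (m0.factorial : ℤ)) * 2 ^ N) :=
              mul_le_mul_of_nonneg_right h5 (by positivity)
          _ = _ := by ring
      have h6 : ∑ Z' ∈ (Z.powerset.filter (fun Z' => ACov f Z' Z)).filter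
          (fun Z' => ¬ Z'.card ≤ m0),
          |g (f Z')| * ((Z.powerset.filter (fun S => Z'.card ≤ S.card)).card : ℤ)
          ≤ D * (A * (1 + D) ^ (m1 - r)) := by
        have h3 : ∀ Z' ∈ (Z.powerset.filter (fun Z' => ACov f Z' Z)).filter
            (fun Z' => ¬ Z'.card ≤ m0),
            |g (f Z')| * ((Z.powerset.filter (fun S => Z'.card ≤ S.card)).card : ℤ)
            ≤ (A * (1 + D) ^ (m1 - r)) * ((N : ℤ) + 1) ^ m1 := by
          intro Z' hZ'
          simp only [mem_filter, mem_powerset] at hZ'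
          obtain ⟨⟨h7, h8⟩, h9⟩ := hZ'
          have hR' : Rch Z' := hstep Z Z' hR h8
          have h10 : (univ \ Z').card ≤ m1 := (hdich Z' hR').resolve_right h9
          have h11 : r + 1 ≤ (univ \ Z').card := by
            have e1 : (univ \ Z').card = N - Z'.card := by
              rw [Finset.card_sdiff_of_subset (Finset.subset_univ _), Finset.card_univ]
            have e2 : r = N - Z.card := by
              rw [hrdef, Finset.card_sdiff_of_subset (Finset.subset_univ _), Finset.card_univ]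
            have e3 : Z'.card < Z.card := Finset.card_lt_card h8.1
            have e4 : Z.card ≤ N := Finset.card_le_univ Z
            omega
          apply mul_le_mul
          · refine (ih Z' h8.1 hR' h10).trans ?_
            apply mul_le_mul_of_nonneg_left _ hA0
            exact pow_le_pow_right₀ (by linarith) (by omega)
          · have := card_large2 Z Z' h7 m1 h10
            exact_mod_cast this
          · positivity
          · positivity
        refine (Finset.sum_le_sum h3).trans ?_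
        rw [Finset.sum_const, nsmul_eq_mul]
        have h4 : ((Z.powerset.filter (fun Z' => ACov f Z' Z)).filter
            (fun Z' => ¬ Z'.card ≤ m0)).card ≤ (N + 1) ^ m1 := by
          refine le_trans (Finset.card_le_card ?_) (card_large1 Z m1)
          intro S hS
          simp only [mem_filter] at hS ⊢
          exact ⟨hS.1.1, (hdich S (hstep Z S hR hS.1.2)).resolve_right hS.2⟩
        have h5 : (((Z.powerset.filter (fun Z' => ACov f Z' Z)).filter
            (fun Z' => ¬ Z'.card ≤ m0)).card : ℤ) ≤ ((N : ℤ) + 1) ^ m1 := by exact_mod_cast h4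
        calc _ ≤ ((N : ℤ) + 1) ^ m1 * ((A * (1 + D) ^ (m1 - r)) * ((N : ℤ) + 1) ^ m1) :=
              mul_le_mul_of_nonneg_right h5 (by positivity)
          _ = _ := by
              rw [hD, two_mul, pow_add]
              ring
      have h12 : m1 + 1 - r = (m1 - r) + 1 := by omega
      rw [h12, pow_succ]
      have h13 : (1 : ℤ) ≤ (1 + D) ^ (m1 - r) := one_le_pow₀ (by linarith)
      calc ∑ S ∈ Z.powerset, |e (f S)| + (_ + _)
          ≤ (2 : ℤ) ^ N + ((2 : ℤ) ^ N * (((N : ℤ) + 1) ^ m0 * (4 : ℤ) ^ m0 * (m0.factorial : ℤ))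
            + D * (A * (1 + D) ^ (m1 - r))) := add_le_add h1 (add_le_add h2 h6)
        _ = A + D * (A * (1 + D) ^ (m1 - r)) := by
            rw [hA]
            ring
        _ ≤ A * ((1 + D) ^ (m1 - r) * (1 + D)) := by
            have h14 : A * 1 ≤ A * (1 + D) ^ (m1 - r) := mul_le_mul_of_nonneg_left h13 hA0
            nlinarith
  have h := key univ hbase (by simp)
  simpa using h

end Pool.Agent.H67.AE
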