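import Mathlib

/-! Numerical facts. -/

set_option autoImplicit false

namespace Pool.Agent.H67.AE

private theorem num_poly : ∃ a0 : ℕ, ∀ a : ℕ, a0 ≤ a → (4 * a ^ 90) ^ 20000 ≤ 2 ^ a := by
  have h := tendsto_pow_const_div_const_pow_of_one_lt (90 * 20000) (r := (2 : ℝ)) one_lt_two
  have h2 := h.const_mul ((4 : ℝ) ^ 20000)
  rw [mul_zero] at h2
  have h3 := h2.eventually (ge_mem_nhds (zero_lt_one))
  rw [Filter.eventually_atTop] at h3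
  obtain ⟨a0, h0⟩ := h3
  refine ⟨a0, fun a ha => ?_⟩
  have h4 := h0 a ha
  have h5 : (0 : ℝ) < 2 ^ a := by positivity
  rw [← mul_div_assoc, div_le_one h5] at h4
  have h6 : ((4 * a ^ 90 : ℝ)) ^ 20000 = (4 : ℝ) ^ 20000 * (a : ℝ) ^ (90 * 20000) := by
    rw [mul_pow, ← pow_mul]
  have h7 : (((4 * a ^ 90) ^ 20000 : ℕ) : ℝ) ≤ ((2 ^ a : ℕ) : ℝ) := by
    push_cast
    rw [h6]
    exact h4
  exact_mod_cast h7

/-- for large `a` and `a^90 ≤ n ≤ 2 a^90` -/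
theorem numerics : ∃ a0 : ℕ, ∀ a n : ℕ, a0 ≤ a → a ^ 90 ≤ n → n ≤ 2 * a ^ 90 →
    2 * 96 ^ 12 ≤ a ∧
    4 * 4 * 10 * (48 * a ^ 60) < a ^ 22 * (a ^ 22 * a ^ 22 - 4 * 4 * (2 * a ^ 24 + 1)) ∧
    81 * (4 * n + 2 * (a ^ 2 * a ^ 88)) ≤ a ^ 2 * (810 * a ^ 88) ∧
    a ^ 89 + 810 * a ^ 88 ≤ 2 * a ^ 89 ∧
    2 * a + 2 * (810 * a ^ 88) ≤ 1700 * a ^ 88 ∧
    a * (n + 1) ^ (4 * (1700 * a ^ 88)) ≤ 2 ^ (a ^ 89) ∧
    2 ^ n * (1 + (n + 1) ^ (a ^ 89) * 4 ^ (a ^ 89) * (a ^ 89).factorial) *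
      (1 + (n + 1) ^ (2 * (2 * a))) ^ (2 * a + 1) ≤ 3 ^ n := by
  obtain ⟨b, hb⟩ := num_poly
  refine ⟨max b (2 * 96 ^ 12), fun a n ha h1 h2 => ?_⟩
  have hab : b ≤ a := le_trans (le_max_left _ _) ha
  have ha2 : 2 * 96 ^ 12 ≤ a := le_trans (le_max_right _ _) ha
  have hP := hb a hab
  have ha810 : 8100 ≤ a := le_trans (by norm_num) ha2
  have ha1 : 1 ≤ a := by omega
  have e89 : a ^ 89 = a * a ^ 88 := by rw [show 89 = 88 + 1 from rfl, pow_succ]; ring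
  have e90 : a ^ 90 = a * a ^ 89 := by rw [show 90 = 89 + 1 from rfl, pow_succ]; ring
  have p88 : 1 ≤ a ^ 88 := Nat.one_le_pow _ _ ha1
  have p89 : 1 ≤ a ^ 89 := Nat.one_le_pow _ _ ha1
  have p90 : 1 ≤ a ^ 90 := Nat.one_le_pow _ _ ha1
  have a88 : a ≤ a ^ 88 := Nat.le_self_pow (by norm_num) _
  have a89 : a ≤ a ^ 89 := Nat.le_self_pow (by norm_num) _
  set P : ℕ := 4 * a ^ 90 with hPdef
  have hP4 : 4 ≤ P := by omega
  have hP1 : 1 ≤ P := by omega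
  have hnP : n + 1 ≤ P := by omega
  have haP : a ≤ P := by
    have : a ≤ a ^ 90 := Nat.le_self_pow (by norm_num) _
    omega
  refine ⟨ha2, ?_, ?_, ?_, ?_, ?_, ?_⟩
  · -- 4 * 4 * 10 * (48 * a ^ 60) < a ^ 22 * (a ^ 22 * a ^ 22 - 4 * 4 * (2 * a ^ 24 + 1))
    have hA : 4 * 4 * (2 * a ^ 24 + 1) ≤ a ^ 43 := by
      have e1 : a ^ 43 = a ^ 19 * a ^ 24 := by rw [← pow_add]
      have e2 : 1 ≤ a ^ 24 := Nat.one_le_pow _ _ ha1
      have e3 : 8100 ≤ a ^ 19 := le_trans ha810 (Nat.le_self_pow (by norm_num) _)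
      calc 4 * 4 * (2 * a ^ 24 + 1) ≤ 4 * 4 * (2 * a ^ 24 + a ^ 24) := by gcongr
        _ = 48 * a ^ 24 := by ring
        _ ≤ a ^ 19 * a ^ 24 := by gcongr; omega
        _ = a ^ 43 := e1.symm
    have hB : a ^ 22 * a ^ 22 = a * a ^ 43 := by ring
    have hC : a ^ 43 ≤ a ^ 22 * a ^ 22 - 4 * 4 * (2 * a ^ 24 + 1) := by
      have : 2 * a ^ 43 ≤ a * a ^ 43 := Nat.mul_le_mul_right _ (by omega)
      rw [hB]; omega
    calc 4 * 4 * 10 * (48 * a ^ 60) = 7680 * a ^ 60 := by ring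
      _ < 8100 * a ^ 60 := by
        have : 1 ≤ a ^ 60 := Nat.one_le_pow _ _ ha1
        omega
      _ ≤ a ^ 5 * a ^ 60 := by
        have : 8100 ≤ a ^ 5 := le_trans ha810 (Nat.le_self_pow (by norm_num) _)
        gcongr
      _ = a ^ 22 * a ^ 43 := by ring
      _ ≤ _ := Nat.mul_le_mul_left _ hC
  · have e : a ^ 2 * a ^ 88 = a ^ 90 := by rw [← pow_add]
    have e' : a ^ 2 * (810 * a ^ 88) = 810 * a ^ 90 := by rw [← e]; ring
    rw [e, e']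
    omega
  · have : 810 * a ^ 88 ≤ a * a ^ 88 := Nat.mul_le_mul_right _ (by omega)
    rw [e89]; omega
  · omega
  · calc a * (n + 1) ^ (4 * (1700 * a ^ 88)) ≤ P * P ^ (4 * (1700 * a ^ 88)) := by gcongr
      _ = P ^ (1 + 4 * (1700 * a ^ 88)) := by rw [pow_add, pow_one]
      _ ≤ P ^ (20000 * a ^ 88) := Nat.pow_le_pow_right hP1 (by omega)
      _ = (P ^ 20000) ^ (a ^ 88) := by rw [pow_mul]
      _ ≤ (2 ^ a) ^ (a ^ 88) := Nat.pow_le_pow_left hP _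
      _ = 2 ^ (a ^ 89) := by rw [← pow_mul, e89]
  · -- the last inequality
    have f1 : (a ^ 89).factorial ≤ P ^ (a ^ 89) := by
      refine le_trans (Nat.factorial_le_pow _) (Nat.pow_le_pow_left ?_ _)
      have : a ^ 89 ≤ a ^ 90 := Nat.pow_le_pow_right ha1 (by norm_num)
      omega
    have f2 : (n + 1) ^ (a ^ 89) ≤ P ^ (a ^ 89) := Nat.pow_le_pow_left hnP _
    have f3 : 4 ^ (a ^ 89) ≤ P ^ (a ^ 89) := Nat.pow_le_pow_left hP4 _
    have f4 : 1 + (n + 1) ^ (a ^ 89) * 4 ^ (a ^ 89) * (a ^ 89).factorial ≤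
        P ^ (3 * a ^ 89 + 1) := by
      calc 1 + (n + 1) ^ (a ^ 89) * 4 ^ (a ^ 89) * (a ^ 89).factorial
          ≤ 1 + P ^ (a ^ 89) * P ^ (a ^ 89) * P ^ (a ^ 89) := by gcongr
        _ = 1 + P ^ (3 * a ^ 89) := by
          rw [← pow_add, ← pow_add]; congr 2; ring
        _ ≤ P ^ (3 * a ^ 89) + P ^ (3 * a ^ 89) := by
          have : 1 ≤ P ^ (3 * a ^ 89) := Nat.one_le_pow _ _ hP1
          omega
        _ = P ^ (3 * a ^ 89) * 2 := by ring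
        _ ≤ P ^ (3 * a ^ 89) * P := by gcongr; omega
        _ = P ^ (3 * a ^ 89 + 1) := (pow_succ P (3 * a ^ 89)).symm
    have f5 : (1 + (n + 1) ^ (2 * (2 * a))) ^ (2 * a + 1) ≤
        P ^ ((4 * a + 1) * (2 * a + 1)) := by
      rw [pow_mul P (4 * a + 1) (2 * a + 1)]
      refine Nat.pow_le_pow_left ?_ _
      calc 1 + (n + 1) ^ (2 * (2 * a)) ≤ 1 + P ^ (2 * (2 * a)) := by gcongr
        _ = 1 + P ^ (4 * a) := by congr 2; ring
        _ ≤ P ^ (4 * a) + P ^ (4 * a) := by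
          have : 1 ≤ P ^ (4 * a) := Nat.one_le_pow _ _ hP1
          omega
        _ = P ^ (4 * a) * 2 := by ring
        _ ≤ P ^ (4 * a) * P := by gcongr; omega
        _ = P ^ (4 * a + 1) := by rw [pow_succ]
    set X : ℕ := (1 + (n + 1) ^ (a ^ 89) * 4 ^ (a ^ 89) * (a ^ 89).factorial) *
      (1 + (n + 1) ^ (2 * (2 * a))) ^ (2 * a + 1) with hX
    have f6 : X ≤ P ^ (20 * a ^ 89) := by
      calc X ≤ P ^ (3 * a ^ 89 + 1) * P ^ ((4 * a + 1) * (2 * a + 1)) :=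
            Nat.mul_le_mul f4 f5
        _ = P ^ (3 * a ^ 89 + 1 + (4 * a + 1) * (2 * a + 1)) := by rw [← pow_add]
        _ ≤ P ^ (20 * a ^ 89) := by
          refine Nat.pow_le_pow_right hP1 ?_
          have g1 : a * a ≤ a ^ 89 := by
            calc a * a = a ^ 2 := by ring
              _ ≤ a ^ 89 := Nat.pow_le_pow_right ha1 (by norm_num)
          have g2 : (4 * a + 1) * (2 * a + 1) = 8 * (a * a) + 6 * a + 1 := by ring
          rw [g2]; omega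
    have f7 : X ^ 2 ≤ 2 ^ n := by
      calc X ^ 2 ≤ (P ^ (20 * a ^ 89)) ^ 2 := Nat.pow_le_pow_left f6 _
        _ = P ^ (40 * a ^ 89) := by rw [← pow_mul]; congr 1; ring
        _ ≤ P ^ (20000 * a ^ 89) := Nat.pow_le_pow_right hP1 (by omega)
        _ = (P ^ 20000) ^ (a ^ 89) := by rw [pow_mul]
        _ ≤ (2 ^ a) ^ (a ^ 89) := Nat.pow_le_pow_left hP _
        _ = 2 ^ (a ^ 90) := by rw [← pow_mul, e90]
        _ ≤ 2 ^ n := Nat.pow_le_pow_right (by norm_num) h1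
    have f8 : (2 ^ n * X) ^ 2 ≤ (3 ^ n) ^ 2 := by
      calc (2 ^ n * X) ^ 2 = (2 ^ n) ^ 2 * X ^ 2 := by ring
        _ ≤ (2 ^ n) ^ 2 * 2 ^ n := by gcongr
        _ = 8 ^ n := by
          rw [← pow_mul, ← pow_add, show n * 2 + n = 3 * n by ring, pow_mul]
          norm_num
        _ ≤ 9 ^ n := Nat.pow_le_pow_left (by norm_num) _
        _ = (3 ^ n) ^ 2 := by
          rw [← pow_mul, mul_comm n 2, pow_mul]
          norm_num
    have f9 : 2 ^ n * X ≤ 3 ^ n := (Nat.pow_le_pow_iff_left (by norm_num)).1 f8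
    calc _ = 2 ^ n * X := by rw [hX]; ring
      _ ≤ 3 ^ n := f9

private theorem num_ratio (a : ℕ) (h2 : 200 ≤ a) : (a + 1) ^ 90 ≤ 2 * a ^ 90 := by
  have hpos : (0 : ℝ) < (a : ℝ) + 1 := by positivity
  have h7 : (180 : ℝ) ≤ (a : ℝ) + 1 := by
    have : (200 : ℝ) ≤ a := by exact_mod_cast h2
    linarith
  have h8 : 1 / ((a : ℝ) + 1) ≤ 1 / 180 := one_div_le_one_div_of_le (by norm_num) h7
  have hB := one_add_mul_le_pow (a := -(1 / ((a : ℝ) + 1))) (by linarith) 90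
  have h6 : (1 : ℝ) / 2 ≤ 1 + (90 : ℕ) * -(1 / ((a : ℝ) + 1)) := by
    push_cast
    linarith
  have h9 : (1 : ℝ) + -(1 / ((a : ℝ) + 1)) = a / (a + 1) := by
    have : (a : ℝ) / (a + 1) = ((a + 1) - 1) / (a + 1) := by congr 1; ring
    rw [this, sub_div, div_self hpos.ne']
    ring
  rw [h9, div_pow] at hB
  have h10 : (1 : ℝ) / 2 ≤ (a : ℝ) ^ 90 / (a + 1) ^ 90 := le_trans h6 hB
  rw [div_le_div_iff₀ (by norm_num) (pow_pos hpos _)] at h10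
  have h11 : (((a + 1) ^ 90 : ℕ) : ℝ) ≤ ((2 * a ^ 90 : ℕ) : ℝ) := by
    rw [Nat.cast_pow, Nat.cast_mul, Nat.cast_pow, Nat.cast_add, Nat.cast_one, Nat.cast_two]
    linarith
  exact_mod_cast h11

/-- for every `a1` all large `n` lie in some `[a^90, 2 a^90]` with `a ≥ a1` -/
theorem exists_root (a1 : ℕ) : ∃ N : ℕ, ∀ n : ℕ, N ≤ n →
    ∃ a : ℕ, a1 ≤ a ∧ a ^ 90 ≤ n ∧ n ≤ 2 * a ^ 90 := by
  refine ⟨(a1 + 200) ^ 90, fun n hn => ?_⟩
  have h1 : a1 + 200 ≤ n := le_trans (Nat.le_self_pow (by norm_num) _) hn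
  obtain ⟨a, ha⟩ : ∃ a, a = Nat.findGreatest (fun x => x ^ 90 ≤ n) n := ⟨_, rfl⟩
  have h2 : a1 + 200 ≤ a := by
    rw [ha]; exact Nat.le_findGreatest h1 hn
  have h3 : a ^ 90 ≤ n := by
    rw [ha]
    exact Nat.findGreatest_spec (P := fun x => x ^ 90 ≤ n) h1 hn
  have h4 : n < (a + 1) ^ 90 := by
    by_contra hc
    rw [not_lt] at hc
    have h5 : a + 1 ≤ n := le_trans (Nat.le_self_pow (by norm_num) _) hc
    have h6 : a + 1 ≤ a := by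
      conv_rhs => rw [ha]
      exact Nat.le_findGreatest h5 hc
    omega
  have h5 := num_ratio a (by omega)
  exact ⟨a, by omega, h3, by omega⟩

end Pool.Agent.H67.AE
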