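import Pool.Agent.H67.AE.Defs

/-! Patterns of subsets, translation of the Moebius function. -/

set_option autoImplicit false

open Finset Classical

namespace Pool.Agent.H67.AE

/-- `π` contains `σ` as a pattern -/
def Cont {k m : ℕ} (σ : Equiv.Perm (Fin k)) (π : Equiv.Perm (Fin m)) : Prop :=
  ∃ e : Fin k ↪o Fin m, ∀ i j : Fin k, σ i < σ j ↔ π (e i) < π (e j)

/-- the type of all permutations -/
abbrev PT := Σ k : ℕ, Equiv.Perm (Fin k)

private theorem perm_unique {k : ℕ} (σ τ : Equiv.Perm (Fin k))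
    (h : ∀ i j, σ i < σ j ↔ τ i < τ j) : σ = τ := by
  let e : Fin k ≃o Fin k :=
    { toEquiv := σ.symm.trans τ
      map_rel_iff' := by
        intro a b
        show τ (σ.symm a) ≤ τ (σ.symm b) ↔ a ≤ b
        rw [← not_lt, ← not_lt, ← h, Equiv.apply_symm_apply, Equiv.apply_symm_apply] }
  have h1 : e = OrderIso.refl (Fin k) := Subsingleton.elim _ _
  ext i
  have h2 := congrArg (fun f : Fin k ≃o Fin k => f (σ i)) h1
  have h3 : e (σ i) = τ i := by
    show τ (σ.symm (σ i)) = τ i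
    rw [Equiv.symm_apply_apply]
  rw [← h3]
  exact congrArg (fun x : Fin k => (x : ℕ)) h2.symm

/-- pattern of `π` on `S` -/
private noncomputable def pk {n : ℕ} (π : Equiv.Perm (Fin n)) (k : ℕ) (S : Finset (Fin n))
    (h : S.card = k) : Equiv.Perm (Fin k) :=
  (S.orderIsoOfFin h).toEquiv.trans
    ((π.subtypeEquiv (q := fun y => y ∈ S.map π.toEmbedding) (fun a => by simp)).trans
      ((S.map π.toEmbedding).orderIsoOfFin ((card_map _).trans h)).symm.toEquiv)

private theorem pk_lt {n : ℕ} (π : Equiv.Perm (Fin n)) (k : ℕ) (S : Finset (Fin n))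
    (h : S.card = k) (i j : Fin k) :
    pk π k S h i < pk π k S h j ↔ π (S.orderEmbOfFin h i) < π (S.orderEmbOfFin h j) := by
  have h1 : ∀ i, pk π k S h i = ((S.map π.toEmbedding).orderIsoOfFin ((card_map _).trans h)).symm
      ⟨π (S.orderEmbOfFin h i), mem_map_of_mem π.toEmbedding (S.orderEmbOfFin_mem h i)⟩ :=
    fun i => rfl
  rw [h1, h1, OrderIso.lt_iff_lt]
  exact Iff.rfl

private theorem pk_eq {n : ℕ} (π : Equiv.Perm (Fin n)) (k : ℕ) (S : Finset (Fin n))
    (h : S.card = k) (σ : Equiv.Perm (Fin k))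
    (hσ : ∀ i j, σ i < σ j ↔ π (S.orderEmbOfFin h i) < π (S.orderEmbOfFin h j)) :
    pk π k S h = σ :=
  perm_unique _ _ fun i j => (pk_lt π k S h i j).trans (hσ i j).symm

private noncomputable def pf {n : ℕ} (π : Equiv.Perm (Fin n)) (S : Finset (Fin n)) : PT :=
  ⟨S.card, pk π S.card S rfl⟩

private theorem pf_eq {n : ℕ} (π : Equiv.Perm (Fin n)) (S : Finset (Fin n)) (k : ℕ)
    (h : S.card = k) : pf π S = ⟨k, pk π k S h⟩ := by
  subst h
  rfl

private theorem pf_iff {n : ℕ} (π : Equiv.Perm (Fin n)) (S : Finset (Fin n)) (k : ℕ)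
    (σ : Equiv.Perm (Fin k)) :
    pf π S = ⟨k, σ⟩ ↔ ∃ h : S.card = k, pk π k S h = σ := by
  constructor
  · intro h
    have h1 : S.card = k := congrArg Sigma.fst h
    refine ⟨h1, ?_⟩
    rw [pf_eq π S k h1] at h
    simpa using h
  · rintro ⟨h, rfl⟩
    exact pf_eq π S k h

private theorem iso_iff {n : ℕ} {π : Equiv.Perm (Fin n)} {S T : Finset (Fin n)}
    {φ : Fin n → Fin n} (h : IsIso π S T φ) {a b : Fin n} (ha : a ∈ S) (hb : b ∈ S) :
    π a < π b ↔ π (φ a) < π (φ b) := by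
  refine ⟨h.val a ha b hb, fun h1 => ?_⟩
  rcases lt_trichotomy (π a) (π b) with h2 | h2 | h2
  · exact h2
  · rw [π.injective h2] at h1
    exact absurd h1 (lt_irrefl _)
  · exact absurd (h1.trans (h.val b hb a ha h2)) (lt_irrefl _)

private theorem iso_card {n : ℕ} {π : Equiv.Perm (Fin n)} {S T : Finset (Fin n)}
    {φ : Fin n → Fin n} (h : IsIso π S T φ) : S.card = T.card := by
  have h1 : T = S.image φ := by
    ext y
    rw [mem_image]
    exact ⟨fun hy => h.surj y hy, fun ⟨a, ha, hy⟩ => hy ▸ h.maps a ha⟩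
  rw [h1, card_image_of_injOn]
  intro a ha b hb hab
  rcases lt_trichotomy a b with h2 | h2 | h2
  · exact absurd (h.pos a ha b hb h2) (by rw [hab]; exact lt_irrefl _)
  · exact h2
  · exact absurd (h.pos b hb a ha h2) (by rw [hab]; exact lt_irrefl _)

theorem pat_exists {n : ℕ} (π : Equiv.Perm (Fin n)) :
    ∃ f : Finset (Fin n) → PT,
      (∀ S T, f S = f T ↔ ∃ φ, IsIso π S T φ) ∧ (∀ S, (f S).1 = S.card) ∧ f univ = ⟨n, π⟩ ∧
      (∀ (Z : Finset (Fin n)) (τ : PT), Cont τ.2 (f Z).2 ↔ ∃ S, S ⊆ Z ∧ f S = τ) := by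
  refine ⟨pf π, ?_, fun S => rfl, ?_, ?_⟩
  · intro S T
    constructor
    · intro h
      obtain ⟨h1, h2⟩ := (pf_iff π S T.card (pk π T.card T rfl)).1 h
      refine ⟨fun x => if hx : x ∈ S then T.orderEmbOfFin rfl ((S.orderIsoOfFin h1).symm ⟨x, hx⟩)
        else x, ?_, ?_, ?_, ?_⟩
      · intro a ha
        simp only [ha, dif_pos]
        exact T.orderEmbOfFin_mem rfl _
      · intro b hb
        refine ⟨S.orderEmbOfFin h1 ((T.orderIsoOfFin rfl).symm ⟨b, hb⟩),
          S.orderEmbOfFin_mem h1 _, ?_⟩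
        rw [dif_pos (S.orderEmbOfFin_mem h1 _)]
        have h3 : (S.orderIsoOfFin h1).symm ⟨S.orderEmbOfFin h1 ((T.orderIsoOfFin rfl).symm ⟨b, hb⟩),
            S.orderEmbOfFin_mem h1 _⟩ = (T.orderIsoOfFin rfl).symm ⟨b, hb⟩ :=
          (S.orderIsoOfFin h1).symm_apply_apply _
        rw [h3]
        exact congrArg (fun z : {x // x ∈ T} => (z : Fin n))
          ((T.orderIsoOfFin rfl).apply_symm_apply ⟨b, hb⟩)
      · intro a ha b hb hab
        simp only [ha, hb, dif_pos]
        rw [OrderEmbedding.lt_iff_lt, OrderIso.lt_iff_lt]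
        exact hab
      · intro a ha b hb hab
        simp only [ha, hb, dif_pos]
        rw [← pk_lt, ← h2, pk_lt]
        have h3 : ∀ (a : Fin n) (ha : a ∈ S),
            S.orderEmbOfFin h1 ((S.orderIsoOfFin h1).symm ⟨a, ha⟩) = a := fun a ha =>
          congrArg (fun z : {x // x ∈ S} => (z : Fin n))
            ((S.orderIsoOfFin h1).apply_symm_apply ⟨a, ha⟩)
        rw [h3, h3]
        exact hab
    · rintro ⟨φ, h⟩
      have hc := iso_card h
      rw [show pf π T = ⟨T.card, pk π T.card T rfl⟩ from rfl, pf_iff]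
      refine ⟨hc, perm_unique _ _ fun i j => ?_⟩
      have hu : (fun i => φ (S.orderEmbOfFin hc i)) = T.orderEmbOfFin rfl := by
        refine Finset.orderEmbOfFin_unique rfl (fun i => h.maps _ (S.orderEmbOfFin_mem hc i)) ?_
        intro i j hij
        exact h.pos _ (S.orderEmbOfFin_mem hc i) _ (S.orderEmbOfFin_mem hc j)
          ((S.orderEmbOfFin hc).lt_iff_lt.2 hij)
      rw [pk_lt, pk_lt, iso_iff h (S.orderEmbOfFin_mem hc i) (S.orderEmbOfFin_mem hc j)]
      rw [show φ (S.orderEmbOfFin hc i) = T.orderEmbOfFin rfl i from congrFun hu i,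
        show φ (S.orderEmbOfFin hc j) = T.orderEmbOfFin rfl j from congrFun hu j]
  · rw [pf_iff]
    refine ⟨card_fin n, pk_eq π n univ (card_fin n) π fun i j => ?_⟩
    have hu : (id : Fin n → Fin n) = (univ : Finset (Fin n)).orderEmbOfFin (card_fin n) :=
      Finset.orderEmbOfFin_unique (card_fin n) (fun i => mem_univ _) strictMono_id
    rw [← hu]
    exact Iff.rfl
  · rintro Z ⟨k, σ⟩
    constructor
    · rintro ⟨e, he⟩
      set g : Fin k → Fin n := fun i => Z.orderEmbOfFin rfl (e i) with hg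
      have hgm : StrictMono g := fun i j hij =>
        (Z.orderEmbOfFin rfl).lt_iff_lt.2 (e.lt_iff_lt.2 hij)
      have hcard : (univ.image g).card = k := by
        rw [card_image_of_injective _ hgm.injective, card_univ, Fintype.card_fin]
      refine ⟨univ.image g, ?_, ?_⟩
      · intro x hx
        rw [mem_image] at hx
        obtain ⟨i, _, rfl⟩ := hx
        exact Z.orderEmbOfFin_mem rfl _
      · rw [pf_iff]
        refine ⟨hcard, pk_eq π k _ hcard σ fun i j => ?_⟩
        have hu : g = (univ.image g).orderEmbOfFin hcard :=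
          Finset.orderEmbOfFin_unique hcard (fun i => mem_image_of_mem _ (mem_univ _)) hgm
        rw [← hu]
        have h1 := he i j
        rw [h1]
        exact pk_lt π Z.card Z rfl (e i) (e j)
    · rintro ⟨S, hSZ, hS⟩
      rw [pf_iff] at hS
      obtain ⟨hc, hS⟩ := hS
      have hmem : ∀ i, S.orderEmbOfFin hc i ∈ Z := fun i => hSZ (S.orderEmbOfFin_mem hc i)
      have hmono : StrictMono (fun i : Fin k =>
          (Z.orderIsoOfFin rfl).symm ⟨S.orderEmbOfFin hc i, hmem i⟩) := by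
        intro i j hij
        show (Z.orderIsoOfFin rfl).symm ⟨S.orderEmbOfFin hc i, hmem i⟩ <
          (Z.orderIsoOfFin rfl).symm ⟨S.orderEmbOfFin hc j, hmem j⟩
        rw [OrderIso.lt_iff_lt]
        exact (S.orderEmbOfFin hc).lt_iff_lt.2 hij
      refine ⟨OrderEmbedding.ofStrictMono _ hmono, fun i j => ?_⟩
      have h3 : ∀ (a : Fin n) (ha : a ∈ Z),
          Z.orderEmbOfFin rfl ((Z.orderIsoOfFin rfl).symm ⟨a, ha⟩) = a := fun a ha =>
        congrArg (fun z : {x // x ∈ Z} => (z : Fin n))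
          ((Z.orderIsoOfFin rfl).apply_symm_apply ⟨a, ha⟩)
      show σ i < σ j ↔ pk π Z.card Z rfl ((Z.orderIsoOfFin rfl).symm ⟨S.orderEmbOfFin hc i, hmem i⟩)
        < pk π Z.card Z rfl ((Z.orderIsoOfFin rfl).symm ⟨S.orderEmbOfFin hc j, hmem j⟩)
      rw [pk_lt, h3, h3, ← hS, pk_lt]

private theorem cont_refl {k : ℕ} (σ : Equiv.Perm (Fin k)) : Cont σ σ :=
  ⟨RelEmbedding.refl _, fun _ _ => Iff.rfl⟩

private theorem cont_trans {k l m : ℕ} {σ : Equiv.Perm (Fin k)} {τ : Equiv.Perm (Fin l)}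
    {ρ : Equiv.Perm (Fin m)} (h1 : Cont σ τ) (h2 : Cont τ ρ) : Cont σ ρ := by
  obtain ⟨e, he⟩ := h1
  obtain ⟨g, hg⟩ := h2
  exact ⟨e.trans g, fun i j => (he i j).trans (hg _ _)⟩

private theorem cont_le {k l : ℕ} {σ : Equiv.Perm (Fin k)} {τ : Equiv.Perm (Fin l)}
    (h : Cont σ τ) : k ≤ l := by
  obtain ⟨e, _⟩ := h
  have := Fintype.card_le_of_injective e e.injective
  rwa [Fintype.card_fin, Fintype.card_fin] at this

private theorem cont_eq {k : ℕ} {σ τ : Equiv.Perm (Fin k)} (h : Cont σ τ) : σ = τ := by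
  obtain ⟨e, he⟩ := h
  refine perm_unique _ _ fun i j => ?_
  have hs : Function.Surjective e := Finite.injective_iff_surjective.1 e.injective
  have h1 : RelIso.ofSurjective e hs = OrderIso.refl (Fin k) := Subsingleton.elim _ _
  have h2 : ∀ i, e i = i := fun i => congrArg (fun f : Fin k ≃o Fin k => f i) h1
  rw [he, h2, h2]

/-- the defining relations of the Moebius function `mu (σ, ·)` of the pattern poset give the
abstract relation for `g τ = mu (σ, τ)` if `σ ≤ τ` and `0` otherwise, `e τ = 1` if `τ = σ` and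
`0` otherwise -/
theorem pat_relation (mu : (k : ℕ) → Equiv.Perm (Fin k) → (m : ℕ) → Equiv.Perm (Fin m) → ℤ)
    (h1 : ∀ (k : ℕ) (σ : Equiv.Perm (Fin k)), 1 ≤ k → mu k σ k σ = 1)
    (h2 : ∀ (k : ℕ) (σ : Equiv.Perm (Fin k)) (n : ℕ) (π : Equiv.Perm (Fin n)), 1 ≤ k → k < n →
      Cont σ π → ∑ j ∈ Finset.Icc k n,
        ∑ τ ∈ (Finset.univ : Finset (Equiv.Perm (Fin j))).filter (fun τ => Cont σ τ ∧ Cont τ π),
          mu k σ j τ = 0)
    (k : ℕ) (σ : Equiv.Perm (Fin k)) (hk : 1 ≤ k) {n : ℕ} (π : Equiv.Perm (Fin n))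
    (f : Finset (Fin n) → PT) (hf1 : ∀ S, (f S).1 = S.card)
    (hf2 : ∀ (Z : Finset (Fin n)) (τ : PT), Cont τ.2 (f Z).2 ↔ ∃ S, S ⊆ Z ∧ f S = τ)
    (Z : Finset (Fin n)) :
    ∑ τ ∈ Z.powerset.image f, (if Cont σ τ.2 then mu k σ τ.1 τ.2 else 0) =
      (if f Z = ⟨k, σ⟩ then 1 else 0) := by
  have hmem : ∀ τ : PT, τ ∈ Z.powerset.image f ↔ Cont τ.2 (f Z).2 := by
    intro τ
    rw [hf2, mem_image]
    constructor
    · rintro ⟨S, hS, h⟩
      exact ⟨S, mem_powerset.1 hS, h⟩
    · rintro ⟨S, hS, h⟩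
      exact ⟨S, mem_powerset.2 hS, h⟩
  generalize f Z = p at hmem ⊢
  obtain ⟨N, ρ⟩ := p
  rw [← Finset.sum_filter]
  by_cases hc : Cont σ ρ
  · rcases Nat.lt_or_ge k N with hkN | hkN
    · have h3 : (Z.powerset.image f).filter (fun τ => Cont σ τ.2) =
          (Finset.Icc k N).sigma (fun j =>
            (Finset.univ : Finset (Equiv.Perm (Fin j))).filter (fun τ => Cont σ τ ∧ Cont τ ρ)) := by
        ext ⟨j, τ⟩
        rw [mem_filter, hmem, mem_sigma, mem_filter, mem_Icc]
        constructor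
        · rintro ⟨h4, h5⟩
          exact ⟨⟨cont_le h5, cont_le h4⟩, mem_univ _, h5, h4⟩
        · rintro ⟨_, _, h5, h4⟩
          exact ⟨h4, h5⟩
      rw [h3, Finset.sum_sigma, h2 k σ N ρ hk hkN hc, if_neg]
      intro h
      have := congrArg Sigma.fst h
      simp only at this
      omega
    · have hkN' : k = N := le_antisymm (cont_le hc) hkN
      subst hkN'
      have h4 := cont_eq hc
      subst h4
      have h3 : (Z.powerset.image f).filter (fun τ => Cont σ τ.2) = {(⟨k, σ⟩ : PT)} := by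
        ext ⟨j, τ⟩
        rw [mem_filter, hmem, mem_singleton]
        constructor
        · rintro ⟨h4, h5⟩
          have h6 : j = k := le_antisymm (cont_le h4) (cont_le h5)
          subst h6
          have h7 : τ = σ := cont_eq h4
          rw [h7]
        · intro h
          have h6 : j = k := congrArg Sigma.fst h
          subst h6
          have h7 : τ = σ := by simpa using h
          subst h7
          exact ⟨cont_refl _, cont_refl _⟩
      rw [h3, Finset.sum_singleton, h1 k σ hk, if_pos rfl]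
  · have h3 : (Z.powerset.image f).filter (fun τ => Cont σ τ.2) = ∅ := by
      rw [Finset.filter_eq_empty_iff]
      intro τ hτ h5
      exact hc (cont_trans h5 ((hmem τ).1 hτ))
    rw [h3, Finset.sum_empty, if_neg]
    intro h
    have h6 : N = k := congrArg Sigma.fst h
    subst h6
    have h7 : ρ = σ := by simpa using h
    subst h7
    exact hc (cont_refl _)

end Pool.Agent.H67.AE
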