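import Pool.Agent.H67.AE.Count

/-! First moment of `F2`. -/

set_option autoImplicit false

open Finset Classical

namespace Pool.Agent.H67.AE

private theorem near_card {n : ℕ} (s : ℕ) (u : Fin n) :
    (univ.filter (fun v : Fin n => Near s u v)).card ≤ 2 * s + 1 := by
  have h := card_le_card_of_injOn (s := univ.filter (fun v : Fin n => Near s u v))
    (t := range (2 * s + 1)) (fun v => (v : ℕ) + s - (u : ℕ)) ?_ ?_
  · rwa [card_range] at h
  · intro v hv
    rw [mem_coe, mem_filter] at hv
    have h1 := hv.2.1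
    have h2 := hv.2.2
    rw [mem_coe, mem_range]
    show (v : ℕ) + s - (u : ℕ) < 2 * s + 1
    omega
  · intro v hv w hw h
    rw [mem_coe, mem_filter] at hv hw
    have h1 := hv.2.1
    have h2 := hw.2.1
    have h3 : (v : ℕ) + s - (u : ℕ) = (w : ℕ) + s - (u : ℕ) := h
    apply Fin.ext
    omega

private theorem near_perm_card {n : ℕ} (t : ℕ) (u v : Fin n) (huv : v ≠ u) :
    (univ.filter (fun π : Equiv.Perm (Fin n) => Near t (π u) (π v))).card ≤
      (n * (2 * t + 1)) * (n - 2).factorial := by
  set F : Finset (Fin n → Fin n) := univ.biUnion (fun p : Fin n =>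
    (univ.filter (fun q : Fin n => Near t p q)).image (fun q => fun x => if x = u then p else q))
    with hF
  have hFc : F.card ≤ n * (2 * t + 1) := by
    refine (card_biUnion_le_card_mul _ _ (2 * t + 1) fun p _ => ?_).trans ?_
    · exact card_image_le.trans (near_card t p)
    · rw [card_univ, Fintype.card_fin]
  have hW : ({u, v} : Finset (Fin n)).card = 2 := card_pair (Ne.symm huv)
  have h1 := card_family ({u, v} : Finset (Fin n)) F
  rw [hW] at h1
  refine (card_le_card ?_).trans (h1.trans (Nat.mul_le_mul_right _ hFc))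
  intro π hπ
  rw [mem_filter] at hπ ⊢
  refine ⟨mem_univ _, fun x => if x = u then π u else π v, ?_, ?_⟩
  · rw [hF, mem_biUnion]
    refine ⟨π u, mem_univ _, ?_⟩
    rw [mem_image]
    exact ⟨π v, mem_filter.2 ⟨mem_univ _, hπ.2⟩, rfl⟩
  · intro w hw
    rw [mem_insert, mem_singleton] at hw
    rcases hw with rfl | rfl
    · simp
    · simp [huv]

theorem sumF2 (n s t : ℕ) (hn : 2 ≤ n) :
    ∑ π : Equiv.Perm (Fin n), (F2 π s t).card ≤
      2 * ((2 * s + 1) * (2 * t + 1)) * n.factorial := by
  have h1 : ∀ π : Equiv.Perm (Fin n), (F2 π s t).card ≤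
      ∑ u : Fin n, ∑ v ∈ (univ.filter (fun v : Fin n => Near s u v)).filter (fun v => v ≠ u),
        if Near t (π u) (π v) then 1 else 0 := by
    intro π
    rw [F2, card_filter]
    refine sum_le_sum fun u _ => ?_
    split_ifs with h
    · obtain ⟨v, hv, h2, h3⟩ := h
      have hm : v ∈ (univ.filter (fun v : Fin n => Near s u v)).filter (fun v => v ≠ u) :=
        mem_filter.2 ⟨mem_filter.2 ⟨mem_univ _, h2⟩, hv⟩
      refine le_trans ?_ (single_le_sum (f := fun v => if Near t (π u) (π v) then 1 else 0)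
        (fun i _ => Nat.zero_le _) hm)
      simp only [h3, if_true]
      exact le_rfl
    · exact Nat.zero_le _
  have h2 : ∑ π : Equiv.Perm (Fin n), (F2 π s t).card ≤
      ∑ u : Fin n, ∑ v ∈ (univ.filter (fun v : Fin n => Near s u v)).filter (fun v => v ≠ u),
        (univ.filter (fun π : Equiv.Perm (Fin n) => Near t (π u) (π v))).card := by
    refine (sum_le_sum fun π _ => h1 π).trans ?_
    rw [sum_comm]
    refine sum_le_sum fun u _ => ?_
    rw [sum_comm]
    refine sum_le_sum fun v _ => ?_
    rw [card_filter]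
  have h3 : ∑ u : Fin n, ∑ v ∈ (univ.filter (fun v : Fin n => Near s u v)).filter
        (fun v => v ≠ u),
        (univ.filter (fun π : Equiv.Perm (Fin n) => Near t (π u) (π v))).card ≤
      n * ((2 * s + 1) * ((n * (2 * t + 1)) * (n - 2).factorial)) := by
    have h4 : ∀ u : Fin n, ∑ v ∈ (univ.filter (fun v : Fin n => Near s u v)).filter
        (fun v => v ≠ u),
        (univ.filter (fun π : Equiv.Perm (Fin n) => Near t (π u) (π v))).card ≤
        (2 * s + 1) * ((n * (2 * t + 1)) * (n - 2).factorial) := by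
      intro u
      refine (sum_le_card_nsmul _ _ ((n * (2 * t + 1)) * (n - 2).factorial) ?_).trans ?_
      · intro v hv
        exact near_perm_card t u v (mem_filter.1 hv).2
      · rw [smul_eq_mul]
        exact Nat.mul_le_mul_right _ ((card_filter_le _ _).trans (near_card s u))
    refine (sum_le_card_nsmul _ _ _ fun u _ => h4 u).trans ?_
    rw [card_univ, Fintype.card_fin, smul_eq_mul]
  refine (h2.trans h3).trans ?_
  obtain ⟨m, rfl⟩ : ∃ m, n = m + 2 := ⟨n - 2, by omega⟩
  have h5 : (m + 2).factorial = (m + 2) * ((m + 1) * m.factorial) := by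
    rw [Nat.factorial_succ, Nat.factorial_succ]
  rw [h5, Nat.add_sub_cancel]
  have h6 : m + 2 ≤ 2 * (m + 1) := by omega
  calc (m + 2) * ((2 * s + 1) * (((m + 2) * (2 * t + 1)) * m.factorial))
      = ((2 * s + 1) * (2 * t + 1) * ((m + 2) * m.factorial)) * (m + 2) := by ring
    _ ≤ ((2 * s + 1) * (2 * t + 1) * ((m + 2) * m.factorial)) * (2 * (m + 1)) :=
        Nat.mul_le_mul_left _ h6
    _ = 2 * ((2 * s + 1) * (2 * t + 1)) * ((m + 2) * ((m + 1) * m.factorial)) := by ring

theorem probF2 (n s t X : ℕ) (hn : 2 ≤ n) :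
    X * (univ.filter (fun π : Equiv.Perm (Fin n) => X < (F2 π s t).card)).card ≤
      2 * ((2 * s + 1) * (2 * t + 1)) * n.factorial := by
  refine le_trans ?_ (sumF2 n s t hn)
  rw [mul_comm, ← smul_eq_mul]
  refine le_trans (card_nsmul_le_sum _ (fun π => (F2 π s t).card) X ?_) ?_
  · intro π hπ
    exact (mem_filter.1 hπ).2.le
  · exact sum_le_sum_of_subset (filter_subset _ _)

end Pool.Agent.H67.AE
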