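import Pool.Agent.H67.AE.Count

/-! Almost all permutations satisfy `O1` with `K = 4`. -/

set_option autoImplicit false

open Finset Classical

namespace Pool.Agent.H67.AE

/-- union bound: `z0`, `v`, a set `W` of 5 positions near `z0` and a map `W → values near v`:
`n^2 (2l+1)^5 (2l+1)^5 (n-5)!` -/
theorem countO1 (n l : ℕ) :
    (univ.filter (fun π : Equiv.Perm (Fin n) => ¬ O1 π l 4)).card ≤
      n ^ 2 * ((2 * l + 1) ^ 10 * (n - 5).factorial) := by
  let T : Type := (Fin n × Fin n) × ((Fin 5 → Fin (2 * l + 1)) × (Fin 5 → Fin (2 * l + 1)))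
  let A : T → Finset (Equiv.Perm (Fin n)) := fun t => univ.filter (fun π =>
    ∃ w : Fin 5 → Fin n, Function.Injective w ∧
      (∀ i, ((w i : Fin n) : ℕ) + l = (t.1.1 : ℕ) + (t.2.1 i : ℕ)) ∧
      (∀ i, ((π (w i) : Fin n) : ℕ) + l = (t.1.2 : ℕ) + (t.2.2 i : ℕ)))
  have hA : ∀ t : T, (A t).card ≤ (n - 5).factorial := by
    intro t
    rcases (A t).eq_empty_or_nonempty with h | ⟨π0, h0⟩
    · rw [h, card_empty]
      exact Nat.zero_le _
    · obtain ⟨w, hw, h1, h2⟩ := (mem_filter.1 h0).2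
      have hW : (univ.image w).card = 5 := by
        rw [card_image_of_injective _ hw, card_univ, Fintype.card_fin]
      have h3 := card_fix (univ.image w) π0
      rw [hW] at h3
      refine (card_le_card ?_).trans h3
      intro π hπ
      obtain ⟨w', -, h1', h2'⟩ := (mem_filter.1 hπ).2
      refine mem_filter.2 ⟨mem_univ _, fun x hx => ?_⟩
      obtain ⟨i, -, rfl⟩ := mem_image.1 hx
      have h4 : w' i = w i := by
        apply Fin.ext
        have := h1 i
        have := h1' i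
        omega
      apply Fin.ext
      have h5 := h2 i
      have h6 := h2' i
      rw [h4] at h6
      omega
  have hsub : univ.filter (fun π : Equiv.Perm (Fin n) => ¬ O1 π l 4) ⊆ univ.biUnion A := by
    intro π hπ
    have h1 := (mem_filter.1 hπ).2
    unfold O1 at h1
    push Not at h1
    obtain ⟨z0, v, h2⟩ := h1
    obtain ⟨W, hW1, hW2⟩ := exists_subset_card_eq (Nat.succ_le_of_lt h2)
    have hW3 : ∀ i, W.orderEmbOfFin hW2 i ∈ W := fun i => W.orderEmbOfFin_mem hW2 i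
    have hnear : ∀ i, Near l (W.orderEmbOfFin hW2 i) z0 ∧ Near l (π (W.orderEmbOfFin hW2 i)) v :=
      fun i => (mem_filter.1 (hW1 (hW3 i))).2
    refine mem_biUnion.2 ⟨((z0, v),
      (fun i => ⟨((W.orderEmbOfFin hW2 i : Fin n) : ℕ) + l - z0, by
        have h3 := (hnear i).1.1
        have h4 := (hnear i).1.2
        omega⟩,
       fun i => ⟨((π (W.orderEmbOfFin hW2 i) : Fin n) : ℕ) + l - v, by
        have h3 := (hnear i).2.1
        have h4 := (hnear i).2.2
        omega⟩)), mem_univ _, mem_filter.2 ⟨mem_univ _, W.orderEmbOfFin hW2,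
          (W.orderEmbOfFin hW2).injective, fun i => ?_, fun i => ?_⟩⟩
    · have h3 := (hnear i).1.1
      have h4 := (hnear i).1.2
      dsimp only
      omega
    · have h3 := (hnear i).2.1
      have h4 := (hnear i).2.2
      dsimp only
      omega
  refine (card_le_card hsub).trans ((card_biUnion_le_card_mul _ _ _ fun t _ => hA t).trans ?_)
  rw [card_univ]
  have hT : Fintype.card T = (n * n) * ((2 * l + 1) ^ 5 * (2 * l + 1) ^ 5) := by
    simp [T, Fintype.card_prod]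
  rw [hT]
  apply le_of_eq
  ring

theorem probO1 (n a : ℕ) (ha : 32 ≤ a) (h1 : a ^ 90 ≤ n) :
    a * (univ.filter (fun π : Equiv.Perm (Fin n) => ¬ O1 π (a ^ 24) 4)).card ≤
      n.factorial := by
  have h2 := countO1 n (a ^ 24)
  set c := (univ.filter (fun π : Equiv.Perm (Fin n) => ¬ O1 π (a ^ 24) 4)).card
  have ha1 : 1 ≤ a := by omega
  have hn : 10 ≤ n := by
    have : a ^ 1 ≤ a ^ 90 := Nat.pow_le_pow_right ha1 (by norm_num)
    rw [pow_one] at this
    omega
  have h3 := fact_ratio (n := n) 5 (by omega)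
  have h4 : (2 * a ^ 24 + 1) ^ 10 ≤ 3 ^ 10 * a ^ 240 := by
    have h5 : 2 * a ^ 24 + 1 ≤ 3 * a ^ 24 := by
      have : 1 ≤ a ^ 24 := Nat.one_le_pow _ _ (by omega)
      omega
    calc (2 * a ^ 24 + 1) ^ 10 ≤ (3 * a ^ 24) ^ 10 := Nat.pow_le_pow_left h5 10
      _ = 3 ^ 10 * a ^ 240 := by ring
  have h6 : a * (3 ^ 10 * a ^ 240 * 2 ^ 5) ≤ n ^ 3 := by
    have h7 : 3 ^ 10 * 2 ^ 5 ≤ a ^ 29 :=
      le_trans (by norm_num) (Nat.pow_le_pow_left ha 29)
    calc a * (3 ^ 10 * a ^ 240 * 2 ^ 5) = (3 ^ 10 * 2 ^ 5) * a ^ 241 := by ring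
      _ ≤ a ^ 29 * a ^ 241 := Nat.mul_le_mul_right _ h7
      _ = (a ^ 90) ^ 3 := by ring
      _ ≤ n ^ 3 := Nat.pow_le_pow_left h1 3
  have hn3 : 0 < n ^ 3 := pow_pos (by omega) 3
  refine Nat.le_of_mul_le_mul_right ?_ hn3
  calc a * c * n ^ 3
      ≤ a * (n ^ 2 * ((3 ^ 10 * a ^ 240) * (n - 5).factorial)) * n ^ 3 := by
        refine Nat.mul_le_mul_right _ (Nat.mul_le_mul_left _ (h2.trans ?_))
        exact Nat.mul_le_mul_left _ (Nat.mul_le_mul_right _ h4)
    _ = a * (3 ^ 10 * a ^ 240) * ((n - 5).factorial * n ^ 5) := by ring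
    _ ≤ a * (3 ^ 10 * a ^ 240) * (2 ^ 5 * n.factorial) := Nat.mul_le_mul_left _ h3
    _ = (a * (3 ^ 10 * a ^ 240 * 2 ^ 5)) * n.factorial := by ring
    _ ≤ n ^ 3 * n.factorial := Nat.mul_le_mul_right _ h6
    _ = n.factorial * n ^ 3 := by ring

end Pool.Agent.H67.AE
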