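import Pool.Agent.H67.AE.Count

/-! Almost all permutations satisfy `O2` with `K = 10`. -/

set_option autoImplicit false

open Finset Classical

namespace Pool.Agent.H67.AE

private theorem ProbO2_near (n l : ℕ) (y : Fin n) :
    (univ.filter (fun z : Fin n => Near l z y)).card ≤ 2 * l + 1 := by
  have h1 : ((univ.filter (fun z : Fin n => Near l z y)).image (fun z : Fin n => (z : ℕ))).card =
      (univ.filter (fun z : Fin n => Near l z y)).card :=
    card_image_of_injective _ Fin.val_injective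
  rw [← h1]
  have h2 : (univ.filter (fun z : Fin n => Near l z y)).image (fun z : Fin n => (z : ℕ)) ⊆
      Finset.Icc ((y : ℕ) - l) ((y : ℕ) + l) := by
    intro m hm
    obtain ⟨z, hz, rfl⟩ := mem_image.1 hm
    have h3 := (mem_filter.1 hz).2
    rw [mem_Icc]
    unfold Near at h3
    omega
  refine (card_le_card h2).trans ?_
  rw [Nat.card_Icc]
  omega

/-- the functions used for the restrictions -/
private noncomputable def ProbO2_fun (n l : ℕ) (U : Finset (Fin n)) (z u : Fin 11 → Fin n)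
    (hu : ∀ i, u i ∈ U) (p : (U → Fin n) × (Fin 11 → Fin (2 * l + 1))) (w : Fin n) : Fin n :=
  if h : w ∈ U then p.1 ⟨w, h⟩
  else if h : ∃ i, z i = w ∧ ((p.1 ⟨u i, hu i⟩ : Fin n) : ℕ) + (p.2 i : ℕ) - l < n then
    ⟨((p.1 ⟨u h.choose, hu h.choose⟩ : Fin n) : ℕ) + (p.2 h.choose : ℕ) - l, h.choose_spec.2⟩
  else w

private theorem ProbO2_cnt (n l : ℕ) (hn : 44 ≤ n) (z u : Fin 11 → Fin n)
    (hz : Function.Injective z) (hd : ∀ i j, z i ≠ u j) :
    n ^ 11 * (univ.filter (fun π : Equiv.Perm (Fin n) => ∀ i, Near l (π (u i)) (π (z i)))).card ≤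
      2 ^ 22 * (2 * l + 1) ^ 11 * n.factorial := by
  have hu : ∀ i, u i ∈ univ.image u := fun i => mem_image_of_mem u (mem_univ i)
  obtain ⟨U, hU⟩ : ∃ U : Finset (Fin n), U = univ.image u := ⟨_, rfl⟩
  rw [← hU] at hu
  have hUc : U.card ≤ 11 := by
    rw [hU]
    refine card_image_le.trans ?_
    simp
  have hdisj : Disjoint U (univ.image z) := by
    rw [Finset.disjoint_left]
    intro w h1 h2
    rw [hU] at h1
    obtain ⟨i, _, h3⟩ := mem_image.1 h1
    obtain ⟨j, _, h4⟩ := mem_image.1 h2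
    exact hd j i (h4.trans h3.symm)
  have hWc : (U ∪ univ.image z).card = U.card + 11 := by
    rw [card_union_of_disjoint hdisj, card_image_of_injective _ hz]
    simp
  have hsub : ∀ π : Equiv.Perm (Fin n), (∀ i, Near l (π (u i)) (π (z i))) →
      ∃ f ∈ univ.image (ProbO2_fun n l U z u hu), ∀ w ∈ U ∪ univ.image z, π w = f w := by
    intro π hπ'
    refine ⟨ProbO2_fun n l U z u hu (fun w => π w.1,
      fun i => ⟨(π (z i) : ℕ) + l - (π (u i) : ℕ), ?_⟩), mem_image_of_mem _ (mem_univ _), ?_⟩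
    · have := hπ' i
      unfold Near at this
      omega
    · intro w hw
      unfold ProbO2_fun
      by_cases hwU : w ∈ U
      · rw [dif_pos hwU]
      · rw [dif_neg hwU]
        have hwz : w ∈ univ.image z := (mem_union.1 hw).resolve_left hwU
        obtain ⟨i, _, hi⟩ := mem_image.1 hwz
        have hex : ∃ i, z i = w ∧ ((π (u i) : Fin n) : ℕ) +
            ((π (z i) : ℕ) + l - (π (u i) : ℕ)) - l < n := by
          refine ⟨i, hi, ?_⟩
          have h5 := hπ' i
          have h6 := (π (z i)).2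
          unfold Near at h5
          omega
        rw [dif_pos hex]
        apply Fin.ext
        have h7 : z hex.choose = w := hex.choose_spec.1
        have h8 := hπ' hex.choose
        show (π w : ℕ) = ((π (u hex.choose) : Fin n) : ℕ) +
          ((π (z hex.choose) : ℕ) + l - (π (u hex.choose) : ℕ)) - l
        unfold Near at h8
        have h9 : (π w : ℕ) = (π (z hex.choose) : ℕ) := by rw [h7]
        omega
  have h1 : (univ.filter (fun π : Equiv.Perm (Fin n) => ∀ i, Near l (π (u i)) (π (z i)))).card ≤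
      (univ.image (ProbO2_fun n l U z u hu)).card * (n - (U ∪ univ.image z).card).factorial := by
    refine le_trans (card_le_card ?_) (card_family (U ∪ univ.image z)
      (univ.image (ProbO2_fun n l U z u hu)))
    intro π hπ
    exact mem_filter.2 ⟨mem_univ _, hsub π (mem_filter.1 hπ).2⟩
  have h2 : (univ.image (ProbO2_fun n l U z u hu)).card ≤ n ^ U.card * (2 * l + 1) ^ 11 := by
    refine card_image_le.trans (le_of_eq ?_)
    rw [card_univ, Fintype.card_prod, Fintype.card_fun, Fintype.card_fun, Fintype.card_fin,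
      Fintype.card_fin, Fintype.card_fin, Fintype.card_coe]
  rw [hWc] at h1
  have h3 := fact_ratio (n := n) (U.card + 11) (by omega)
  calc n ^ 11 * (univ.filter (fun π : Equiv.Perm (Fin n) =>
        ∀ i, Near l (π (u i)) (π (z i)))).card
      ≤ n ^ 11 * (n ^ U.card * (2 * l + 1) ^ 11 * (n - (U.card + 11)).factorial) :=
        Nat.mul_le_mul_left _ (h1.trans (Nat.mul_le_mul_right _ h2))
    _ = (2 * l + 1) ^ 11 * ((n - (U.card + 11)).factorial * n ^ (U.card + 11)) := by
        rw [pow_add]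
        ring
    _ ≤ (2 * l + 1) ^ 11 * (2 ^ (U.card + 11) * n.factorial) := Nat.mul_le_mul_left _ h3
    _ ≤ (2 * l + 1) ^ 11 * (2 ^ 22 * n.factorial) := by
        apply Nat.mul_le_mul_left
        apply Nat.mul_le_mul_right
        exact Nat.pow_le_pow_right (by norm_num) (by omega)
    _ = 2 ^ 22 * (2 * l + 1) ^ 11 * n.factorial := by ring

/-- union bound: `z0`, `y`, 11 distinct positions `z i` near `y` and not near `z0`, positions `u i`
near `z0`; `W = {z i} ∪ {u i}` has `11 + m` elements with `m ≤ 11`; there are at most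
`n^m (2l+1)^11` restrictions to `W` with `π (u i)` near `π (z i)`; and
`(n - 11 - m)! n^(11+m) ≤ 2^22 n!`. -/
theorem countO2 (n l : ℕ) (hn : 44 ≤ n) :
    n ^ 9 * (univ.filter (fun π : Equiv.Perm (Fin n) => ¬ O2 π l 10)).card ≤
      2 ^ 22 * (2 * l + 1) ^ 33 * n.factorial := by
  obtain ⟨D, hD⟩ : ∃ D, D = 2 ^ 22 * (2 * l + 1) ^ 11 * n.factorial / n ^ 11 := ⟨_, rfl⟩
  have hn0 : 0 < n ^ 11 := Nat.pow_pos (by omega)
  let B : Fin n → Finset (Fin n) := fun y => univ.filter (fun z : Fin n => Near l z y)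
  let P : Fin n → Finset (Fin 11 → Fin n) := fun y => Fintype.piFinset (fun _ => B y)
  let N : (Fin 11 → Fin n) → (Fin 11 → Fin n) → Finset (Equiv.Perm (Fin n)) := fun z u =>
    univ.filter (fun π : Equiv.Perm (Fin n) => (Function.Injective z ∧ ∀ i j, z i ≠ u j) ∧
      ∀ i, Near l (π (u i)) (π (z i)))
  have hP : ∀ y, (P y).card ≤ (2 * l + 1) ^ 11 := by
    intro y
    show (Fintype.piFinset (fun _ : Fin 11 => B y)).card ≤ _
    rw [Fintype.card_piFinset, prod_const, card_univ, Fintype.card_fin]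
    exact Nat.pow_le_pow_left (ProbO2_near n l y) 11
  have hN : ∀ z u, (N z u).card ≤ D := by
    intro z u
    by_cases hzu : Function.Injective z ∧ ∀ i j, z i ≠ u j
    · rw [hD, Nat.le_div_iff_mul_le hn0, mul_comm]
      refine le_trans (Nat.mul_le_mul_left _ (card_le_card ?_))
        (ProbO2_cnt n l hn z u hzu.1 hzu.2)
      intro π hπ
      rw [mem_filter] at hπ ⊢
      exact ⟨hπ.1, hπ.2.2⟩
    · have h1 : N z u = ∅ := by
        apply filter_eq_empty_iff.2
        intro π _ h2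
        exact hzu h2.1
      rw [h1, card_empty]
      exact Nat.zero_le _
  have hsub : univ.filter (fun π : Equiv.Perm (Fin n) => ¬ O2 π l 10) ⊆
      (univ : Finset (Fin n)).biUnion fun z0 => (univ : Finset (Fin n)).biUnion fun y =>
        (P y).biUnion fun z => (P z0).biUnion fun u => N z u := by
    intro π hπ
    have h1 := (mem_filter.1 hπ).2
    unfold O2 at h1
    push Not at h1
    obtain ⟨z0, y, h2⟩ := h1
    obtain ⟨T, hT, hTc⟩ := exists_subset_card_eq (Nat.succ_le_of_lt h2)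
    have h3 : ∀ i : Fin 11, ∃ u, ¬ Near l (T.orderEmbOfFin hTc i) z0 ∧
        Near l (T.orderEmbOfFin hTc i) y ∧ Near l u z0 ∧
        Near l (π u) (π (T.orderEmbOfFin hTc i)) := by
      intro i
      have h4 := (mem_filter.1 (hT (T.orderEmbOfFin_mem hTc i))).2
      obtain ⟨h5, h6, u, h7, h8⟩ := h4
      exact ⟨u, h5, h6, h7, h8⟩
    choose u h5 h6 h7 h8 using h3
    simp only [mem_biUnion]
    refine ⟨z0, mem_univ _, y, mem_univ _, fun i => T.orderEmbOfFin hTc i, ?_, u, ?_, ?_⟩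
    · rw [Fintype.mem_piFinset]
      intro i
      exact mem_filter.2 ⟨mem_univ _, h6 i⟩
    · rw [Fintype.mem_piFinset]
      intro i
      exact mem_filter.2 ⟨mem_univ _, h7 i⟩
    · refine mem_filter.2 ⟨mem_univ _, ⟨(T.orderEmbOfFin hTc).injective, ?_⟩, h8⟩
      intro i j hij
      apply h5 i
      have h9 : T.orderEmbOfFin hTc i = u j := hij
      rw [h9]
      exact h7 j
  have hcard : (univ.filter (fun π : Equiv.Perm (Fin n) => ¬ O2 π l 10)).card ≤
      n * (n * ((2 * l + 1) ^ 11 * ((2 * l + 1) ^ 11 * D))) := by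
    refine (card_le_card hsub).trans ?_
    refine (card_biUnion_le_card_mul _ _ (n * ((2 * l + 1) ^ 11 * ((2 * l + 1) ^ 11 * D)))
      (fun z0 _ => ?_)).trans (le_of_eq (by rw [card_univ, Fintype.card_fin]))
    refine (card_biUnion_le_card_mul _ _ ((2 * l + 1) ^ 11 * ((2 * l + 1) ^ 11 * D))
      (fun y _ => ?_)).trans (le_of_eq (by rw [card_univ, Fintype.card_fin]))
    refine (card_biUnion_le_card_mul _ _ ((2 * l + 1) ^ 11 * D) (fun z _ => ?_)).trans
      (Nat.mul_le_mul_right _ (hP y))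
    exact (card_biUnion_le_card_mul _ _ D (fun u _ => hN z u)).trans
      (Nat.mul_le_mul_right _ (hP z0))
  have hDn : D * n ^ 11 ≤ 2 ^ 22 * (2 * l + 1) ^ 11 * n.factorial := by
    rw [hD]
    exact Nat.div_mul_le_self _ _
  calc n ^ 9 * (univ.filter (fun π : Equiv.Perm (Fin n) => ¬ O2 π l 10)).card
      ≤ n ^ 9 * (n * (n * ((2 * l + 1) ^ 11 * ((2 * l + 1) ^ 11 * D)))) :=
        Nat.mul_le_mul_left _ hcard
    _ = (2 * l + 1) ^ 22 * (D * n ^ 11) := by ring
    _ ≤ (2 * l + 1) ^ 22 * (2 ^ 22 * (2 * l + 1) ^ 11 * n.factorial) :=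
        Nat.mul_le_mul_left _ hDn
    _ = 2 ^ 22 * (2 * l + 1) ^ 33 * n.factorial := by ring

theorem probO2 (n a : ℕ) (ha : 32 ≤ a) (h1 : a ^ 90 ≤ n) :
    a * (univ.filter (fun π : Equiv.Perm (Fin n) => ¬ O2 π (a ^ 24) 10)).card ≤
      n.factorial := by
  have ha0 : 0 < a := by omega
  have hn44 : 44 ≤ n := by
    have h2 : a ^ 2 ≤ a ^ 90 := Nat.pow_le_pow_right ha0 (by norm_num)
    have h3 : 32 ^ 2 ≤ a ^ 2 := Nat.pow_le_pow_left ha 2
    norm_num at h3
    omega
  have h2 := countO2 n (a ^ 24) hn44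
  have h3 : (2 * a ^ 24 + 1) ^ 33 ≤ 3 ^ 33 * a ^ 792 := by
    have h4 : 2 * a ^ 24 + 1 ≤ 3 * a ^ 24 := by
      have : 0 < a ^ 24 := Nat.pow_pos ha0
      omega
    calc (2 * a ^ 24 + 1) ^ 33 ≤ (3 * a ^ 24) ^ 33 := Nat.pow_le_pow_left h4 33
      _ = 3 ^ 33 * a ^ 792 := by rw [mul_pow, ← pow_mul]
  have h5 : 2 ^ 22 * 3 ^ 33 ≤ a ^ 17 :=
    le_trans (by norm_num) (Nat.pow_le_pow_left ha 17)
  have h6 : a * (2 ^ 22 * (2 * a ^ 24 + 1) ^ 33) ≤ n ^ 9 := by
    calc a * (2 ^ 22 * (2 * a ^ 24 + 1) ^ 33)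
        ≤ a * (2 ^ 22 * (3 ^ 33 * a ^ 792)) :=
          Nat.mul_le_mul_left _ (Nat.mul_le_mul_left _ h3)
      _ = (2 ^ 22 * 3 ^ 33) * a ^ 793 := by
          rw [show (793 : ℕ) = 792 + 1 from rfl, pow_succ]
          ring
      _ ≤ a ^ 17 * a ^ 793 := Nat.mul_le_mul_right _ h5
      _ = (a ^ 90) ^ 9 := by rw [← pow_add, ← pow_mul]
      _ ≤ n ^ 9 := Nat.pow_le_pow_left h1 9
  have h7 : 0 < n ^ 9 := Nat.pow_pos (by omega)
  apply Nat.le_of_mul_le_mul_left _ h7
  calc n ^ 9 * (a * (univ.filter (fun π : Equiv.Perm (Fin n) => ¬ O2 π (a ^ 24) 10)).card)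
      = a * (n ^ 9 * (univ.filter (fun π : Equiv.Perm (Fin n) =>
          ¬ O2 π (a ^ 24) 10)).card) := by ring
    _ ≤ a * (2 ^ 22 * (2 * a ^ 24 + 1) ^ 33 * n.factorial) := Nat.mul_le_mul_left _ h2
    _ = a * (2 ^ 22 * (2 * a ^ 24 + 1) ^ 33) * n.factorial := by ring
    _ ≤ n ^ 9 * n.factorial := Nat.mul_le_mul_right _ h6

end Pool.Agent.H67.AE
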