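import Pool.Agent.H67.AE.Count

/-! Almost all permutations satisfy `T1`. -/

set_option autoImplicit false

open Finset Classical

namespace Pool.Agent.H67.AE

variable {n : ℕ}

/-- If `φ` moves more than `3 h` elements there is `A` of size `h` in the domain, all moved, with
`A` and `φ A` disjoint (maximal `A` with `A ∩ φ A = ∅` satisfies `M ⊆ A ∪ φ A ∪ φ⁻¹ A`). -/
theorem exists_disjoint {π : Equiv.Perm (Fin n)} {S T : Finset (Fin n)} {φ : Fin n → Fin n}
    (h : IsIso π S T φ) (k : ℕ) (hk : 3 * k < (moved S φ).card) :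
    ∃ A : Finset (Fin n), A ⊆ S ∧ A.card = k ∧ Disjoint A (A.image φ) := by
  have hinj : ∀ a ∈ S, ∀ b ∈ S, φ a = φ b → a = b := by
    intro a ha b hb hab
    rcases lt_trichotomy a b with h1 | h1 | h1
    · have := h.pos a ha b hb h1
      rw [hab] at this
      exact absurd this (lt_irrefl _)
    · exact h1
    · have := h.pos b hb a ha h1
      rw [hab] at this
      exact absurd this (lt_irrefl _)
  set M := moved S φ with hM
  have hmem : ∀ y, y ∈ M ↔ y ∈ S ∧ φ y ≠ y := by
    intro y
    rw [hM]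
    unfold moved
    rw [mem_filter]
  have hne : (M.powerset.filter (fun A => Disjoint A (A.image φ))).Nonempty := by
    refine ⟨∅, ?_⟩
    rw [mem_filter]
    simp
  obtain ⟨A, hA, hmax⟩ := exists_max_image _ (fun A : Finset (Fin n) => A.card) hne
  rw [mem_filter, mem_powerset] at hA
  obtain ⟨hAM, hdis⟩ := hA
  have hcov : M ⊆ A ∪ (A.image φ ∪ M.filter (fun m => φ m ∈ A)) := by
    intro m hm
    by_contra hcon
    rw [mem_union, mem_union, mem_filter] at hcon
    push Not at hcon
    obtain ⟨h1, h2, h3⟩ := hcon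
    have h3' := h3 hm
    have h4 : insert m A ∈ M.powerset.filter (fun A => Disjoint A (A.image φ)) := by
      rw [mem_filter, mem_powerset]
      refine ⟨insert_subset hm hAM, ?_⟩
      rw [disjoint_left]
      intro x hx hx'
      rw [mem_image] at hx'
      obtain ⟨y, hy, hyx⟩ := hx'
      rw [mem_insert] at hx hy
      rcases hx with rfl | hx
      · rcases hy with rfl | hy
        · exact ((hmem _).1 hm).2 hyx
        · exact h2 (mem_image.2 ⟨y, hy, hyx⟩)
      · rcases hy with rfl | hy
        · rw [hyx] at h3'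
          exact h3' hx
        · exact disjoint_left.1 hdis hx (mem_image.2 ⟨y, hy, hyx⟩)
    have h5 := hmax _ h4
    rw [card_insert_of_notMem h1] at h5
    omega
  have hc1 : (A.image φ).card ≤ A.card := card_image_le
  have hc2 : (M.filter (fun m => φ m ∈ A)).card ≤ A.card := by
    apply card_le_card_of_injOn φ
    · intro m hm
      rw [mem_coe, mem_filter] at hm
      exact hm.2
    · intro m hm m' hm' heq
      rw [mem_coe, mem_filter] at hm hm'
      exact hinj m ((hmem m).1 hm.1).1 m' ((hmem m').1 hm'.1).1 heq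
  have hc3 := card_le_card hcov
  have hc4 := card_union_le A (A.image φ ∪ M.filter (fun m => φ m ∈ A))
  have hc5 := card_union_le (A.image φ) (M.filter (fun m => φ m ∈ A))
  have hkA : k ≤ A.card := by omega
  obtain ⟨A', hA', hcard⟩ := exists_subset_card_eq hkA
  refine ⟨A', fun x hx => ((hmem x).1 (hAM (hA' hx))).1, hcard, ?_⟩
  exact disjoint_of_subset_left hA' (disjoint_of_subset_right (image_subset_image hA') hdis)

/-- the monotone bijections between two sets of positions -/
def MB (A B : Finset (Fin n)) (f : Fin n → Fin n) : Prop :=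
  (∀ a ∈ A, f a ∈ B) ∧ (∀ b ∈ B, ∃ a ∈ A, f a = b) ∧ (∀ a ∈ A, ∀ a' ∈ A, a < a' → f a < f a')

theorem MB.lt_iff {A B : Finset (Fin n)} {f : Fin n → Fin n} (h : MB A B f) {a a' : Fin n}
    (ha : a ∈ A) (ha' : a' ∈ A) : f a < f a' ↔ a < a' := by
  refine ⟨fun h1 => ?_, h.2.2 a ha a' ha'⟩
  rcases lt_trichotomy a a' with h2 | h2 | h2
  · exact h2
  · rw [h2] at h1
    exact absurd h1 (lt_irrefl _)
  · exact absurd (h1.trans (h.2.2 a' ha' a ha h2)) (lt_irrefl _)

theorem MB.unique {A B : Finset (Fin n)} {f g : Fin n → Fin n} (hf : MB A B f) (hg : MB A B g) :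
    ∀ a ∈ A, f a = g a := by
  -- strong induction
  have key : ∀ m : ℕ, ∀ a ∈ A, (a : ℕ) = m → f a = g a := by
    intro m
    induction m using Nat.strong_induction_on with
    | _ m ih =>
      intro a ha ham
      have hle : ∀ (f g : Fin n → Fin n), MB A B f → MB A B g →
          (∀ a' ∈ A, a' < a → f a' = g a') → ¬ f a < g a := by
        intro f g hf hg hih hlt
        obtain ⟨a', ha', hga'⟩ := hg.2.1 (f a) (hf.1 a ha)
        have h1 : a' < a := by
          rw [← hg.lt_iff ha' ha, hga']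
          exact hlt
        have h2 := hih a' ha' h1
        rw [hga'] at h2
        have h3 := hf.2.2 a' ha' a ha h1
        rw [h2] at h3
        exact lt_irrefl _ h3
      have hih : ∀ a' ∈ A, a' < a → f a' = g a' := by
        intro a' ha' hlt
        exact ih (a' : ℕ) (by rw [← ham]; exact hlt) a' ha' rfl
      rcases lt_trichotomy (f a) (g a) with h1 | h1 | h1
      · exact absurd h1 (hle f g hf hg hih)
      · exact h1
      · exact absurd h1 (hle g f hg hf (fun a' ha' hlt => (hih a' ha' hlt).symm))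
  intro a ha
  exact key (a : ℕ) a ha rfl

theorem pow_self_le (h : ℕ) : h ^ h ≤ 3 ^ h * h.factorial := by
  have h1 := Real.pow_div_factorial_le_exp (h : ℝ) (Nat.cast_nonneg h) h
  have h2 : Real.exp (h : ℝ) ≤ 3 ^ h := by
    have h3 : Real.exp (h : ℝ) = Real.exp 1 ^ h := by
      rw [← Real.exp_nat_mul, mul_one]
    rw [h3]
    apply pow_le_pow_left₀ (Real.exp_pos 1).le
    have := Real.exp_one_lt_d9
    linarith
  have h4 : (0 : ℝ) < (h.factorial : ℝ) := by exact_mod_cast Nat.factorial_pos h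
  have h5 : ((h : ℝ) ^ h) ≤ 3 ^ h * (h.factorial : ℝ) := by
    rw [div_le_iff₀ h4] at h1
    exact h1.trans (mul_le_mul_of_nonneg_right h2 h4.le)
  exact_mod_cast h5

theorem numT1_aux (h x : ℕ) : 27 ^ h * (2 ^ h * ((2 * x) ^ h) ^ 2) = (216 * x ^ 2) ^ h := by
  rw [← pow_mul, mul_comm h 2, pow_mul, ← mul_pow, ← mul_pow]
  congr 1
  ring

theorem numT1 (n a : ℕ) (ha : 1 ≤ a) (h2 : n ≤ 2 * a ^ 90) :
    a * (n.choose (16 * a ^ 60)) ^ 2 ≤ (16 * a ^ 60).factorial := by
  set h := 16 * a ^ 60 with hh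
  have hf : 0 < h.factorial := Nat.factorial_pos h
  have h3 : n.choose h * h.factorial ≤ n ^ h := by
    rw [mul_comm, ← Nat.descFactorial_eq_factorial_mul_choose]
    exact Nat.descFactorial_le_pow n h
  have h4 : a ≤ 2 ^ h := by
    have h5 : a ≤ h := by
      rw [hh]
      calc a = a ^ 1 := (pow_one a).symm
        _ ≤ a ^ 60 := Nat.pow_le_pow_right ha (by norm_num)
        _ ≤ 16 * a ^ 60 := by omega
    exact h5.trans Nat.lt_two_pow_self.le
  have h6 := pow_self_le h
  -- a * (n^h)^2 ≤ (h!)^3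
  have h7 : a * (n ^ h) ^ 2 ≤ h.factorial ^ 3 := by
    have h8 : 27 ^ h * (a * (n ^ h) ^ 2) ≤ 27 ^ h * h.factorial ^ 3 := by
      calc 27 ^ h * (a * (n ^ h) ^ 2) ≤ 27 ^ h * (2 ^ h * ((2 * a ^ 90) ^ h) ^ 2) := by
            gcongr
        _ = (216 * a ^ 180) ^ h := by
            rw [numT1_aux, ← pow_mul a 90 2]
        _ ≤ ((16 * a ^ 60) ^ 3) ^ h := by
            apply Nat.pow_le_pow_left
            have : (16 * a ^ 60) ^ 3 = 4096 * a ^ 180 := by ring
            rw [this]
            have : 216 ≤ 4096 := by norm_num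
            exact Nat.mul_le_mul_right _ this
        _ = (h ^ h) ^ 3 := by
            rw [← hh, ← pow_mul, ← pow_mul, mul_comm]
        _ ≤ (3 ^ h * h.factorial) ^ 3 := Nat.pow_le_pow_left h6 3
        _ = 27 ^ h * h.factorial ^ 3 := by
            rw [mul_pow, ← pow_mul, mul_comm h 3, pow_mul]
            norm_num
    exact Nat.le_of_mul_le_mul_left h8 (by positivity)
  have h9 : (a * n.choose h ^ 2) * h.factorial ^ 2 ≤ h.factorial * h.factorial ^ 2 := by
    calc (a * n.choose h ^ 2) * h.factorial ^ 2 = a * (n.choose h * h.factorial) ^ 2 := by ring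
      _ ≤ a * (n ^ h) ^ 2 := by gcongr
      _ ≤ h.factorial ^ 3 := h7
      _ = h.factorial * h.factorial ^ 2 := by ring
  exact Nat.le_of_mul_le_mul_right h9 (by positivity)

/-- union bound over pairs `(A, B)` of size `h = 16 a^60` with `card_same_pattern`:
`a * (n.choose h)^2 ≤ h!`, from `n.choose h * h! ≤ n^h` and `h^h ≤ 3^h h!`. -/
theorem probT1 (n a : ℕ) (ha : 1 ≤ a) (h2 : n ≤ 2 * a ^ 90) :
    a * (univ.filter (fun π : Equiv.Perm (Fin n) => ¬ T1 π (48 * a ^ 60))).card ≤
      n.factorial := by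
  set h := 16 * a ^ 60 with hh
  have hex : ∀ P : Finset (Fin n) × Finset (Fin n), ∃ f : Fin n → Fin n,
      (∃ g, MB P.1 P.2 g) → MB P.1 P.2 f := by
    intro P
    by_cases hP : ∃ g, MB P.1 P.2 g
    · obtain ⟨g, hg⟩ := hP
      exact ⟨g, fun _ => hg⟩
    · exact ⟨id, fun h => absurd h hP⟩
  choose ψ hψ using hex
  set I := (((univ : Finset (Fin n)).powersetCard h) ×ˢ
    ((univ : Finset (Fin n)).powersetCard h)).filter
      (fun P => Disjoint P.1 P.2 ∧ ∃ g, MB P.1 P.2 g) with hI
  set E : Finset (Fin n) × Finset (Fin n) → Finset (Equiv.Perm (Fin n)) := fun P =>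
    univ.filter (fun π : Equiv.Perm (Fin n) =>
      ∀ a ∈ P.1, ∀ b ∈ P.1, π a < π b → π (ψ P a) < π (ψ P b)) with hE
  have hEc : ∀ P ∈ I, (E P).card * h.factorial ≤ n.factorial := by
    intro P hP
    rw [hI, mem_filter, mem_product, mem_powersetCard, mem_powersetCard] at hP
    obtain ⟨⟨⟨_, hc1⟩, ⟨_, hc2⟩⟩, hd, hg⟩ := hP
    have hmb := hψ P hg
    have := card_same_pattern P.1 P.2 (ψ P) hd hmb.1 hmb.2.1 (hc1.trans hc2.symm)
    rw [hc1] at this
    exact this
  have hsub : univ.filter (fun π : Equiv.Perm (Fin n) => ¬ T1 π (48 * a ^ 60)) ⊆ I.biUnion E := by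
    intro π hπ
    rw [mem_filter] at hπ
    obtain ⟨-, hπ⟩ := hπ
    unfold T1 at hπ
    push Not at hπ
    obtain ⟨S, T, φ, hφ, hcard⟩ := hπ
    obtain ⟨A, hAS, hAc, hAd⟩ := exists_disjoint hφ h (by rw [hh]; omega)
    have hinj : ∀ a ∈ A, ∀ b ∈ A, φ a = φ b → a = b := by
      intro a ha b hb hab
      rcases lt_trichotomy a b with h1 | h1 | h1
      · have := hφ.pos a (hAS ha) b (hAS hb) h1
        rw [hab] at this
        exact absurd this (lt_irrefl _)
      · exact h1
      · have := hφ.pos b (hAS hb) a (hAS ha) h1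
        rw [hab] at this
        exact absurd this (lt_irrefl _)
    have hmb : MB A (A.image φ) φ := by
      refine ⟨fun a ha => mem_image_of_mem _ ha, fun b hb => ?_, fun a ha b hb hab =>
        hφ.pos a (hAS ha) b (hAS hb) hab⟩
      rw [mem_image] at hb
      exact hb
    have hcard2 : (A.image φ).card = h := by
      rw [card_image_of_injOn, hAc]
      intro a ha b hb hab
      exact hinj a ha b hb hab
    rw [mem_biUnion]
    refine ⟨(A, A.image φ), ?_, ?_⟩
    · rw [hI, mem_filter, mem_product, mem_powersetCard, mem_powersetCard]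
      exact ⟨⟨⟨subset_univ _, hAc⟩, ⟨subset_univ _, hcard2⟩⟩, hAd, φ, hmb⟩
    · rw [hE]
      simp only
      rw [mem_filter]
      refine ⟨mem_univ _, ?_⟩
      intro a ha b hb hab
      have hm2 := hψ (A, A.image φ) ⟨φ, hmb⟩
      rw [hm2.unique hmb a ha, hm2.unique hmb b hb]
      exact hφ.val a (hAS ha) b (hAS hb) hab
  have hcI : I.card ≤ (n.choose h) ^ 2 := by
    refine (card_filter_le _ _).trans ?_
    rw [card_product, card_powersetCard, card_univ, Fintype.card_fin, sq]
  have hfin : (univ.filter (fun π : Equiv.Perm (Fin n) => ¬ T1 π (48 * a ^ 60))).card *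
      h.factorial ≤ (n.choose h) ^ 2 * n.factorial := by
    calc (univ.filter (fun π : Equiv.Perm (Fin n) => ¬ T1 π (48 * a ^ 60))).card * h.factorial
        ≤ (I.biUnion E).card * h.factorial := Nat.mul_le_mul_right _ (card_le_card hsub)
      _ ≤ (∑ P ∈ I, (E P).card) * h.factorial := Nat.mul_le_mul_right _ card_biUnion_le
      _ = ∑ P ∈ I, (E P).card * h.factorial := by rw [sum_mul]
      _ ≤ ∑ P ∈ I, n.factorial := sum_le_sum hEc
      _ = I.card * n.factorial := by rw [sum_const, smul_eq_mul]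
      _ ≤ (n.choose h) ^ 2 * n.factorial := Nat.mul_le_mul_right _ hcI
  have hnum := numT1 n a ha h2
  rw [← hh] at hnum
  have hf : 0 < h.factorial := Nat.factorial_pos h
  have : h.factorial * (a * (univ.filter (fun π : Equiv.Perm (Fin n) =>
      ¬ T1 π (48 * a ^ 60))).card) ≤ h.factorial * n.factorial := by
    calc h.factorial * (a * (univ.filter (fun π : Equiv.Perm (Fin n) =>
          ¬ T1 π (48 * a ^ 60))).card)
        = a * ((univ.filter (fun π : Equiv.Perm (Fin n) =>
          ¬ T1 π (48 * a ^ 60))).card * h.factorial) := by ring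
      _ ≤ a * ((n.choose h) ^ 2 * n.factorial) := Nat.mul_le_mul_left _ hfin
      _ = (a * (n.choose h) ^ 2) * n.factorial := by ring
      _ ≤ h.factorial * n.factorial := Nat.mul_le_mul_right _ hnum
  exact Nat.le_of_mul_le_mul_left this hf

end Pool.Agent.H67.AE
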