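import Pool.Agent.H67.AE.Defs

/-! Numbers of sets with few starts. -/

set_option autoImplicit false

open Finset Classical

namespace Pool.Agent.H67.AE

variable {n : ℕ}

private theorem SC_mem_starts (U : Finset (Fin n)) (s : Fin n) :
    s ∈ starts 1 U ↔ s ∈ U ∧ ∀ r ∈ U, (r : ℕ) + 1 ≠ (s : ℕ) := by
  unfold starts
  rw [Finset.mem_filter]
  simp [Equiv.Perm.one_apply]

private noncomputable def SC_rk (V : Finset (Fin n)) (x : Fin n) : ℕ :=
  (V.filter (fun y => y < x)).card

private theorem SC_rk_lt (V : Finset (Fin n)) {x : Fin n} (hx : x ∈ V) : SC_rk V x < V.card := by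
  unfold SC_rk
  apply Finset.card_lt_card
  refine ⟨Finset.filter_subset _ _, fun h => ?_⟩
  have := h hx
  rw [Finset.mem_filter] at this
  exact lt_irrefl _ this.2

private theorem SC_rk_strict (V : Finset (Fin n)) {x y : Fin n} (hx : x ∈ V) (hxy : x < y) :
    SC_rk V x < SC_rk V y := by
  unfold SC_rk
  apply Finset.card_lt_card
  refine ⟨fun z hz => ?_, fun h => ?_⟩
  · rw [Finset.mem_filter] at hz ⊢
    exact ⟨hz.1, lt_trans hz.2 hxy⟩
  · have := h (Finset.mem_filter.2 ⟨hx, hxy⟩)
    rw [Finset.mem_filter] at this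
    exact lt_irrefl _ this.2

private noncomputable def SC_R (V : Finset (Fin n)) : Finset ℕ := (starts 1 V).image (SC_rk V)

private theorem SC_step (V V' : Finset (Fin n)) (hc : V.card = V'.card)
    (hs : starts 1 V = starts 1 V') (hR : SC_R V = SC_R V') (x : Fin n)
    (hlt : ∀ y, y < x → (y ∈ V ↔ y ∈ V')) (hx : x ∈ V) : x ∈ V' := by
  by_contra hx'
  have hns : x ∉ starts 1 V := by
    intro h
    rw [hs, SC_mem_starts] at h
    exact hx' h.1
  have hrk : SC_rk V x = SC_rk V' x := by
    unfold SC_rk
    congr 1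
    ext y
    rw [Finset.mem_filter, Finset.mem_filter]
    constructor
    · rintro ⟨h1, h2⟩; exact ⟨(hlt y h2).1 h1, h2⟩
    · rintro ⟨h1, h2⟩; exact ⟨(hlt y h2).2 h1, h2⟩
  have hiR : SC_rk V x ∉ SC_R V := by
    intro h
    unfold SC_R at h
    rw [Finset.mem_image] at h
    obtain ⟨s, hsS, hse⟩ := h
    have hsV : s ∈ V := ((SC_mem_starts V s).1 hsS).1
    rcases lt_trichotomy s x with h1 | h1 | h1
    · have := SC_rk_strict V hsV h1; omega
    · rw [h1] at hsS; exact hns hsS
    · have := SC_rk_strict V hx h1; omega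
  -- an element of V' not below x
  have hex : (V'.filter (fun y => ¬ y < x)).Nonempty := by
    by_contra hne
    rw [Finset.not_nonempty_iff_eq_empty] at hne
    have h1 := Finset.card_filter_add_card_filter_not (s := V') (fun y => y < x)
    rw [hne, Finset.card_empty, add_zero] at h1
    have h2 := SC_rk_lt V hx
    rw [hrk] at h2
    unfold SC_rk at h2
    omega
  set x' := (V'.filter (fun y => ¬ y < x)).min' hex with hx'def
  have hx'm := Finset.min'_mem _ hex
  rw [← hx'def, Finset.mem_filter] at hx'm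
  obtain ⟨hx'V, hx'ge⟩ := hx'm
  have hx'gt : x < x' := by
    rcases lt_trichotomy x x' with h | h | h
    · exact h
    · exact absurd (h ▸ hx'V) hx'
    · exact absurd h hx'ge
  have hmin : ∀ y ∈ V', y < x' → y < x := by
    intro y hy hyx
    by_contra hcon
    have := Finset.min'_le (V'.filter (fun y => ¬ y < x)) y (Finset.mem_filter.2 ⟨hy, hcon⟩)
    rw [← hx'def] at this
    exact absurd hyx (not_lt.2 this)
  have hrk' : SC_rk V' x' = SC_rk V' x := by
    unfold SC_rk
    congr 1
    ext y
    rw [Finset.mem_filter, Finset.mem_filter]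
    constructor
    · rintro ⟨h1, h2⟩; exact ⟨h1, hmin y h1 h2⟩
    · rintro ⟨h1, h2⟩; exact ⟨h1, lt_trans h2 hx'gt⟩
  have hns' : x' ∉ starts 1 V' := by
    intro h
    apply hiR
    rw [hR, hrk, ← hrk']
    exact Finset.mem_image_of_mem _ h
  rw [SC_mem_starts] at hns'
  push Not at hns'
  obtain ⟨r, hr, hre⟩ := hns' hx'V
  have h3 : r < x := by
    apply hmin r hr
    rw [Fin.lt_def]; omega
  rw [Fin.lt_def] at h3 hx'gt
  omega

private theorem SC_inj (V V' : Finset (Fin n)) (hc : V.card = V'.card)
    (hs : starts 1 V = starts 1 V') (hR : SC_R V = SC_R V') : V = V' := by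
  have key : ∀ m : ℕ, ∀ x : Fin n, (x : ℕ) = m → (x ∈ V ↔ x ∈ V') := by
    intro m
    induction m using Nat.strong_induction_on with
    | _ m ih =>
      intro x hxm
      have hlt : ∀ y, y < x → (y ∈ V ↔ y ∈ V') := by
        intro y hy
        rw [Fin.lt_def] at hy
        exact ih y (by omega) y rfl
      constructor
      · exact SC_step V V' hc hs hR x hlt
      · exact SC_step V' V hc.symm hs.symm hR.symm x (fun y hy => (hlt y hy).symm)
  ext x
  exact key x x rfl

/-- A set is determined by the set of its starts and by the set of the ranks (in the set) of its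
starts. -/
theorem card_starts_eq (v r : ℕ) :
    (univ.filter (fun V : Finset (Fin n) => V.card = v ∧ (starts 1 V).card = r)).card ≤
      n.choose r * 2 ^ v := by
  have hcard : ((Finset.powersetCard r (univ : Finset (Fin n))) ×ˢ
      (Finset.powerset (Finset.range v))).card = n.choose r * 2 ^ v := by
    rw [Finset.card_product, Finset.card_powersetCard, Finset.card_powerset, Finset.card_univ,
      Fintype.card_fin, Finset.card_range]
  rw [← hcard]
  apply Finset.card_le_card_of_injOn (fun V : Finset (Fin n) => (starts 1 V, SC_R V))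
  · intro V hV
    rw [Finset.mem_coe, Finset.mem_filter] at hV
    rw [Finset.mem_coe, Finset.mem_product, Finset.mem_powersetCard, Finset.mem_powerset]
    refine ⟨⟨Finset.subset_univ _, hV.2.2⟩, ?_⟩
    intro i hi
    change i ∈ SC_R V at hi
    unfold SC_R at hi
    rw [Finset.mem_image] at hi
    obtain ⟨s, hs, rfl⟩ := hi
    rw [Finset.mem_range, ← hV.2.1]
    exact SC_rk_lt V ((SC_mem_starts V s).1 hs).1
  · intro V hV V' hV' h
    rw [Finset.mem_coe, Finset.mem_filter] at hV hV'
    simp only [Prod.mk.injEq] at h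
    exact SC_inj V V' (hV.2.1.trans hV'.2.1.symm) h.1 h.2

private noncomputable def SC_ends (U : Finset (Fin n)) : Finset (Fin n) :=
  U.filter (fun s => ∀ r ∈ U, (s : ℕ) + 1 ≠ (r : ℕ))

/-- between an end and a later element there is a start -/
private theorem SC_between (U : Finset (Fin n)) (e y : Fin n) (he : e ∈ SC_ends U) (hy : y ∈ U)
    (hey : e < y) : ∃ w ∈ starts 1 U, e < w ∧ w ≤ y := by
  have hne : (U.filter (fun z => e < z)).Nonempty := ⟨y, Finset.mem_filter.2 ⟨hy, hey⟩⟩
  set w := (U.filter (fun z => e < z)).min' hne with hw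
  have hwm := Finset.min'_mem _ hne
  rw [← hw, Finset.mem_filter] at hwm
  have hwy : w ≤ y := Finset.min'_le _ y (Finset.mem_filter.2 ⟨hy, hey⟩)
  refine ⟨w, ?_, hwm.2, hwy⟩
  rw [SC_mem_starts]
  refine ⟨hwm.1, fun r hr hre => ?_⟩
  have hrw : ¬ e < r := by
    intro h
    have := Finset.min'_le (U.filter (fun z => e < z)) r (Finset.mem_filter.2 ⟨hr, h⟩)
    rw [← hw, Fin.le_def] at this
    omega
  rw [not_lt, Fin.le_def] at hrw
  have hew := hwm.2
  rw [Fin.lt_def] at hew
  have hre' : (r : ℕ) = (e : ℕ) := by omega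
  unfold SC_ends at he
  rw [Finset.mem_filter] at he
  exact he.2 w hwm.1 (by omega)

private theorem SC_first (U : Finset (Fin n)) (y : Fin n) (hy : y ∈ U) :
    ((starts 1 U).filter (fun s => s ≤ y)).Nonempty := by
  have hne : U.Nonempty := ⟨y, hy⟩
  refine ⟨U.min' hne, ?_⟩
  rw [Finset.mem_filter, SC_mem_starts]
  refine ⟨⟨Finset.min'_mem _ _, fun r hr hre => ?_⟩, Finset.min'_le _ y hy⟩
  have := Finset.min'_le U r hr
  rw [Fin.le_def] at this
  omega

private noncomputable def SC_last (U : Finset (Fin n)) (y : Fin n) : Fin n :=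
  if h : ((starts 1 U).filter (fun s => s ≤ y)).Nonempty then
    ((starts 1 U).filter (fun s => s ≤ y)).max' h else y

private theorem SC_last_mem (U : Finset (Fin n)) (y : Fin n) (hy : y ∈ U) :
    SC_last U y ∈ starts 1 U ∧ SC_last U y ≤ y ∧
      ∀ s ∈ starts 1 U, s ≤ y → s ≤ SC_last U y := by
  have h := SC_first U y hy
  unfold SC_last
  rw [dif_pos h]
  have hm := Finset.max'_mem _ h
  rw [Finset.mem_filter] at hm
  exact ⟨hm.1, hm.2, fun s hs hsy => Finset.le_max' _ s (Finset.mem_filter.2 ⟨hs, hsy⟩)⟩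

private theorem SC_card_ends (U : Finset (Fin n)) : (SC_ends U).card ≤ (starts 1 U).card := by
  apply Finset.card_le_card_of_injOn (SC_last U)
  · intro e he
    have heU : e ∈ U := by
      rw [Finset.mem_coe] at he
      unfold SC_ends at he
      exact (Finset.mem_filter.1 he).1
    exact (SC_last_mem U e heU).1
  · intro e he e' he' h
    rw [Finset.mem_coe] at he he'
    have heU : e ∈ U := by
      unfold SC_ends at he
      exact (Finset.mem_filter.1 he).1
    have heU' : e' ∈ U := by
      unfold SC_ends at he'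
      exact (Finset.mem_filter.1 he').1
    have h1 := SC_last_mem U e heU
    have h2 := SC_last_mem U e' heU'
    rcases lt_trichotomy e e' with hl | hl | hl
    · obtain ⟨w, hw, hew, hwe⟩ := SC_between U e e' he heU' hl
      have h3 := h2.2.2 w hw hwe
      rw [← h] at h3
      exact absurd (lt_of_lt_of_le hew (le_trans h3 h1.2.1)) (lt_irrefl _)
    · exact hl
    · obtain ⟨w, hw, hew, hwe⟩ := SC_between U e' e he' heU hl
      have h3 := h1.2.2 w hw hwe
      rw [h] at h3
      exact absurd (lt_of_lt_of_le hew (le_trans h3 h2.2.1)) (lt_irrefl _)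

private theorem SC_mem_iff (U : Finset (Fin n)) (y : Fin n) :
    y ∈ U ↔ ∃ s ∈ starts 1 U, s ≤ y ∧ ∀ e ∈ SC_ends U, s ≤ e → ¬ e < y := by
  constructor
  · intro hy
    have h1 := SC_last_mem U y hy
    refine ⟨SC_last U y, h1.1, h1.2.1, fun e he hse hey => ?_⟩
    obtain ⟨w, hw, hew, hwy⟩ := SC_between U e y he hy hey
    have := h1.2.2 w hw hwy
    exact absurd (lt_of_lt_of_le hew (le_trans this hse)) (lt_irrefl _)
  · rintro ⟨s, hs, hsy, hno⟩
    have hsU := ((SC_mem_starts U s).1 hs).1
    have key : ∀ m : ℕ, ∀ z : Fin n, (z : ℕ) = (s : ℕ) + m → z ≤ y → z ∈ U := by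
      intro m
      induction m with
      | zero =>
        intro z hz _
        have : z = s := Fin.ext (by omega)
        rw [this]; exact hsU
      | succ m ih =>
        intro z hz hzy
        have hlt : (s : ℕ) + m < n := by have := z.isLt; omega
        have hprev : (⟨(s : ℕ) + m, hlt⟩ : Fin n) ∈ U := by
          apply ih ⟨(s : ℕ) + m, hlt⟩ rfl
          rw [Fin.le_def] at hzy ⊢
          simp only
          omega
        by_contra hzU
        apply hno ⟨(s : ℕ) + m, hlt⟩
        · unfold SC_ends
          rw [Finset.mem_filter]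
          refine ⟨hprev, fun r hr hre => hzU ?_⟩
          have : z = r := Fin.ext (by simp only at hre; omega)
          rw [this]; exact hr
        · rw [Fin.le_def]; simp only; omega
        · rw [Fin.lt_def]; rw [Fin.le_def] at hzy; simp only; omega
    rw [Fin.le_def] at hsy
    exact key ((y : ℕ) - (s : ℕ)) y (by omega) le_rfl

private theorem SC_card_small (ρ : ℕ) :
    (univ.filter (fun S : Finset (Fin n) => S.card ≤ ρ)).card ≤ (n + 1) ^ ρ := by
  have h0 : (univ : Finset (Fin ρ → Option (Fin n))).card = (n + 1) ^ ρ := by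
    rw [Finset.card_univ, Fintype.card_fun, Fintype.card_option, Fintype.card_fin,
      Fintype.card_fin]
  rw [← h0]
  apply Finset.card_le_card_of_surjOn
    (fun f : Fin ρ → Option (Fin n) => univ.filter (fun a : Fin n => ∃ i, f i = some a))
  intro S hS
  rw [Finset.mem_coe, Finset.mem_filter] at hS
  have hS2 := hS.2
  let e := S.equivFin
  refine ⟨fun i => if h : (i : ℕ) < S.card then some (e.symm ⟨i, h⟩ : Fin n) else none,
    Finset.mem_coe.2 (Finset.mem_univ _), ?_⟩
  ext a
  simp only [Finset.mem_filter, Finset.mem_univ, true_and]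
  constructor
  · rintro ⟨i, hi⟩
    split_ifs at hi with h
    have := Option.some.inj hi
    rw [← this]
    exact (e.symm ⟨i, h⟩).2
  · intro ha
    refine ⟨⟨(e ⟨a, ha⟩ : ℕ), lt_of_lt_of_le (e ⟨a, ha⟩).isLt hS2⟩, ?_⟩
    have hlt : ((e ⟨a, ha⟩ : Fin S.card) : ℕ) < S.card := (e ⟨a, ha⟩).isLt
    rw [dif_pos hlt]
    simp

/-- A set is determined by its starts and its ends. -/
theorem card_starts_le (ρ : ℕ) :
    (univ.filter (fun U : Finset (Fin n) => (starts 1 U).card ≤ ρ)).card ≤
      (n + 1) ^ (2 * ρ) := by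
  have hprod : ((univ.filter (fun S : Finset (Fin n) => S.card ≤ ρ)) ×ˢ
      (univ.filter (fun S : Finset (Fin n) => S.card ≤ ρ))).card ≤ (n + 1) ^ (2 * ρ) := by
    rw [Finset.card_product, two_mul, pow_add]
    exact Nat.mul_le_mul (SC_card_small ρ) (SC_card_small ρ)
  refine le_trans ?_ hprod
  apply Finset.card_le_card_of_injOn (fun U : Finset (Fin n) => (starts 1 U, SC_ends U))
  · intro U hU
    rw [Finset.mem_coe, Finset.mem_filter] at hU
    rw [Finset.mem_coe, Finset.mem_product, Finset.mem_filter, Finset.mem_filter]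
    exact ⟨⟨Finset.mem_univ _, hU.2⟩, ⟨Finset.mem_univ _, le_trans (SC_card_ends U) hU.2⟩⟩
  · intro U _ U' _ h
    simp only [Prod.mk.injEq] at h
    ext y
    rw [SC_mem_iff U y, SC_mem_iff U' y, h.1, h.2]

/-- starts in direction `π` are the starts of the image -/
theorem starts_image (π : Equiv.Perm (Fin n)) (V : Finset (Fin n)) :
    (starts π V).card = (starts 1 (V.image π)).card := by
  have h : starts 1 (V.image π) = (starts π V).image π := by
    ext x
    rw [SC_mem_starts, Finset.mem_image, Finset.mem_image]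
    constructor
    · rintro ⟨⟨s, hs, rfl⟩, h2⟩
      refine ⟨s, ?_, rfl⟩
      unfold starts
      rw [Finset.mem_filter]
      exact ⟨hs, fun r hr => h2 (π r) (Finset.mem_image_of_mem _ hr)⟩
    · rintro ⟨s, hs, rfl⟩
      unfold starts at hs
      rw [Finset.mem_filter] at hs
      refine ⟨⟨s, hs.1, rfl⟩, fun r hr => ?_⟩
      rw [Finset.mem_image] at hr
      obtain ⟨r', hr', rfl⟩ := hr
      exact hs.2 r' hr'
  rw [h, Finset.card_image_of_injective _ π.injective]

end Pool.Agent.H67.AE
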