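import Pool.Agent.H67.AE.Count
import Pool.Agent.H67.AE.StartsCount
import Pool.Agent.H67.AE.ClosedCount

/-! Almost all permutations satisfy `T4`. -/

set_option autoImplicit false

open Finset Classical

namespace Pool.Agent.H67.AE

private theorem t4_multi (r r' e : ℕ) :
    (r + r' + e).factorial ≤ 3 ^ (r + r' + e) * (r.factorial * r'.factorial * e.factorial) := by
  have h1 : (r + r' + e).factorial =
      (r + r' + e).choose r * r.factorial * (r' + e).factorial := by
    have := Nat.choose_mul_factorial_mul_factorial (n := r + r' + e) (k := r) (by omega)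
    rw [← this]
    congr 2
    omega
  have h2 : (r' + e).factorial = (r' + e).choose r' * r'.factorial * e.factorial := by
    have := Nat.choose_mul_factorial_mul_factorial (n := r' + e) (k := r') (by omega)
    rw [← this]
    congr 2
    omega
  have h3 : (r' + e).choose r' ≤ 2 ^ (r' + e) := Nat.choose_le_two_pow _ _
  have h4 : (r + r' + e).choose r * 2 ^ (r' + e) ≤ 3 ^ (r + r' + e) := by
    have h5 : (3 : ℕ) ^ (r + r' + e) = ∑ m ∈ range (r + r' + e + 1),
        1 ^ m * 2 ^ (r + r' + e - m) * (r + r' + e).choose m := by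
      exact add_pow (1 : ℕ) 2 (r + r' + e)
    rw [h5]
    refine le_trans ?_ (single_le_sum (f := fun m => 1 ^ m * 2 ^ (r + r' + e - m) *
      (r + r' + e).choose m) (fun _ _ => Nat.zero_le _) (mem_range.2 (by omega : r < r + r' + e + 1)))
    simp only [one_pow, one_mul]
    rw [mul_comm]
    have : r + r' + e - r = r' + e := by omega
    rw [this]
  calc (r + r' + e).factorial
      = (r + r' + e).choose r * r.factorial * ((r' + e).choose r' * r'.factorial * e.factorial) := by
        rw [h1, h2]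
    _ = ((r + r' + e).choose r * (r' + e).choose r') * (r.factorial * r'.factorial * e.factorial) := by
        ring
    _ ≤ 3 ^ (r + r' + e) * (r.factorial * r'.factorial * e.factorial) := by
        refine Nat.mul_le_mul_right _ (le_trans (Nat.mul_le_mul_left _ h3) h4)

private theorem t4_choose (n r : ℕ) : n.choose r * r.factorial ≤ n ^ r := by
  rw [mul_comm, ← Nat.descFactorial_eq_factorial_mul_choose]
  exact Nat.descFactorial_le_pow _ _

private theorem t4_term (n a v r r' : ℕ) (ha : 2 * 96 ^ 12 ≤ a) (hn : a ^ 90 ≤ n)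
    (hv : v ≤ 2 * a ^ 89) (hr : 12 * (r + r') ≤ 11 * v) :
    (n.choose r * 2 ^ v) * ((n.choose r' * 2 ^ v) * (v.factorial * (n - v).factorial)) * 4 ^ v ≤
      n.factorial := by
  obtain ⟨e, he⟩ : ∃ e, v = r + r' + e := ⟨v - (r + r'), by omega⟩
  have he12 : v ≤ 12 * e := by omega
  have ha0 : 0 < a := lt_of_lt_of_le (by norm_num) ha
  have hn0 : 0 < n := lt_of_lt_of_le (pow_pos ha0 _) hn
  have hva : v * a ≤ 2 * n := by
    calc v * a ≤ 2 * a ^ 89 * a := Nat.mul_le_mul_right _ hv
      _ = 2 * a ^ 90 := by ring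
      _ ≤ 2 * n := Nat.mul_le_mul_left _ hn
  have h2v : 2 * v ≤ n := by
    have h4 : 4 ≤ a := le_trans (by norm_num) ha
    calc 2 * v ≤ 4 * a ^ 89 := by omega
      _ ≤ a * a ^ 89 := Nat.mul_le_mul_right _ h4
      _ = a ^ 90 := by ring
      _ ≤ n := hn
  have hratio := fact_ratio (n := n) v h2v
  have hmulti := t4_multi r r' e
  rw [← he] at hmulti
  have hC1 := t4_choose n r
  have hC2 := t4_choose n r'
  have hef : e.factorial ≤ v ^ e :=
    le_trans (Nat.factorial_le_pow e) (Nat.pow_le_pow_left (by omega) _)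
  have hpos : 0 < n ^ e * a ^ e := Nat.mul_pos (pow_pos hn0 _) (pow_pos ha0 _)
  refine Nat.le_of_mul_le_mul_right ?_ hpos
  have hae : 2 ^ e * 96 ^ v ≤ a ^ e := by
    calc 2 ^ e * 96 ^ v ≤ 2 ^ e * 96 ^ (12 * e) :=
          Nat.mul_le_mul_left _ (Nat.pow_le_pow_right (by norm_num) he12)
      _ = (2 * 96 ^ 12) ^ e := by rw [mul_pow, ← pow_mul]
      _ ≤ a ^ e := Nat.pow_le_pow_left ha _
  calc (n.choose r * 2 ^ v) * ((n.choose r' * 2 ^ v) * (v.factorial * (n - v).factorial)) * 4 ^ v *
        (n ^ e * a ^ e)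
      = (n.choose r * n.choose r' * (2 ^ v * 2 ^ v) * (n - v).factorial * 4 ^ v *
        (n ^ e * a ^ e)) * v.factorial := by ring
    _ ≤ (n.choose r * n.choose r' * (2 ^ v * 2 ^ v) * (n - v).factorial * 4 ^ v *
        (n ^ e * a ^ e)) * (3 ^ v * (r.factorial * r'.factorial * e.factorial)) :=
        Nat.mul_le_mul_left _ hmulti
    _ = ((n.choose r * r.factorial) * (n.choose r' * r'.factorial)) *
        ((2 ^ v * 2 ^ v) * (n - v).factorial * 4 ^ v * (n ^ e * a ^ e) * 3 ^ v * e.factorial) := by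
        ring
    _ ≤ (n ^ r * n ^ r') *
        ((2 ^ v * 2 ^ v) * (n - v).factorial * 4 ^ v * (n ^ e * a ^ e) * 3 ^ v * e.factorial) :=
        Nat.mul_le_mul_right _ (Nat.mul_le_mul hC1 hC2)
    _ = ((n - v).factorial * n ^ v) * ((2 ^ v * 2 ^ v * 4 ^ v * 3 ^ v) * (a ^ e * e.factorial)) := by
        have : n ^ v = n ^ r * n ^ r' * n ^ e := by rw [he, pow_add, pow_add]
        rw [this]
        ring
    _ ≤ (2 ^ v * n.factorial) * ((2 ^ v * 2 ^ v * 4 ^ v * 3 ^ v) * (a ^ e * v ^ e)) :=
        Nat.mul_le_mul hratio (Nat.mul_le_mul_left _ (Nat.mul_le_mul_left _ hef))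
    _ = n.factorial * (96 ^ v * (v * a) ^ e) := by
        have : (96 : ℕ) ^ v = 2 ^ v * (2 ^ v * 2 ^ v * 4 ^ v * 3 ^ v) := by
          rw [← mul_pow, ← mul_pow, ← mul_pow, ← mul_pow]
          norm_num
        rw [this, mul_pow]
        ring
    _ ≤ n.factorial * (96 ^ v * (2 * n) ^ e) :=
        Nat.mul_le_mul_left _ (Nat.mul_le_mul_left _ (Nat.pow_le_pow_left hva _))
    _ = n.factorial * ((2 ^ e * 96 ^ v) * n ^ e) := by
        rw [mul_pow]
        ring
    _ ≤ n.factorial * (a ^ e * n ^ e) :=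
        Nat.mul_le_mul_left _ (Nat.mul_le_mul_right _ hae)
    _ = n.factorial * (n ^ e * a ^ e) := by ring

private theorem t4_count (n v r r' : ℕ) :
    (univ.filter (fun π : Equiv.Perm (Fin n) => ∃ V : Finset (Fin n), V.card = v ∧
      (starts 1 V).card = r ∧ (starts π V).card = r')).card ≤
      (n.choose r * 2 ^ v) * ((n.choose r' * 2 ^ v) * (v.factorial * (n - v).factorial)) := by
  have hsub : (univ.filter (fun π : Equiv.Perm (Fin n) => ∃ V : Finset (Fin n), V.card = v ∧
      (starts 1 V).card = r ∧ (starts π V).card = r')) ⊆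
      (univ.filter (fun V : Finset (Fin n) => V.card = v ∧ (starts 1 V).card = r)).biUnion
        (fun V => (univ.filter (fun Q : Finset (Fin n) => Q.card = v ∧
          (starts 1 Q).card = r')).biUnion
          (fun Q => univ.filter (fun π : Equiv.Perm (Fin n) => V.image π = Q))) := by
    intro π hπ
    obtain ⟨V, h1, h2, h3⟩ := (mem_filter.1 hπ).2
    refine mem_biUnion.2 ⟨V, mem_filter.2 ⟨mem_univ _, h1, h2⟩,
      mem_biUnion.2 ⟨V.image π, mem_filter.2 ⟨mem_univ _, ?_, ?_⟩,
        mem_filter.2 ⟨mem_univ _, rfl⟩⟩⟩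
    · rw [Finset.card_image_of_injective _ π.injective, h1]
    · rw [← starts_image, h3]
  refine le_trans (card_le_card hsub) (le_trans card_biUnion_le ?_)
  refine le_trans (sum_le_card_nsmul _ _
    ((n.choose r' * 2 ^ v) * (v.factorial * (n - v).factorial)) ?_) ?_
  · intro V hV
    have hV1 := (mem_filter.1 hV).2.1
    refine le_trans card_biUnion_le (le_trans (sum_le_card_nsmul _ _
      (v.factorial * (n - v).factorial) ?_) ?_)
    · intro Q _
      have := card_image V Q
      rwa [hV1] at this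
    · rw [smul_eq_mul]
      exact Nat.mul_le_mul_right _ (card_starts_eq v r')
  · rw [smul_eq_mul]
    exact Nat.mul_le_mul_right _ (card_starts_eq v r)

private theorem t4_pow (v : ℕ) (hv : 10 ≤ v) : v ^ 3 ≤ 2 ^ v := by
  induction v, hv using Nat.le_induction with
  | base => norm_num
  | succ v hv ih =>
    have h1 : (v + 1) ^ 3 ≤ 2 * v ^ 3 := by
      have h2 : 10 * v ^ 2 ≤ v ^ 3 := by
        calc 10 * v ^ 2 ≤ v * v ^ 2 := Nat.mul_le_mul_right _ hv
          _ = v ^ 3 := by ring
      nlinarith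
    calc (v + 1) ^ 3 ≤ 2 * v ^ 3 := h1
      _ ≤ 2 * 2 ^ v := Nat.mul_le_mul_left _ ih
      _ = 2 ^ (v + 1) := by ring

/-- A closed `V` with `2 a < v = #V` and `#(F2 π 1 1) ≤ a` has `12 (r + r') ≤ 11 v` where `r`, `r'`
are its numbers of starts (`closed_starts`). Union bound over `(V, V.image π)`
(`card_starts_eq`, `starts_image`, `card_image`):
`∑ v r r', n.choose r * 2^v * (n.choose r' * 2^v) * (v! (n-v)!)`, each term is at most
`n! 24^v (v/n)^(v-r-r') ≤ n! 4^(-v)` because `v/n ≤ 2/a` and `a ≥ 2 * 96^12`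
(`v! ≤ 3^v r! r'! (v-r-r')!`, `n.choose r * r! ≤ n^r`, `fact_ratio`). -/
theorem probT4 (n a : ℕ) (ha : 2 * 96 ^ 12 ≤ a) (h1 : a ^ 90 ≤ n) :
    a * (univ.filter (fun π : Equiv.Perm (Fin n) =>
      (F2 π 1 1).card ≤ a ∧ ¬ T4 π (2 * a) (2 * a ^ 89))).card ≤ n.factorial := by
  have hsub : (univ.filter (fun π : Equiv.Perm (Fin n) =>
      (F2 π 1 1).card ≤ a ∧ ¬ T4 π (2 * a) (2 * a ^ 89))) ⊆
      (Ioc (2 * a) (2 * a ^ 89)).biUnion (fun v =>
        ((range (v + 1) ×ˢ range (v + 1)).filter (fun p => 12 * (p.1 + p.2) ≤ 11 * v)).biUnion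
          (fun p => univ.filter (fun π : Equiv.Perm (Fin n) => ∃ V : Finset (Fin n), V.card = v ∧
            (starts 1 V).card = p.1 ∧ (starts π V).card = p.2))) := by
    intro π hπ
    obtain ⟨hF, hT⟩ := (mem_filter.1 hπ).2
    unfold T4 at hT
    push Not at hT
    obtain ⟨V, hV, hV1, hV2⟩ := hT
    have hc := closed_starts π V hV
    have hr : (starts 1 V).card ≤ V.card := card_le_card (filter_subset _ _)
    have hr' : (starts π V).card ≤ V.card := card_le_card (filter_subset _ _)
    refine mem_biUnion.2 ⟨V.card, mem_Ioc.2 ⟨hV2, hV1⟩, mem_biUnion.2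
      ⟨((starts 1 V).card, (starts π V).card), mem_filter.2 ⟨mem_product.2
        ⟨mem_range.2 ?_, mem_range.2 ?_⟩, ?_⟩, mem_filter.2 ⟨mem_univ _, V, rfl, rfl, rfl⟩⟩⟩
    · exact Nat.lt_succ_of_le hr
    · exact Nat.lt_succ_of_le hr'
    · change 12 * ((starts 1 V).card + (starts π V).card) ≤ 11 * V.card
      omega
  have hstep : ∀ v ∈ Ioc (2 * a) (2 * a ^ 89),
      a * (((range (v + 1) ×ˢ range (v + 1)).filter
        (fun p => 12 * (p.1 + p.2) ≤ 11 * v)).biUnion
          (fun p => univ.filter (fun π : Equiv.Perm (Fin n) => ∃ V : Finset (Fin n), V.card = v ∧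
            (starts 1 V).card = p.1 ∧ (starts π V).card = p.2))).card * 2 ^ v ≤ n.factorial := by
    intro v hv
    obtain ⟨hv1, hv2⟩ := mem_Ioc.1 hv
    have hterm : ∀ p ∈ (range (v + 1) ×ˢ range (v + 1)).filter
        (fun p : ℕ × ℕ => 12 * (p.1 + p.2) ≤ 11 * v),
        (univ.filter (fun π : Equiv.Perm (Fin n) => ∃ V : Finset (Fin n), V.card = v ∧
            (starts 1 V).card = p.1 ∧ (starts π V).card = p.2)).card ≤ n.factorial / 4 ^ v := by
      intro p hp
      rw [Nat.le_div_iff_mul_le (pow_pos (by norm_num) _)]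
      exact le_trans (Nat.mul_le_mul_right _ (t4_count n v p.1 p.2))
        (t4_term n a v p.1 p.2 ha h1 hv2 (mem_filter.1 hp).2)
    have hcard : ((range (v + 1) ×ˢ range (v + 1)).filter
        (fun p : ℕ × ℕ => 12 * (p.1 + p.2) ≤ 11 * v)).card ≤ (v + 1) ^ 2 := by
      refine le_trans (card_filter_le _ _) ?_
      rw [card_product, card_range, pow_two]
    have h2 := le_trans card_biUnion_le (sum_le_card_nsmul _ _ _ hterm)
    rw [smul_eq_mul] at h2
    have h3 := le_trans h2 (Nat.mul_le_mul_right (n.factorial / 4 ^ v) hcard)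
    have h100 : 100 ≤ a := le_trans (by norm_num) ha
    have h4 : a * (v + 1) ^ 2 ≤ 2 ^ v := by
      refine le_trans ?_ (t4_pow v (by omega))
      have h5 : 2 * a ≤ v := by omega
      have h6 : (v + 1) ^ 2 ≤ 2 * v ^ 2 := by nlinarith
      calc a * (v + 1) ^ 2 ≤ a * (2 * v ^ 2) := Nat.mul_le_mul_left _ h6
        _ = (2 * a) * v ^ 2 := by ring
        _ ≤ v * v ^ 2 := Nat.mul_le_mul_right _ h5
        _ = v ^ 3 := by ring
    calc a * _ * 2 ^ v ≤ a * ((v + 1) ^ 2 * (n.factorial / 4 ^ v)) * 2 ^ v :=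
          Nat.mul_le_mul_right _ (Nat.mul_le_mul_left _ h3)
      _ = (a * (v + 1) ^ 2) * 2 ^ v * (n.factorial / 4 ^ v) := by ring
      _ ≤ 2 ^ v * 2 ^ v * (n.factorial / 4 ^ v) :=
          Nat.mul_le_mul_right _ (Nat.mul_le_mul_right _ h4)
      _ = 4 ^ v * (n.factorial / 4 ^ v) := by
          rw [← mul_pow]
          norm_num
      _ ≤ n.factorial := Nat.mul_div_le _ _
  have h5 := le_trans (card_le_card hsub) card_biUnion_le
  have h6 : (a : ℝ) * ((univ.filter (fun π : Equiv.Perm (Fin n) =>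
      (F2 π 1 1).card ≤ a ∧ ¬ T4 π (2 * a) (2 * a ^ 89))).card : ℝ) ≤ (n.factorial : ℝ) := by
    calc (a : ℝ) * ((univ.filter (fun π : Equiv.Perm (Fin n) =>
          (F2 π 1 1).card ≤ a ∧ ¬ T4 π (2 * a) (2 * a ^ 89))).card : ℝ)
        ≤ (a : ℝ) * ∑ v ∈ Ioc (2 * a) (2 * a ^ 89),
          ((((range (v + 1) ×ˢ range (v + 1)).filter
            (fun p => 12 * (p.1 + p.2) ≤ 11 * v)).biUnion
            (fun p => univ.filter (fun π : Equiv.Perm (Fin n) => ∃ V : Finset (Fin n),
              V.card = v ∧ (starts 1 V).card = p.1 ∧ (starts π V).card = p.2))).card : ℝ) := by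
          refine mul_le_mul_of_nonneg_left ?_ (Nat.cast_nonneg _)
          exact_mod_cast h5
      _ = ∑ v ∈ Ioc (2 * a) (2 * a ^ 89), (a : ℝ) *
          ((((range (v + 1) ×ˢ range (v + 1)).filter
            (fun p => 12 * (p.1 + p.2) ≤ 11 * v)).biUnion
            (fun p => univ.filter (fun π : Equiv.Perm (Fin n) => ∃ V : Finset (Fin n),
              V.card = v ∧ (starts 1 V).card = p.1 ∧ (starts π V).card = p.2))).card : ℝ) := by
          rw [mul_sum]
      _ ≤ ∑ v ∈ Ioc (2 * a) (2 * a ^ 89), (n.factorial : ℝ) * (1 / 2) ^ v := by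
          refine sum_le_sum fun v hv => ?_
          have h7 := hstep v hv
          have h8 : ((a * (((range (v + 1) ×ˢ range (v + 1)).filter
            (fun p => 12 * (p.1 + p.2) ≤ 11 * v)).biUnion
            (fun p => univ.filter (fun π : Equiv.Perm (Fin n) => ∃ V : Finset (Fin n),
              V.card = v ∧ (starts 1 V).card = p.1 ∧ (starts π V).card = p.2))).card * 2 ^ v
              : ℕ) : ℝ) ≤ (n.factorial : ℝ) := by exact_mod_cast h7
          push_cast at h8
          rw [one_div, inv_pow, ← div_eq_mul_inv, le_div_iff₀ (by positivity)]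
          exact h8
      _ = (n.factorial : ℝ) * ∑ v ∈ Ioc (2 * a) (2 * a ^ 89), (1 / 2 : ℝ) ^ v := by
          rw [mul_sum]
      _ ≤ (n.factorial : ℝ) * 1 := by
          refine mul_le_mul_of_nonneg_left ?_ (Nat.cast_nonneg _)
          have h9 : ∀ N : ℕ, ∑ v ∈ Ioc 0 N, (1 / 2 : ℝ) ^ v = 1 - (1 / 2) ^ N := by
            intro N
            induction N with
            | zero => simp
            | succ N ih =>
              rw [sum_Ioc_succ_top (Nat.zero_le N), ih]
              ring
          refine le_trans (sum_le_sum_of_subset_of_nonneg (Ioc_subset_Ioc_left (Nat.zero_le _))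
            fun _ _ _ => by positivity) ?_
          rw [h9]
          have : (0 : ℝ) ≤ (1 / 2) ^ (2 * a ^ 89) := by positivity
          linarith
      _ = (n.factorial : ℝ) := mul_one _
  exact_mod_cast h6

end Pool.Agent.H67.AE
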