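import Pool.Agent.H67.AE.Count
import Pool.Agent.H67.AE.StartsCount

/-! Almost all permutations satisfy `T6`. -/

set_option autoImplicit false

open Finset Classical

namespace Pool.Agent.H67.AE

theorem two_pow_le_centralBinom (m : ℕ) : 2 ^ m ≤ m.centralBinom := by
  induction m with
  | zero => simp
  | succ m ih =>
    have h1 := Nat.succ_mul_centralBinom_succ m
    have h2 : (m + 1) * (2 * m.centralBinom) ≤ (m + 1) * (m + 1).centralBinom := by
      rw [h1]
      have : (m + 1) * (2 * m.centralBinom) = 2 * (m + 1) * m.centralBinom := by ring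
      rw [this]
      refine Nat.mul_le_mul_right _ ?_
      omega
    have h3 := Nat.le_of_mul_le_mul_left h2 (Nat.succ_pos m)
    rw [pow_succ]
    omega

theorem two_pow_le_choose {n u m : ℕ} (h1 : m ≤ u) (h2 : u + m ≤ n) : 2 ^ m ≤ n.choose u := by
  obtain ⟨w, rfl⟩ : ∃ w, n = u + w := ⟨n - u, by omega⟩
  have hw : m ≤ w := by omega
  have h3 := two_pow_le_centralBinom m
  rw [Nat.centralBinom_eq_two_mul_choose, two_mul] at h3
  have h4 : (m + m).choose m ≤ (m + w).choose m := Nat.choose_le_choose m (by omega)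
  have h5 : (m + w).choose m = (m + w).choose w := Nat.choose_symm_add
  have h6 : (m + w).choose w ≤ (u + w).choose w := Nat.choose_le_choose w (by omega)
  have h7 : (u + w).choose u = (u + w).choose w := Nat.choose_symm_add
  rw [h7]
  rw [h5] at h4
  exact h3.trans (h4.trans h6)

/-- union bound over `(U, U.image π)`: at most `(n+1)^(4ρ)` pairs, each with
`u! (n-u)! = n! / n.choose u ≤ n! / 2^m0` permutations if `m0 < u` and `m0 < n - u` -/
theorem probT6 (n a ρ m0 : ℕ) (hnum : a * (n + 1) ^ (4 * ρ) ≤ 2 ^ m0) :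
    a * (univ.filter (fun π : Equiv.Perm (Fin n) => ¬ T6 π ρ m0)).card ≤ n.factorial := by
  set S : Finset (Finset (Fin n)) :=
    univ.filter (fun U : Finset (Fin n) => (starts 1 U).card ≤ ρ) with hS
  have hSc : S.card ≤ (n + 1) ^ (2 * ρ) := card_starts_le ρ
  set P : Finset (Finset (Fin n) × Finset (Fin n)) :=
    (S ×ˢ S).filter (fun p => m0 < p.1.card ∧ m0 < (univ \ p.1).card) with hP
  have hPc : P.card ≤ (n + 1) ^ (4 * ρ) := by
    refine (Finset.card_filter_le _ _).trans ?_
    rw [Finset.card_product]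
    refine (Nat.mul_le_mul hSc hSc).trans (le_of_eq ?_)
    rw [← pow_add]
    congr 1
    omega
  have hsub : (univ.filter (fun π : Equiv.Perm (Fin n) => ¬ T6 π ρ m0)) ⊆
      P.biUnion (fun p => univ.filter (fun π : Equiv.Perm (Fin n) => p.1.image π = p.2)) := by
    intro π hπ
    rw [Finset.mem_filter] at hπ
    have h1 := hπ.2
    unfold T6 at h1
    push Not at h1
    obtain ⟨U, hU1, hU2, hU3, hU4⟩ := h1
    rw [Finset.mem_biUnion]
    refine ⟨(U, U.image π), ?_, Finset.mem_filter.2 ⟨Finset.mem_univ _, rfl⟩⟩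
    rw [hP, Finset.mem_filter, Finset.mem_product, hS, Finset.mem_filter, Finset.mem_filter]
    refine ⟨⟨⟨Finset.mem_univ _, hU1⟩, Finset.mem_univ _, ?_⟩, hU3, hU4⟩
    rw [← starts_image]
    exact hU2
  have hone : ∀ p ∈ P, 2 ^ m0 *
      (univ.filter (fun π : Equiv.Perm (Fin n) => p.1.image π = p.2)).card ≤ n.factorial := by
    intro p hp
    rw [hP, Finset.mem_filter] at hp
    obtain ⟨_, h1, h2⟩ := hp
    have h3 : (univ \ p.1).card + p.1.card = n := by
      have := Finset.card_sdiff_add_card_eq_card (Finset.subset_univ p.1)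
      rwa [Finset.card_univ, Fintype.card_fin] at this
    have h4 : 2 ^ m0 ≤ n.choose p.1.card := two_pow_le_choose (by omega) (by omega)
    have h5 := card_image p.1 p.2
    have h6 : n.choose p.1.card * (p.1.card).factorial * (n - p.1.card).factorial =
        n.factorial := Nat.choose_mul_factorial_mul_factorial (by omega)
    refine (Nat.mul_le_mul h4 h5).trans (le_of_eq ?_)
    rw [← h6]
    ring
  have htot : 2 ^ m0 * (univ.filter (fun π : Equiv.Perm (Fin n) => ¬ T6 π ρ m0)).card ≤
      (n + 1) ^ (4 * ρ) * n.factorial := by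
    calc 2 ^ m0 * (univ.filter (fun π : Equiv.Perm (Fin n) => ¬ T6 π ρ m0)).card
        ≤ 2 ^ m0 * ∑ p ∈ P,
          (univ.filter (fun π : Equiv.Perm (Fin n) => p.1.image π = p.2)).card :=
          Nat.mul_le_mul_left _ ((Finset.card_le_card hsub).trans Finset.card_biUnion_le)
      _ = ∑ p ∈ P, 2 ^ m0 *
          (univ.filter (fun π : Equiv.Perm (Fin n) => p.1.image π = p.2)).card := by
          rw [Finset.mul_sum]
      _ ≤ ∑ _p ∈ P, n.factorial := Finset.sum_le_sum hone
      _ = P.card * n.factorial := by rw [Finset.sum_const, smul_eq_mul]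
      _ ≤ (n + 1) ^ (4 * ρ) * n.factorial := Nat.mul_le_mul_right _ hPc
  have hpos : 0 < (n + 1) ^ (4 * ρ) := by positivity
  refine Nat.le_of_mul_le_mul_left ?_ hpos
  calc (n + 1) ^ (4 * ρ) * (a * (univ.filter (fun π : Equiv.Perm (Fin n) => ¬ T6 π ρ m0)).card)
      = (a * (n + 1) ^ (4 * ρ)) *
        (univ.filter (fun π : Equiv.Perm (Fin n) => ¬ T6 π ρ m0)).card := by ring
    _ ≤ 2 ^ m0 * (univ.filter (fun π : Equiv.Perm (Fin n) => ¬ T6 π ρ m0)).card :=
        Nat.mul_le_mul_right _ hnum
    _ ≤ (n + 1) ^ (4 * ρ) * n.factorial := htot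

end Pool.Agent.H67.AE
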