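import Mathlib

/-! The numerical fact for an arbitrary base larger than 2. -/

set_option autoImplicit false

namespace Pool.Agent.H67.AE

private theorem num_polyK (K : ℕ) : ∃ a0 : ℕ, ∀ a : ℕ, a0 ≤ a → (4 * a ^ 90) ^ K ≤ 2 ^ a := by
  have h := tendsto_pow_const_div_const_pow_of_one_lt (90 * K) (r := (2 : ℝ)) one_lt_two
  have h2 := h.const_mul ((4 : ℝ) ^ K)
  rw [mul_zero] at h2
  have h3 := h2.eventually (ge_mem_nhds (zero_lt_one))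
  rw [Filter.eventually_atTop] at h3
  obtain ⟨a0, h0⟩ := h3
  refine ⟨a0, fun a ha => ?_⟩
  have h4 := h0 a ha
  have h5 : (0 : ℝ) < 2 ^ a := by positivity
  rw [← mul_div_assoc, div_le_one h5] at h4
  have h6 : ((4 * a ^ 90 : ℝ)) ^ K = (4 : ℝ) ^ K * (a : ℝ) ^ (90 * K) := by
    rw [mul_pow, ← pow_mul]
  have h7 : (((4 * a ^ 90) ^ K : ℕ) : ℝ) ≤ ((2 ^ a : ℕ) : ℝ) := by
    push_cast
    rw [h6]
    exact h4
  exact_mod_cast h7

/-- for large `a` and `a^90 ≤ n ≤ 2 a^90` -/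
theorem numerics_c (c : ℝ) (hc : 2 < c) : ∃ a0 : ℕ, ∀ a n : ℕ, a0 ≤ a → a ^ 90 ≤ n →
    n ≤ 2 * a ^ 90 →
    (((2 ^ n * (1 + (n + 1) ^ (a ^ 89) * 4 ^ (a ^ 89) * (a ^ 89).factorial) *
      (1 + (n + 1) ^ (2 * (2 * a))) ^ (2 * a + 1) : ℕ)) : ℝ) ≤ c ^ n := by
  -- choose `m` with `2 ≤ (c/2)^m`
  have hc1 : 1 < c / 2 := by linarith
  obtain ⟨m, hm⟩ := pow_unbounded_of_one_lt (2 : ℝ) hc1
  have hm0 : m ≠ 0 := by
    rintro rfl
    norm_num at hm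
  obtain ⟨b, hb⟩ := num_polyK (20 * m)
  refine ⟨max b 1, fun a n ha h1 h2 => ?_⟩
  have hab : b ≤ a := le_trans (le_max_left _ _) ha
  have ha1 : 1 ≤ a := le_trans (le_max_right _ _) ha
  have hP := hb a hab
  have e90 : a ^ 90 = a * a ^ 89 := by rw [show 90 = 89 + 1 from rfl, pow_succ]; ring
  have p89 : 1 ≤ a ^ 89 := Nat.one_le_pow _ _ ha1
  have p90 : 1 ≤ a ^ 90 := Nat.one_le_pow _ _ ha1
  have a89 : a ≤ a ^ 89 := Nat.le_self_pow (by norm_num) _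
  set P : ℕ := 4 * a ^ 90 with hPdef
  have hP4 : 4 ≤ P := by omega
  have hP1 : 1 ≤ P := by omega
  have hnP : n + 1 ≤ P := by omega
  have f1 : (a ^ 89).factorial ≤ P ^ (a ^ 89) := by
    refine le_trans (Nat.factorial_le_pow _) (Nat.pow_le_pow_left ?_ _)
    have : a ^ 89 ≤ a ^ 90 := Nat.pow_le_pow_right ha1 (by norm_num)
    omega
  have f2 : (n + 1) ^ (a ^ 89) ≤ P ^ (a ^ 89) := Nat.pow_le_pow_left hnP _
  have f3 : 4 ^ (a ^ 89) ≤ P ^ (a ^ 89) := Nat.pow_le_pow_left hP4 _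
  have f4 : 1 + (n + 1) ^ (a ^ 89) * 4 ^ (a ^ 89) * (a ^ 89).factorial ≤
      P ^ (3 * a ^ 89 + 1) := by
    calc 1 + (n + 1) ^ (a ^ 89) * 4 ^ (a ^ 89) * (a ^ 89).factorial
        ≤ 1 + P ^ (a ^ 89) * P ^ (a ^ 89) * P ^ (a ^ 89) := by gcongr
      _ = 1 + P ^ (3 * a ^ 89) := by
        rw [← pow_add, ← pow_add]; congr 2; ring
      _ ≤ P ^ (3 * a ^ 89) + P ^ (3 * a ^ 89) := by
        have : 1 ≤ P ^ (3 * a ^ 89) := Nat.one_le_pow _ _ hP1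
        omega
      _ = P ^ (3 * a ^ 89) * 2 := by ring
      _ ≤ P ^ (3 * a ^ 89) * P := by gcongr; omega
      _ = P ^ (3 * a ^ 89 + 1) := (pow_succ P (3 * a ^ 89)).symm
  have f5 : (1 + (n + 1) ^ (2 * (2 * a))) ^ (2 * a + 1) ≤
      P ^ ((4 * a + 1) * (2 * a + 1)) := by
    rw [pow_mul P (4 * a + 1) (2 * a + 1)]
    refine Nat.pow_le_pow_left ?_ _
    calc 1 + (n + 1) ^ (2 * (2 * a)) ≤ 1 + P ^ (2 * (2 * a)) := by gcongr
      _ = 1 + P ^ (4 * a) := by congr 2; ring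
      _ ≤ P ^ (4 * a) + P ^ (4 * a) := by
        have : 1 ≤ P ^ (4 * a) := Nat.one_le_pow _ _ hP1
        omega
      _ = P ^ (4 * a) * 2 := by ring
      _ ≤ P ^ (4 * a) * P := by gcongr; omega
      _ = P ^ (4 * a + 1) := by rw [pow_succ]
  set X : ℕ := (1 + (n + 1) ^ (a ^ 89) * 4 ^ (a ^ 89) * (a ^ 89).factorial) *
    (1 + (n + 1) ^ (2 * (2 * a))) ^ (2 * a + 1) with hX
  have f6 : X ≤ P ^ (20 * a ^ 89) := by
    calc X ≤ P ^ (3 * a ^ 89 + 1) * P ^ ((4 * a + 1) * (2 * a + 1)) :=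
          Nat.mul_le_mul f4 f5
      _ = P ^ (3 * a ^ 89 + 1 + (4 * a + 1) * (2 * a + 1)) := by rw [← pow_add]
      _ ≤ P ^ (20 * a ^ 89) := by
        refine Nat.pow_le_pow_right hP1 ?_
        have g1 : a * a ≤ a ^ 89 := by
          calc a * a = a ^ 2 := by ring
            _ ≤ a ^ 89 := Nat.pow_le_pow_right ha1 (by norm_num)
        have g2 : (4 * a + 1) * (2 * a + 1) = 8 * (a * a) + 6 * a + 1 := by ring
        rw [g2]; omega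
  have f7 : X ^ m ≤ 2 ^ n := by
    calc X ^ m ≤ (P ^ (20 * a ^ 89)) ^ m := Nat.pow_le_pow_left f6 _
      _ = (P ^ (20 * m)) ^ (a ^ 89) := by
        rw [← pow_mul, ← pow_mul]; congr 1; ring
      _ ≤ (2 ^ a) ^ (a ^ 89) := Nat.pow_le_pow_left hP _
      _ = 2 ^ (a ^ 90) := by rw [← pow_mul, e90]
      _ ≤ 2 ^ n := Nat.pow_le_pow_right (by norm_num) h1
  have f8 : (X : ℝ) ≤ (c / 2) ^ n := by
    have g1 : (X : ℝ) ^ m ≤ ((c / 2) ^ n) ^ m := by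
      calc (X : ℝ) ^ m ≤ (2 : ℝ) ^ n := by exact_mod_cast f7
        _ ≤ ((c / 2) ^ m) ^ n := pow_le_pow_left₀ (by norm_num) hm.le n
        _ = ((c / 2) ^ n) ^ m := by rw [← pow_mul, ← pow_mul, mul_comm]
    exact le_of_pow_le_pow_left₀ hm0 (by positivity) g1
  have f9 : (2 : ℝ) ^ n * (c / 2) ^ n = c ^ n := by
    rw [← mul_pow]
    congr 1
    ring
  calc (((2 ^ n * (1 + (n + 1) ^ (a ^ 89) * 4 ^ (a ^ 89) * (a ^ 89).factorial) *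
      (1 + (n + 1) ^ (2 * (2 * a))) ^ (2 * a + 1) : ℕ)) : ℝ) = ((2 ^ n * X : ℕ) : ℝ) := by
        rw [hX, mul_assoc]
    _ = (2 : ℝ) ^ n * (X : ℝ) := by push_cast; ring
    _ ≤ (2 : ℝ) ^ n * (c / 2) ^ n := by gcongr
    _ = c ^ n := f9

end Pool.Agent.H67.AE
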