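import Pool.Agent.H67.AE.Chain
import Pool.Agent.H67.AE.ProbT1
import Pool.Agent.H67.AE.ProbF2
import Pool.Agent.H67.AE.ProbO1
import Pool.Agent.H67.AE.ProbO2
import Pool.Agent.H67.AE.ProbT4
import Pool.Agent.H67.AE.ProbT6
import Pool.Agent.H67.AE.Num
import Pool.Agent.H67.AE.NumC
import Pool.Agent.H67.AE.Mob
import Pool.Agent.H67.AE.Pat

/-! Assembly with an arbitrary base larger than 2 (same proof as `Final`, by helper20). -/

set_option autoImplicit false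

open Finset Classical

namespace Pool.Agent.H67.AE

private theorem sum_instC {α β : Type} (i1 i2 : DecidableEq β) (f : α → β) (s : Finset α)
    {g1 g2 : β → ℤ} (hg : ∀ τ, g1 τ = g2 τ) :
    ∑ τ ∈ @Finset.image α β i1 f s, g1 τ = ∑ τ ∈ @Finset.image α β i2 f s, g2 τ := by
  rw [Subsingleton.elim i1 i2]
  exact Finset.sum_congr rfl (fun τ _ => hg τ)

private theorem sdiff_instC {α : Type} (i1 i2 : DecidableEq α) (A B : Finset α) :
    (@SDiff.sdiff _ (@Finset.instSDiff α i1) A B).card =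
      (@SDiff.sdiff _ (@Finset.instSDiff α i2) A B).card := by
  rw [Subsingleton.elim i1 i2]

private theorem detC (mu : (k : ℕ) → Equiv.Perm (Fin k) → (m : ℕ) → Equiv.Perm (Fin m) → ℤ)
    (h1 : ∀ (k : ℕ) (σ : Equiv.Perm (Fin k)), 1 ≤ k → mu k σ k σ = 1)
    (h2 : ∀ (k : ℕ) (σ : Equiv.Perm (Fin k)) (n : ℕ) (π : Equiv.Perm (Fin n)), 1 ≤ k → k < n →
      Cont σ π → ∑ j ∈ Finset.Icc k n,
        ∑ τ ∈ (Finset.univ : Finset (Equiv.Perm (Fin j))).filter (fun τ => Cont σ τ ∧ Cont τ π),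
          mu k σ j τ = 0)
    (n a : ℕ) (ha : 1 ≤ a)
    (c2 : 4 * 4 * 10 * (48 * a ^ 60) < a ^ 22 * (a ^ 22 * a ^ 22 - 4 * 4 * (2 * a ^ 24 + 1)))
    (c3 : 81 * (4 * n + 2 * (a ^ 2 * a ^ 88)) ≤ a ^ 2 * (810 * a ^ 88))
    (c4 : a ^ 89 + 810 * a ^ 88 ≤ 2 * a ^ 89)
    (c5 : 2 * a + 2 * (810 * a ^ 88) ≤ 1700 * a ^ 88)
    (c : ℝ)
    (c7 : (((2 ^ n * (1 + (n + 1) ^ (a ^ 89) * 4 ^ (a ^ 89) * (a ^ 89).factorial) *
      (1 + (n + 1) ^ (2 * (2 * a))) ^ (2 * a + 1) : ℕ)) : ℝ) ≤ c ^ n)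
    (π : Equiv.Perm (Fin n))
    (hT1 : T1 π (48 * a ^ 60)) (hO1 : O1 π (a ^ 24) 4) (hO2 : O2 π (a ^ 24) 10)
    (hF1 : (F2 π (a ^ 24) (48 * a ^ 60 * a ^ 2)).card ≤ a ^ 88)
    (hF2 : (F2 π (48 * a ^ 60 * a ^ 2) (a ^ 24)).card ≤ a ^ 88)
    (hT4 : T4 π (2 * a) (2 * a ^ 89)) (hT6 : T6 π (1700 * a ^ 88) (a ^ 89))
    (k : ℕ) (σ : Equiv.Perm (Fin k)) (hk : 1 ≤ k) (hc : Cont σ π) :
    |(mu k σ n π : ℝ)| ≤ c ^ n := by
  obtain ⟨f, hf0, hf1, hfu, hf2⟩ := pat_exists π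
  have hf : ∀ S T, f S = f T → S.card = T.card := by
    intro S T h
    rw [← hf1 S, ← hf1 T, h]
  have hmain := main_bound f hf (fun τ : PT => if Cont σ τ.2 then mu k σ τ.1 τ.2 else 0)
    (fun τ : PT => if τ = ⟨k, σ⟩ then 1 else 0)
    (by
      intro Z
      have h := pat_relation mu h1 h2 k σ hk π f hf1 hf2 Z
      refine Eq.trans ?_ (h.trans ?_)
      · refine sum_instC _ _ _ _ ?_
        intro τ
        by_cases hτ : Cont σ τ.2
        · rw [if_pos hτ]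
        · rw [if_neg hτ]
      · by_cases hτ : f Z = ⟨k, σ⟩
        · rw [if_pos hτ]
        · rw [if_neg hτ])
    (by
      intro τ
      show |(if τ = ⟨k, σ⟩ then (1 : ℤ) else 0)| ≤ 1
      split_ifs <;> simp)
    (Reach π) Reach.base
    (by
      intro Z Z' hZ hcov
      refine Reach.step Z Z' hZ ⟨hcov.1, ?_⟩
      intro x hx
      obtain ⟨S, hS, hxS, hfS⟩ := hcov.2 x hx
      obtain ⟨φ, hφ⟩ := (hf0 Z' S).1 hfS.symm
      exact ⟨S, φ, hS, hxS, hφ⟩)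
    (a ^ 89) (2 * a)
    (by
      intro Z hZ
      have h := chain π (a ^ 2) (a ^ 24) (48 * a ^ 60) (a ^ 22) 4 10 (a ^ 88) (2 * a) (a ^ 89)
        (2 * a ^ 89) (1700 * a ^ 88) (a ^ 89) (810 * a ^ 88)
        (Nat.one_le_pow _ _ ha) (Nat.one_le_pow _ _ ha) (by rw [← pow_add]) hT1 hO1 hO2 hF1 hF2
        c2 c3 hT4 hT6 c4 c5 le_rfl hZ
      rcases h with h | h
      · left
        exact le_of_eq_of_le (sdiff_instC _ _ _ _) h
      · right
        exact h)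
  have e1 : (if Cont σ (f univ).2 then mu k σ (f univ).1 (f univ).2 else 0) = mu k σ n π := by
    rw [hfu]
    exact if_pos hc
  have hmain' : |(if Cont σ (f univ).2 then mu k σ (f univ).1 (f univ).2 else 0)| ≤ _ := hmain
  rw [e1, Fintype.card_fin] at hmain'
  refine le_trans ?_ c7
  have h9 : ((|mu k σ n π| : ℤ) : ℝ) ≤ (((2 ^ n * (1 + (n + 1) ^ (a ^ 89) * 4 ^ (a ^ 89) *
      (a ^ 89).factorial) * (1 + (n + 1) ^ (2 * (2 * a))) ^ (2 * a + 1) : ℕ)) : ℝ) := by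
    exact_mod_cast hmain'
  rwa [Int.cast_abs] at h9

private theorem f2_sumC (n a : ℕ) (ha : 1 ≤ a) (hn : 2 ≤ n) (s t : ℕ)
    (hst : (2 * s + 1) * (2 * t + 1) ≤ 3 * a ^ 24 * (97 * a ^ 62)) :
    a * (univ.filter (fun π : Equiv.Perm (Fin n) => a ^ 88 < (F2 π s t).card)).card ≤
      582 * n.factorial := by
  have h := probF2 n s t (a ^ 88) hn
  have h3 : a ^ 86 * (a * (univ.filter
      (fun π : Equiv.Perm (Fin n) => a ^ 88 < (F2 π s t).card)).card) ≤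
        a ^ 86 * (582 * n.factorial) := by
    calc a ^ 86 * (a * (univ.filter
      (fun π : Equiv.Perm (Fin n) => a ^ 88 < (F2 π s t).card)).card)
        = a ^ 87 * (univ.filter
      (fun π : Equiv.Perm (Fin n) => a ^ 88 < (F2 π s t).card)).card := by ring
      _ ≤ a ^ 88 * (univ.filter
      (fun π : Equiv.Perm (Fin n) => a ^ 88 < (F2 π s t).card)).card :=
          Nat.mul_le_mul_right _ (Nat.pow_le_pow_right ha (by norm_num))
      _ ≤ 2 * ((2 * s + 1) * (2 * t + 1)) * n.factorial := h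
      _ ≤ 2 * (3 * a ^ 24 * (97 * a ^ 62)) * n.factorial :=
          Nat.mul_le_mul_right _ (Nat.mul_le_mul_left _ hst)
      _ = a ^ 86 * (582 * n.factorial) := by ring
  exact Nat.le_of_mul_le_mul_left h3 (Nat.pow_pos ha)

private theorem f2_parC (a : ℕ) (ha : 1 ≤ a) :
    (2 * a ^ 24 + 1) * (2 * (48 * a ^ 60 * a ^ 2) + 1) ≤ 3 * a ^ 24 * (97 * a ^ 62) := by
  have e1 : 1 ≤ a ^ 24 := Nat.one_le_pow _ _ ha
  have e2 : 1 ≤ a ^ 62 := Nat.one_le_pow _ _ ha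
  have e3 : 48 * a ^ 60 * a ^ 2 = 48 * a ^ 62 := by ring
  rw [e3]
  exact Nat.mul_le_mul (by omega) (by omega)

theorem almost_all_c (mu : (k : ℕ) → Equiv.Perm (Fin k) → (m : ℕ) → Equiv.Perm (Fin m) → ℤ)
    (h1 : ∀ (k : ℕ) (σ : Equiv.Perm (Fin k)), 1 ≤ k → mu k σ k σ = 1)
    (h2 : ∀ (k : ℕ) (σ : Equiv.Perm (Fin k)) (n : ℕ) (π : Equiv.Perm (Fin n)), 1 ≤ k → k < n →
      Cont σ π → ∑ j ∈ Finset.Icc k n,
        ∑ τ ∈ (Finset.univ : Finset (Equiv.Perm (Fin j))).filter (fun τ => Cont σ τ ∧ Cont τ π),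
          mu k σ j τ = 0)
    (c : ℝ) (hc2 : 2 < c) (ε : ℝ) (hε : 0 < ε) :
    ∃ N : ℕ, ∀ n : ℕ, N ≤ n →
      (((univ : Finset (Equiv.Perm (Fin n))).filter (fun π => ∃ (k : ℕ)
        (σ : Equiv.Perm (Fin k)), 1 ≤ k ∧ Cont σ π ∧ c ^ n < |(mu k σ n π : ℝ)|)).card : ℝ) ≤
        ε * (n.factorial : ℝ) := by
  obtain ⟨a0, ha0⟩ := numerics
  obtain ⟨a00, ha00⟩ := numerics_c c hc2
  obtain ⟨N, hN⟩ := exists_root (max (max (max a0 a00) 32) (⌈1187 / ε⌉₊ + 1))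
  refine ⟨max N 2, fun n hn => ?_⟩
  have hn2 : 2 ≤ n := le_trans (le_max_right _ _) hn
  obtain ⟨a, ha1, hlo, hup⟩ := hN n (le_trans (le_max_left _ _) hn)
  have haa0 : a0 ≤ a := le_trans (le_trans (le_trans (le_max_left _ _) (le_max_left _ _))
    (le_max_left _ _)) ha1
  have haa00 : a00 ≤ a := le_trans (le_trans (le_trans (le_max_right _ _) (le_max_left _ _))
    (le_max_left _ _)) ha1
  have ha32 : 32 ≤ a := le_trans (le_trans (le_max_right _ _) (le_max_left _ _)) ha1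
  have haε : ⌈1187 / ε⌉₊ + 1 ≤ a := le_trans (le_max_right _ _) ha1
  have ha : 1 ≤ a := by omega
  obtain ⟨c1, c2, c3, c4, c5, c6, -⟩ := ha0 a n haa0 hlo hup
  have c7 := ha00 a n haa00 hlo hup
  obtain ⟨B1, hB1⟩ : ∃ B, B = univ.filter (fun π : Equiv.Perm (Fin n) => ¬ T1 π (48 * a ^ 60)) :=
    ⟨_, rfl⟩
  obtain ⟨B2, hB2⟩ : ∃ B, B = univ.filter (fun π : Equiv.Perm (Fin n) => ¬ O1 π (a ^ 24) 4) :=
    ⟨_, rfl⟩
  obtain ⟨B3, hB3⟩ : ∃ B, B = univ.filter (fun π : Equiv.Perm (Fin n) => ¬ O2 π (a ^ 24) 10) :=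
    ⟨_, rfl⟩
  obtain ⟨B4, hB4⟩ : ∃ B, B = univ.filter (fun π : Equiv.Perm (Fin n) =>
      (F2 π 1 1).card ≤ a ∧ ¬ T4 π (2 * a) (2 * a ^ 89)) := ⟨_, rfl⟩
  obtain ⟨B5, hB5⟩ : ∃ B, B = univ.filter (fun π : Equiv.Perm (Fin n) =>
      ¬ T6 π (1700 * a ^ 88) (a ^ 89)) := ⟨_, rfl⟩
  obtain ⟨B6, hB6⟩ : ∃ B, B = univ.filter (fun π : Equiv.Perm (Fin n) =>
      a < (F2 π 1 1).card) := ⟨_, rfl⟩
  obtain ⟨B7, hB7⟩ : ∃ B, B = univ.filter (fun π : Equiv.Perm (Fin n) =>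
      a ^ 88 < (F2 π (a ^ 24) (48 * a ^ 60 * a ^ 2)).card) := ⟨_, rfl⟩
  obtain ⟨B8, hB8⟩ : ∃ B, B = univ.filter (fun π : Equiv.Perm (Fin n) =>
      a ^ 88 < (F2 π (48 * a ^ 60 * a ^ 2) (a ^ 24)).card) := ⟨_, rfl⟩
  have b1 : a * B1.card ≤ n.factorial := by
    rw [hB1]
    exact probT1 n a ha hup
  have b2 : a * B2.card ≤ n.factorial := by
    rw [hB2]
    exact probO1 n a ha32 hlo
  have b3 : a * B3.card ≤ n.factorial := by
    rw [hB3]
    exact probO2 n a ha32 hlo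
  have b4 : a * B4.card ≤ n.factorial := by
    rw [hB4]
    exact probT4 n a c1 hlo
  have b5 : a * B5.card ≤ n.factorial := by
    rw [hB5]
    exact probT6 n a (1700 * a ^ 88) (a ^ 89) c6
  have b6 : a * B6.card ≤ 18 * n.factorial := by
    rw [hB6]
    exact probF2 n 1 1 a hn2
  have b7 : a * B7.card ≤ 582 * n.factorial := by
    rw [hB7]
    exact f2_sumC n a ha hn2 _ _ (f2_parC a ha)
  have b8 : a * B8.card ≤ 582 * n.factorial := by
    rw [hB8]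
    refine f2_sumC n a ha hn2 _ _ ?_
    rw [Nat.mul_comm]
    exact f2_parC a ha
  have hsub : (univ : Finset (Equiv.Perm (Fin n))).filter (fun π => ∃ (k : ℕ)
      (σ : Equiv.Perm (Fin k)), 1 ≤ k ∧ Cont σ π ∧ c ^ n < |(mu k σ n π : ℝ)|) ⊆
      B1 ∪ (B2 ∪ (B3 ∪ (B4 ∪ (B5 ∪ (B6 ∪ (B7 ∪ B8)))))) := by
    intro π hπ
    obtain ⟨k, σ, hk, hc, hlt⟩ := (mem_filter.1 hπ).2
    by_contra hcon
    simp only [mem_union, not_or] at hcon
    obtain ⟨n1, n2, n3, n4, n5, n6, n7, n8⟩ := hcon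
    rw [hB1, mem_filter, not_and_not_right] at n1
    rw [hB2, mem_filter, not_and_not_right] at n2
    rw [hB3, mem_filter, not_and_not_right] at n3
    rw [hB5, mem_filter, not_and_not_right] at n5
    rw [hB6, mem_filter, not_and] at n6
    rw [hB7, mem_filter, not_and] at n7
    rw [hB8, mem_filter, not_and] at n8
    have m6 := not_lt.1 (n6 (mem_univ _))
    have m7 := not_lt.1 (n7 (mem_univ _))
    have m8 := not_lt.1 (n8 (mem_univ _))
    have m4 : T4 π (2 * a) (2 * a ^ 89) := by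
      by_contra hT
      apply n4
      rw [hB4, mem_filter]
      exact ⟨mem_univ _, m6, hT⟩
    have := detC mu h1 h2 n a ha c2 c3 c4 c5 c c7 π (n1 (mem_univ _)) (n2 (mem_univ _))
      (n3 (mem_univ _)) m7 m8 m4 (n5 (mem_univ _)) k σ hk hc
    exact absurd hlt (not_lt.2 this)
  have hcard := card_le_card hsub
  have hun : (B1 ∪ (B2 ∪ (B3 ∪ (B4 ∪ (B5 ∪ (B6 ∪ (B7 ∪ B8))))))).card ≤
      B1.card + (B2.card + (B3.card + (B4.card + (B5.card + (B6.card + (B7.card + B8.card)))))) := by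
    refine (card_union_le _ _).trans (Nat.add_le_add_left ?_ _)
    refine (card_union_le _ _).trans (Nat.add_le_add_left ?_ _)
    refine (card_union_le _ _).trans (Nat.add_le_add_left ?_ _)
    refine (card_union_le _ _).trans (Nat.add_le_add_left ?_ _)
    refine (card_union_le _ _).trans (Nat.add_le_add_left ?_ _)
    refine (card_union_le _ _).trans (Nat.add_le_add_left ?_ _)
    exact card_union_le _ _
  obtain ⟨M, hM⟩ : ∃ M, M = ((univ : Finset (Equiv.Perm (Fin n))).filter (fun π => ∃ (k : ℕ)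
      (σ : Equiv.Perm (Fin k)), 1 ≤ k ∧ Cont σ π ∧ c ^ n < |(mu k σ n π : ℝ)|)).card := ⟨_, rfl⟩
  rw [← hM]
  rw [← hM] at hcard
  have htot : a * M ≤ 1187 * n.factorial := by
    have h3 := Nat.mul_le_mul_left a (hcard.trans hun)
    have h4 : a * (B1.card + (B2.card + (B3.card + (B4.card + (B5.card + (B6.card +
        (B7.card + B8.card))))))) = a * B1.card + (a * B2.card + (a * B3.card + (a * B4.card +
        (a * B5.card + (a * B6.card + (a * B7.card + a * B8.card)))))) := by ring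
    rw [h4] at h3
    linarith
  have hareal : (1187 : ℝ) / ε ≤ a := by
    have h5 := Nat.le_ceil ((1187 : ℝ) / ε)
    have h6 : ((⌈1187 / ε⌉₊ : ℕ) : ℝ) ≤ (a : ℝ) := by
      exact_mod_cast (by omega : ⌈1187 / ε⌉₊ ≤ a)
    exact h5.trans h6
  have hapos : (0 : ℝ) < a := by exact_mod_cast (by omega : 0 < a)
  have hreal : (a : ℝ) * (M : ℝ) ≤ 1187 * (n.factorial : ℝ) := by exact_mod_cast htot
  have h7 : (1187 : ℝ) ≤ ε * a := by
    rw [div_le_iff₀ hε] at hareal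
    linarith
  have hf0 : (0 : ℝ) ≤ (n.factorial : ℝ) := Nat.cast_nonneg _
  have h8 : (a : ℝ) * (M : ℝ) ≤ (a : ℝ) * (ε * (n.factorial : ℝ)) := by
    calc (a : ℝ) * (M : ℝ) ≤ 1187 * (n.factorial : ℝ) := hreal
      _ ≤ ε * a * (n.factorial : ℝ) := mul_le_mul_of_nonneg_right h7 hf0
      _ = (a : ℝ) * (ε * (n.factorial : ℝ)) := by ring
  exact le_of_mul_le_mul_left h8 hapos

end Pool.Agent.H67.AE
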