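import Pool.Agent.H67.AE.Defs

/-! Elements between `z` and `φ z` are moved; the local claim. -/

set_option autoImplicit false

open Finset Classical

namespace Pool.Agent.H67.AE

variable {n : ℕ}

theorem iso_dir {π : Equiv.Perm (Fin n)} {S T : Finset (Fin n)} {φ : Fin n → Fin n}
    (h : IsIso π S T φ) (i : Fin 4) {a b : Fin n} (ha : a ∈ S) (hb : b ∈ S)
    (hab : dir π i a < dir π i b) : dir π i (φ a) < dir π i (φ b) := by
  fin_cases i
  · exact h.pos a ha b hb hab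
  · have h1 : b < a := Fin.rev_lt_rev.1 hab
    exact Fin.rev_lt_rev.2 (h.pos b hb a ha h1)
  · exact h.val a ha b hb hab
  · have h1 : π b < π a := Fin.rev_lt_rev.1 hab
    exact Fin.rev_lt_rev.2 (h.val b hb a ha h1)

/-- elements of `S` between `z` and `φ z` (in one of the four directions) are moved -/
theorem hull {π : Equiv.Perm (Fin n)} {S T : Finset (Fin n)} {φ : Fin n → Fin n}
    (h : IsIso π S T φ) (i : Fin 4) {z v : Fin n} (hz : z ∈ S) (hv : v ∈ S)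
    (h0 : dir π i z < dir π i (φ z)) (h1 : dir π i z ≤ dir π i v)
    (h2 : dir π i v < dir π i (φ z)) : φ v ≠ v := by
  intro hc
  rcases h1.lt_or_eq with h3 | h3
  · have h4 := iso_dir h i hz hv h3
    rw [hc] at h4
    exact lt_asymm h2 h4
  · have h4 : z = v := (dir π i).injective h3
    rw [← h4] at hc
    rw [hc] at h0
    exact lt_irrefl _ h0

theorem moved_again {π : Equiv.Perm (Fin n)} {S T : Finset (Fin n)} {φ : Fin n → Fin n}
    (h : IsIso π S T φ) {z : Fin n} (hz : z ∈ S) (h1 : φ z ∈ S) (h2 : φ z ≠ z) :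
    φ (φ z) ≠ φ z := by
  rcases lt_or_gt_of_ne h2 with h3 | h3
  · exact (h.pos _ h1 _ hz h3).ne
  · exact (h.pos _ hz _ h1 h3).ne'

/-- a moved element has a small displacement in every direction, or a full window of length `k` -/
theorem window_moved {π : Equiv.Perm (Fin n)} {Y Z T : Finset (Fin n)} {φ : Fin n → Fin n}
    (hYZ : Y ⊆ Z) (hφ : IsIso π Z T φ) {z : Fin n} (hz : z ∈ Y) (i : Fin 4) (k : ℕ)
    (hk1 : 1 ≤ k)
    (hk : ((dir π i z : Fin n) : ℕ) + k ≤ ((dir π i (φ z) : Fin n) : ℕ)) :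
    ((dir π i z : Fin n) : ℕ) + k ≤ n ∧ win (dir π i) k Y z ⊆ moved Y φ := by
  refine ⟨hk.trans (dir π i (φ z)).isLt.le, fun v hv => ?_⟩
  unfold win at hv
  rw [Finset.mem_filter] at hv
  unfold moved
  rw [Finset.mem_filter]
  refine ⟨hv.1, hull hφ i (hYZ hz) (hYZ hv.1) ?_ ?_ ?_⟩
  · rw [Fin.lt_def]; omega
  · rw [Fin.le_def]; exact hv.2.1
  · rw [Fin.lt_def]; omega

theorem not_Sp {b : ℕ} {δ : Equiv.Perm (Fin n)} {Y : Finset (Fin n)} {z : Fin n} (hz : z ∈ Y)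
    (h : z ∉ Sp b δ Y) (k : ℕ) (hk : 1 ≤ k) (hn : ((δ z : Fin n) : ℕ) + k ≤ n) :
    k < b * (win δ k Y z).card := by
  by_contra hc
  refine h ?_
  unfold Sp
  rw [Finset.mem_filter]
  exact ⟨hz, k, hk, hn, not_lt.1 hc⟩

/-- the displacement is at most `L * b` in every direction with small density -/
theorem disp_le {π : Equiv.Perm (Fin n)} {b L : ℕ} (hT : T1 π L) {Y Z T : Finset (Fin n)}
    {φ : Fin n → Fin n} (hYZ : Y ⊆ Z) (hφ : IsIso π Z T φ) {z : Fin n} (hz : z ∈ Y) (i : Fin 4)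
    (hS : z ∉ Sp b (dir π i) Y) :
    ((dir π i (φ z) : Fin n) : ℕ) ≤ ((dir π i z : Fin n) : ℕ) + L * b := by
  by_contra hc
  push Not at hc
  obtain ⟨h1, h2⟩ := window_moved hYZ hφ hz i (L * b + 1) (Nat.le_add_left 1 _) (by omega)
  have h3 := not_Sp hz hS _ (Nat.le_add_left 1 _) h1
  have h4 : moved Y φ ⊆ moved Z φ := Finset.filter_subset_filter _ hYZ
  have h5 : (win (dir π i) (L * b + 1) Y z).card ≤ L :=
    (Finset.card_le_card (h2.trans h4)).trans (hT Z T φ hφ)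
  have h6 : b * (win (dir π i) (L * b + 1) Y z).card ≤ b * L := Nat.mul_le_mul_left b h5
  rw [Nat.mul_comm b L] at h6
  omega

theorem rev_val' (a : Fin n) : ((Fin.revPerm a : Fin n) : ℕ) = n - ((a : ℕ) + 1) := by
  rw [Fin.revPerm_apply, Fin.val_rev]

/-- Local claim: a moved element outside `At0` has a full position window and a full value window
of length `l` of moved elements. -/
theorem local_claim (π : Equiv.Perm (Fin n)) (b l L : ℕ) (hl : 1 ≤ l) (hT : T1 π L)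
    (Y Z T : Finset (Fin n)) (φ : Fin n → Fin n) (hYZ : Y ⊆ Z) (hφ : IsIso π Z T φ)
    (z : Fin n) (hz : z ∈ Y) (hm : φ z ≠ z) (hA : z ∉ At0 π b l (L * b) Y) :
    (∃ i : Fin 4, (i = 0 ∨ i = 1) ∧ ((dir π i z : Fin n) : ℕ) + l ≤ n ∧
      win (dir π i) l Y z ⊆ moved Y φ ∧ l < b * (win (dir π i) l Y z).card) ∧
    (∃ i : Fin 4, (i = 2 ∨ i = 3) ∧ ((dir π i z : Fin n) : ℕ) + l ≤ n ∧
      win (dir π i) l Y z ⊆ moved Y φ ∧ l < b * (win (dir π i) l Y z).card) := by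
  have hSp : ∀ i : Fin 4, z ∉ Sp b (dir π i) Y := fun i hi => hA (by
    unfold At0
    exact Finset.mem_union_left _ (Finset.mem_union_left _
      (Finset.mem_biUnion.2 ⟨i, Finset.mem_univ i, hi⟩)))
  have hF1 : ¬ (Near l z (φ z) ∧ Near (L * b) (π z) (π (φ z))) := fun h => hA (by
    unfold At0 F2
    exact Finset.mem_union_left _ (Finset.mem_union_right _ (Finset.mem_inter.2
      ⟨Finset.mem_filter.2 ⟨Finset.mem_univ z, φ z, hm, h⟩, hz⟩)))
  have hF2 : ¬ (Near (L * b) z (φ z) ∧ Near l (π z) (π (φ z))) := fun h => hA (by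
    unfold At0 F2
    exact Finset.mem_union_right _ (Finset.mem_inter.2
      ⟨Finset.mem_filter.2 ⟨Finset.mem_univ z, φ z, hm, h⟩, hz⟩))
  have hd := fun i => disp_le hT hYZ hφ hz i (hSp i)
  have hd0 := hd 0
  have hd1 := hd 1
  have hd2 := hd 2
  have hd3 := hd 3
  have e0 : ∀ a : Fin n, ((dir π 0 a : Fin n) : ℕ) = (a : ℕ) := fun a => rfl
  have e1 : ∀ a : Fin n, ((dir π 1 a : Fin n) : ℕ) = n - ((a : ℕ) + 1) := fun a => rev_val' a
  have e2 : ∀ a : Fin n, ((dir π 2 a : Fin n) : ℕ) = ((π a : Fin n) : ℕ) := fun a => rfl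
  have e3 : ∀ a : Fin n, ((dir π 3 a : Fin n) : ℕ) = n - (((π a : Fin n) : ℕ) + 1) :=
    fun a => rev_val' (π a)
  have b1 := z.isLt
  have b2 := (φ z).isLt
  have b3 := (π z).isLt
  have b4 := (π (φ z)).isLt
  rw [e0, e0] at hd0
  rw [e1, e1] at hd1
  rw [e2, e2] at hd2
  rw [e3, e3] at hd3
  have hN1 : Near (L * b) z (φ z) := ⟨by omega, by omega⟩
  have hN2 : Near (L * b) (π z) (π (φ z)) := ⟨by omega, by omega⟩
  have hM1 : ¬ Near l z (φ z) := fun h => hF1 ⟨h, hN2⟩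
  have hM2 : ¬ Near l (π z) (π (φ z)) := fun h => hF2 ⟨hN1, h⟩
  have fin : ∀ i : Fin 4,
      ((dir π i z : Fin n) : ℕ) + l ≤ ((dir π i (φ z) : Fin n) : ℕ) →
      ((dir π i z : Fin n) : ℕ) + l ≤ n ∧
      win (dir π i) l Y z ⊆ moved Y φ ∧ l < b * (win (dir π i) l Y z).card := by
    intro i hi
    obtain ⟨h1, h2⟩ := window_moved hYZ hφ hz i l hl hi
    exact ⟨h1, h2, not_Sp hz (hSp i) l hl h1⟩
  constructor
  · by_cases hc : ((z : Fin n) : ℕ) + l ≤ ((φ z : Fin n) : ℕ)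
    · exact ⟨0, Or.inl rfl, fin 0 (by rw [e0, e0]; exact hc)⟩
    · refine ⟨1, Or.inr rfl, fin 1 ?_⟩
      rw [e1, e1]
      unfold Near at hM1
      omega
  · by_cases hc : ((π z : Fin n) : ℕ) + l ≤ ((π (φ z) : Fin n) : ℕ)
    · exact ⟨2, Or.inl rfl, fin 2 (by rw [e2, e2]; exact hc)⟩
    · refine ⟨3, Or.inr rfl, fin 3 ?_⟩
      rw [e3, e3]
      unfold Near at hM2
      omega

end Pool.Agent.H67.AE
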